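import Pool.Agent.Work.MP_972ac7_gen.Defs

/-! # Property (T;FD) passes to quotients, finite index subgroups and finite index overgroups -/

set_option autoImplicit false

open MeasureTheory Matrix
open scoped ENNReal ComplexOrder

noncomputable section

namespace Pool.TFD

/-- Quotients. -/
theorem Comm_quo (Λ M : Type) [Group Λ] [Group M] (f : Λ →* M) (hf : Function.Surjective f)
    (h : PropTFD Λ) : PropTFD M := by
  classical
  obtain ⟨Q, ε, hε, hQ⟩ := h
  refine ⟨Q.image f, ε, hε, ?_⟩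
  intro V _ _ _ π hπ v
  obtain ⟨q, hq, h1⟩ := hQ V (π.comp f) (fun w hw => hπ w fun γ => by
    obtain ⟨g, rfl⟩ := hf γ
    exact hw g) v
  exact ⟨f q, Finset.mem_image_of_mem f hq, h1⟩

section sub

variable {Λ : Type} [Group Λ] (K : Subgroup Λ)

/-- The cocycle of the section `Quotient.out`. -/
def cc (g : Λ) (x : Λ ⧸ K) : K :=
  coc K (fun x => x.out) (fun x => QuotientGroup.out_eq' x) g x

theorem cc_coe (g : Λ) (x : Λ ⧸ K) : (cc K g x : Λ) = ((g • x).out)⁻¹ * (g * x.out) := rfl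

theorem cc_mul (g h : Λ) (x : Λ ⧸ K) : cc K (g * h) x = cc K g (h • x) * cc K h x := by
  apply Subtype.ext
  rw [Subgroup.coe_mul, cc_coe, cc_coe, cc_coe, ← mul_smul]
  group

theorem cc_one (x : Λ ⧸ K) : cc K 1 x = 1 := by
  have := cc_mul K 1 1 x
  rw [one_mul, one_smul] at this
  exact mul_left_cancel (a := cc K 1 x) (by rw [mul_one]; exact this.symm)

variable (V : Type) [NormedAddCommGroup V] [InnerProductSpace ℂ V] (π : K →* (V ≃ₗᵢ[ℂ] V))
  [Fintype (Λ ⧸ K)]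

/-- The induced representation, one operator. -/
def indOp (g : Λ) (f : PiLp 2 fun _ : Λ ⧸ K => V) : PiLp 2 fun _ : Λ ⧸ K => V :=
  WithLp.toLp 2 fun x => π (cc K g (g⁻¹ • x)) (f (g⁻¹ • x))

omit [Fintype (Λ ⧸ K)] in
theorem indOp_apply (g : Λ) (f : PiLp 2 fun _ : Λ ⧸ K => V) (x : Λ ⧸ K) :
    indOp K V π g f x = π (cc K g (g⁻¹ • x)) (f (g⁻¹ • x)) := rfl

omit [Fintype (Λ ⧸ K)] in
theorem indOp_mul (g h : Λ) (f : PiLp 2 fun _ : Λ ⧸ K => V) :
    indOp K V π (g * h) f = indOp K V π g (indOp K V π h f) := by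
  ext x
  rw [indOp_apply, indOp_apply, indOp_apply, cc_mul]
  have e1 : (g * h)⁻¹ • x = h⁻¹ • (g⁻¹ • x) := by rw [_root_.mul_inv_rev, mul_smul]
  have e2 : h • (h⁻¹ • (g⁻¹ • x)) = g⁻¹ • x := smul_inv_smul h _
  rw [e1, e2, map_mul]
  rfl

omit [Fintype (Λ ⧸ K)] in
theorem indOp_one (f : PiLp 2 fun _ : Λ ⧸ K => V) : indOp K V π 1 f = f := by
  ext x
  rw [indOp_apply, inv_one, one_smul, cc_one, map_one]
  rfl

theorem indOp_norm (g : Λ) (f : PiLp 2 fun _ : Λ ⧸ K => V) : ‖indOp K V π g f‖ = ‖f‖ := by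
  have h1 : ‖indOp K V π g f‖ ^ 2 = ‖f‖ ^ 2 := by
    rw [PiLp.norm_sq_eq_of_L2, PiLp.norm_sq_eq_of_L2]
    simp only [indOp_apply, LinearIsometryEquiv.norm_map]
    exact Fintype.sum_equiv (MulAction.toPerm g⁻¹) _ _ fun x => rfl
  exact (pow_left_inj₀ (norm_nonneg _) (norm_nonneg _) two_ne_zero).1 h1

/-- The induced representation. -/
def indRep : Λ →* ((PiLp 2 fun _ : Λ ⧸ K => V) ≃ₗᵢ[ℂ] (PiLp 2 fun _ : Λ ⧸ K => V)) :=
  let A : Λ → ((PiLp 2 fun _ : Λ ⧸ K => V) →ₗ[ℂ] (PiLp 2 fun _ : Λ ⧸ K => V)) := fun g =>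
    { toFun := indOp K V π g
      map_add' := fun f f' => by
        ext x
        simp only [indOp_apply, PiLp.add_apply, map_add]
      map_smul' := fun a f => by
        ext x
        simp only [indOp_apply, PiLp.smul_apply, map_smul, RingHom.id_apply] }
  have hinv : ∀ g f, A g (A g⁻¹ f) = f := by
    intro g f
    show indOp K V π g (indOp K V π g⁻¹ f) = f
    rw [← indOp_mul, mul_inv_cancel, indOp_one]
  { toFun := fun g =>
      { toLinearEquiv := LinearEquiv.ofLinearMap (A g) (A g⁻¹)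
          (LinearMap.ext fun f => hinv g f)
          (LinearMap.ext fun f => by
            have := hinv g⁻¹ f
            rwa [inv_inv] at this)
        norm_map' := fun f => indOp_norm K V π g f }
    map_one' := by
      ext1 f
      exact indOp_one K V π f
    map_mul' := fun g h => by
      ext1 f
      exact indOp_mul K V π g h f }

theorem indRep_apply (g : Λ) (f : PiLp 2 fun _ : Λ ⧸ K => V) (x : Λ ⧸ K) :
    indRep K V π g f x = π (cc K g (g⁻¹ • x)) (f (g⁻¹ • x)) := rfl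

end sub

/-- Finite index subgroups. -/
theorem Comm_sub (Λ : Type) [Group Λ] (K : Subgroup Λ) (hK : K.FiniteIndex) (h : PropTFD Λ) :
    PropTFD K := by
  classical
  have : Fintype (Λ ⧸ K) := Subgroup.fintypeQuotientOfFiniteIndex
  obtain ⟨Q, ε, hε, hQ⟩ := h
  refine ⟨(Q ×ˢ (Finset.univ : Finset (Λ ⧸ K))).image fun p => cc K p.1 (p.1⁻¹ • p.2), ε, hε, ?_⟩
  intro V _ _ _ π hπ v
  have h0 : ∀ f : PiLp 2 fun _ : Λ ⧸ K => V, (∀ γ, indRep K V π γ f = f) → f = 0 := by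
    intro f hf
    have h1 : ∀ g x, π (cc K g x) (f x) = f (g • x) := by
      intro g x
      have := indRep_apply K V π g f (g • x)
      rw [hf g, inv_smul_smul] at this
      exact this.symm
    set x₀ : Λ ⧸ K := ((1 : Λ) : Λ ⧸ K) with hx₀
    have h2 : f x₀ = 0 := by
      refine hπ _ fun γ => ?_
      have h3 : (x₀.out : Λ) ∈ K := by
        have h4 : ((x₀.out : Λ) : Λ ⧸ K) = ((1 : Λ) : Λ ⧸ K) := QuotientGroup.out_eq' x₀
        have := QuotientGroup.eq.1 h4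
        rw [mul_one] at this
        exact K.inv_mem_iff.1 this
      have h5 : (x₀.out * γ * x₀.out⁻¹ : Λ) • x₀ = x₀ := by
        have h6 : (x₀.out * γ * x₀.out⁻¹ : Λ) ∈ K :=
          K.mul_mem (K.mul_mem h3 γ.2) (K.inv_mem h3)
        have h7 : (((x₀.out * γ * x₀.out⁻¹ : Λ) * 1 : Λ) : Λ ⧸ K) = ((1 : Λ) : Λ ⧸ K) := by
          rw [QuotientGroup.eq, mul_one, mul_one]
          exact K.inv_mem h6
        exact h7
      have h8 : cc K (x₀.out * γ * x₀.out⁻¹ : Λ) x₀ = γ := by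
        apply Subtype.ext
        rw [cc_coe, h5]
        group
      have h9 := h1 (x₀.out * γ * x₀.out⁻¹ : Λ) x₀
      rwa [h8, h5] at h9
    ext x
    have h3 := h1 x.out x₀
    have h4 : (x.out : Λ) • x₀ = x := by
      have : (((x.out : Λ) * 1 : Λ) : Λ ⧸ K) = x := by
        rw [mul_one]
        exact QuotientGroup.out_eq' x
      exact this
    rw [h4, h2, map_zero] at h3
    exact h3.symm
  obtain ⟨q, hq, h1⟩ := hQ (PiLp 2 fun _ : Λ ⧸ K => V) (indRep K V π) h0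
    (WithLp.toLp 2 fun _ => v)
  have h2 : (∑ _x : Λ ⧸ K, (ε * ‖v‖) ^ 2) ≤
      ∑ x : Λ ⧸ K, ‖π (cc K q (q⁻¹ • x)) v - v‖ ^ 2 := by
    have h3 : (ε * ‖(WithLp.toLp 2 fun _ => v : PiLp 2 fun _ : Λ ⧸ K => V)‖) ^ 2 ≤
        ‖indRep K V π q (WithLp.toLp 2 fun _ => v : PiLp 2 fun _ : Λ ⧸ K => V) -
          (WithLp.toLp 2 fun _ => v : PiLp 2 fun _ : Λ ⧸ K => V)‖ ^ 2 :=
      pow_le_pow_left₀ (by positivity) h1 2
    rw [mul_pow, PiLp.norm_sq_eq_of_L2, PiLp.norm_sq_eq_of_L2, Finset.mul_sum] at h3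
    simp only [PiLp.sub_apply, indRep_apply] at h3
    simpa only [mul_pow] using h3
  obtain ⟨x, -, hx⟩ := Finset.exists_le_of_sum_le (Finset.univ_nonempty (α := Λ ⧸ K)) h2
  refine ⟨cc K q (q⁻¹ • x), Finset.mem_image.2 ⟨(q, x), by simp [hq], rfl⟩, ?_⟩
  exact (pow_le_pow_iff_left₀ (by positivity) (norm_nonneg _) two_ne_zero).1 hx

/-- The vectors fixed by a subgroup. -/
def fixedSub {Δ : Type} [Group Δ] (N : Subgroup Δ) {V : Type} [NormedAddCommGroup V]
    [InnerProductSpace ℂ V] (π : Δ →* (V ≃ₗᵢ[ℂ] V)) : Submodule ℂ V where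
  carrier := {v | ∀ n ∈ N, π n v = v}
  add_mem' := fun {a b} ha hb n hn => by rw [map_add, ha n hn, hb n hn]
  zero_mem' := fun n _ => map_zero _
  smul_mem' := fun c v hv n hn => by rw [map_smul, hv n hn]

theorem mem_fixedSub {Δ : Type} [Group Δ] (N : Subgroup Δ) {V : Type} [NormedAddCommGroup V]
    [InnerProductSpace ℂ V] (π : Δ →* (V ≃ₗᵢ[ℂ] V)) (v : V) :
    v ∈ fixedSub N π ↔ ∀ n ∈ N, π n v = v := Iff.rfl

/-- Normal finite index subgroups. -/
theorem Comm_normal (Δ : Type) [Group Δ] (N : Subgroup Δ) [N.Normal] (hN : N.FiniteIndex)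
    (h : PropTFD N) : PropTFD Δ := by
  classical
  have : Fintype (Δ ⧸ N) := Subgroup.fintypeQuotientOfFiniteIndex
  obtain ⟨Q, ε, hε, hQ⟩ := h
  set T : Finset Δ := (Finset.univ : Finset (Δ ⧸ N)).image fun x => x.out with hT
  refine ⟨Q.image (fun q : N => (q : Δ)) ∪ T, min ε 1 / 2, by positivity, ?_⟩
  intro V _ _ _ π hπ v
  set W : Submodule ℂ V := fixedSub N π with hW
  have hW1 : ∀ g, ∀ w ∈ W, π g w ∈ W := by
    intro g w hw n hn
    have h1 : π (g⁻¹ * n * g) w = w := hw _ (by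
      have := (inferInstance : N.Normal).conj_mem n hn g⁻¹
      rwa [inv_inv] at this)
    calc π n (π g w) = π (g * (g⁻¹ * n * g)) w := by
          rw [show g * (g⁻¹ * n * g) = n * g by group, map_mul]
          rfl
      _ = π g (π (g⁻¹ * n * g) w) := by
          rw [map_mul]
          rfl
      _ = π g w := by rw [h1]
  have hinv : ∀ g (w : V), π g (π g⁻¹ w) = w := by
    intro g w
    have : π (g * g⁻¹) w = w := by rw [mul_inv_cancel, map_one]; rfl
    rw [map_mul] at this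
    exact this
  have hW2 : ∀ g, ∀ w ∈ Wᗮ, π g w ∈ Wᗮ := by
    intro g w hw
    rw [Submodule.mem_orthogonal]
    intro u hu
    have h1 : (inner ℂ (π g⁻¹ u) w : ℂ) = 0 := (Submodule.mem_orthogonal _ _).1 hw _ (hW1 g⁻¹ u hu)
    rw [← (π g).inner_map_map, hinv g u] at h1
    exact h1
  obtain ⟨v₁, hv₁, v₂, hv₂, hv⟩ := W.exists_add_mem_mem_orthogonal v
  have hpy : ∀ a ∈ W, ∀ b ∈ Wᗮ, ‖a + b‖ ^ 2 = ‖a‖ ^ 2 + ‖b‖ ^ 2 := by
    intro a ha b hb
    have := norm_add_sq_eq_norm_sq_add_norm_sq_of_inner_eq_zero a b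
      ((Submodule.mem_orthogonal _ _).1 hb a ha)
    nlinarith [this]
  have hg : ∀ g, ‖π g v - v‖ ^ 2 = ‖π g v₁ - v₁‖ ^ 2 + ‖π g v₂ - v₂‖ ^ 2 := by
    intro g
    have h1 : π g v - v = (π g v₁ - v₁) + (π g v₂ - v₂) := by
      rw [hv, map_add]
      abel
    rw [h1]
    exact hpy _ (W.sub_mem (hW1 g _ hv₁) hv₁) _ (Wᗮ.sub_mem (hW2 g _ hv₂) hv₂)
  have hvv : ‖v‖ ^ 2 = ‖v₁‖ ^ 2 + ‖v₂‖ ^ 2 := by
    rw [hv]
    exact hpy _ hv₁ _ hv₂
  have hm1 : min ε 1 ≤ ε := min_le_left _ _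
  have hm2 : min ε 1 ≤ 1 := min_le_right _ _
  have hm3 : 0 < min ε 1 := lt_min hε one_pos
  suffices h : ∃ q ∈ Q.image (fun q : N => (q : Δ)) ∪ T, (min ε 1) ^ 2 / 2 * ‖v‖ ^ 2 ≤
      ‖π q v - v‖ ^ 2 by
    obtain ⟨q, hq, h1⟩ := h
    refine ⟨q, hq, ?_⟩
    refine (pow_le_pow_iff_left₀ (by positivity) (norm_nonneg _) two_ne_zero).1 (le_trans ?_ h1)
    have : 0 ≤ (min ε 1) ^ 2 * ‖v‖ ^ 2 := by positivity
    nlinarith [this]
  rcases le_total (‖v₂‖ ^ 2) (‖v₁‖ ^ 2) with hle | hle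
  · -- the part fixed by `N`
    have h1 : ∑ x : Δ ⧸ N, π x.out v₁ = 0 := by
      refine hπ _ fun g => ?_
      rw [map_sum]
      have h2 : ∀ x : Δ ⧸ N, π g (π x.out v₁) = π (g • x).out v₁ := by
        intro x
        have h3 : ((g • x).out : Δ)⁻¹ * (g * x.out) ∈ N := by
          have h4 : (((g • x).out : Δ) : Δ ⧸ N) = ((g * x.out : Δ) : Δ ⧸ N) := by
            rw [QuotientGroup.out_eq']
            conv_lhs => rw [← QuotientGroup.out_eq' x]
            rfl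
          exact QuotientGroup.eq.1 h4
        have h5 := hv₁ _ h3
        calc π g (π x.out v₁) = π ((g • x).out * (((g • x).out : Δ)⁻¹ * (g * x.out))) v₁ := by
              rw [mul_inv_cancel_left, map_mul]
              rfl
          _ = π (g • x).out (π (((g • x).out : Δ)⁻¹ * (g * x.out)) v₁) := by
              rw [map_mul]
              rfl
          _ = _ := by rw [h5]
      simp_rw [h2]
      exact Fintype.sum_equiv (MulAction.toPerm g) _ _ fun x => rfl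
    have h2 : (∑ _x : Δ ⧸ N, 2 * ‖v₁‖ ^ 2) ≤ ∑ x : Δ ⧸ N, ‖π x.out v₁ - v₁‖ ^ 2 := by
      have h3 : ∀ x : Δ ⧸ N, ‖π x.out v₁ - v₁‖ ^ 2 =
          2 * ‖v₁‖ ^ 2 - 2 * (inner ℂ v₁ (π x.out v₁) : ℂ).re := by
        intro x
        rw [@norm_sub_sq ℂ, (π x.out).norm_map, ← inner_conj_symm, ]
        simp only [Complex.conj_re, RCLike.re_to_complex]
        ring
      simp_rw [h3]
      rw [Finset.sum_sub_distrib, ← Finset.mul_sum (s := Finset.univ)
        (f := fun x : Δ ⧸ N => (inner ℂ v₁ (π x.out v₁) : ℂ).re), ← Complex.re_sum,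
        ← inner_sum, h1, inner_zero_right]
      simp
    obtain ⟨x, -, hx⟩ := Finset.exists_le_of_sum_le (Finset.univ_nonempty (α := Δ ⧸ N)) h2
    refine ⟨x.out, Finset.mem_union_right _ (Finset.mem_image.2 ⟨x, Finset.mem_univ _, rfl⟩), ?_⟩
    rw [hg, hvv]
    have h3 : 0 ≤ ‖π x.out v₂ - v₂‖ ^ 2 := by positivity
    have h4 : (min ε 1) ^ 2 ≤ 1 := by nlinarith
    have h5 : 0 ≤ ‖v₁‖ ^ 2 := by positivity
    nlinarith [mul_nonneg (sub_nonneg.2 h4) (add_nonneg h5 (sq_nonneg ‖v₂‖))]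
  · -- the part without vectors fixed by `N`
    let ρ : N →* (Wᗮ ≃ₗᵢ[ℂ] Wᗮ) :=
      { toFun := fun n =>
          { toLinearEquiv := LinearEquiv.ofLinearMap
              (((π n).toLinearEquiv : V →ₗ[ℂ] V).restrict fun w hw => hW2 n w hw)
              (((π (n : Δ)⁻¹).toLinearEquiv : V →ₗ[ℂ] V).restrict fun w hw => hW2 _ w hw)
              (LinearMap.ext fun w => Subtype.ext (hinv n w))
              (LinearMap.ext fun w => Subtype.ext (by
                have := hinv (n : Δ)⁻¹ w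
                rwa [inv_inv] at this))
            norm_map' := fun w => (π n).norm_map w }
        map_one' := by
          ext w
          show π ((1 : N) : Δ) (w : V) = w
          rw [Subgroup.coe_one, map_one]
          rfl
        map_mul' := fun a b => by
          ext w
          show π ((a * b : N) : Δ) (w : V) = π a (π b w)
          rw [Subgroup.coe_mul, map_mul]
          rfl }
    have hρ : ∀ (n : N) (w : Wᗮ), ((ρ n w : Wᗮ) : V) = π n w := fun n w => rfl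
    obtain ⟨q, hq, h1⟩ := hQ Wᗮ ρ (fun w hw => by
      have h2 : (w : V) ∈ W := fun n hn => by
        have := congrArg (fun u : Wᗮ => (u : V)) (hw ⟨n, hn⟩)
        exact this
      have h3 : (inner ℂ (w : V) (w : V) : ℂ) = 0 :=
        (Submodule.mem_orthogonal _ _).1 w.2 _ h2
      exact Subtype.ext (inner_self_eq_zero.1 h3)) ⟨v₂, hv₂⟩
    have h2 : ε * ‖v₂‖ ≤ ‖π q v₂ - v₂‖ := h1
    refine ⟨q, Finset.mem_union_left _ (Finset.mem_image.2 ⟨q, hq, rfl⟩), ?_⟩
    rw [hg, hvv]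
    have h3 : (ε * ‖v₂‖) ^ 2 ≤ ‖π q v₂ - v₂‖ ^ 2 := pow_le_pow_left₀ (by positivity) h2 2
    have h4 : 0 ≤ ‖π q v₁ - v₁‖ ^ 2 := by positivity
    have h5 : (min ε 1) ^ 2 ≤ ε ^ 2 := pow_le_pow_left₀ hm3.le hm1 2
    have h6 : 0 ≤ ‖v₂‖ ^ 2 := by positivity
    have h7 : (min ε 1) ^ 2 * ‖v₂‖ ^ 2 ≤ ε ^ 2 * ‖v₂‖ ^ 2 := mul_le_mul_of_nonneg_right h5 h6
    have h8 : (min ε 1) ^ 2 * ‖v₁‖ ^ 2 ≤ (min ε 1) ^ 2 * ‖v₂‖ ^ 2 :=
      mul_le_mul_of_nonneg_left hle (by positivity)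
    rw [mul_pow] at h3
    nlinarith

/-- Finite index overgroups. -/
theorem Comm_over (Δ : Type) [Group Δ] (H : Subgroup Δ) (hH : H.FiniteIndex)
    (h : PropTFD H) : PropTFD Δ := by
  have h1 : (H.normalCore.subgroupOf H).FiniteIndex := inferInstance
  have h2 : PropTFD (H.normalCore.subgroupOf H) := Comm_sub H _ h1 h
  have h3 : PropTFD H.normalCore :=
    Comm_quo _ _ (Subgroup.subgroupOfEquivOfLe H.normalCore_le).toMonoidHom
      (Subgroup.subgroupOfEquivOfLe H.normalCore_le).surjective h2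
  exact Comm_normal Δ H.normalCore inferInstance h3

/-- A group with a finite index subgroup which is a homomorphic image of a finite index subgroup of
`Λ` inherits property (T;FD) from `Λ`. -/
theorem Comm_all (Λ Δ : Type) [Group Λ] [Group Δ] (K : Subgroup Λ) (hK : K.FiniteIndex)
    (f : K →* Δ) (hf : f.range.FiniteIndex) (h : PropTFD Λ) : PropTFD Δ :=
  Comm_over Δ f.range hf
    (Comm_quo K f.range f.rangeRestrict f.rangeRestrict_surjective (Comm_sub Λ K hK h))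

end Pool.TFD
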