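import Pool.Agent.Work.MP_972ac7_gen.Interface

/-! Block TOP: the averaged operator (MP_972ac7_al, helper65). -/

set_option autoImplicit false

open MeasureTheory Matrix
open scoped ENNReal ComplexOrder

noncomputable section

namespace Pool.TFD

section

variable {H Ω : Type} [NormedAddCommGroup H] [InnerProductSpace ℂ H] [CompleteSpace H]
  [MeasurableSpace Ω] (μ : Measure Ω) [IsFiniteMeasure μ] (U : Ω → (H ≃ₗᵢ[ℂ] H))
  (hU : ∀ v w : H, Measurable fun s => (inner ℂ v (U s w) : ℂ))

omit [CompleteSpace H] in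
include hU in
theorem TOP_int (v w : H) : Integrable (fun s => (inner ℂ v (U s w) : ℂ)) μ := by
  refine Integrable.of_bound (hU v w).aestronglyMeasurable (‖v‖ * ‖w‖) ?_
  refine Filter.Eventually.of_forall (fun s => ?_)
  refine (norm_inner_le_norm v (U s w)).trans ?_
  rw [(U s).norm_map]

/-- the sesquilinear form -/
def TOP_B : H →L⋆[ℂ] H →L[ℂ] ℂ :=
  LinearMap.mkContinuous₂
    (LinearMap.mk₂'ₛₗ (starRingEnd ℂ) (RingHom.id ℂ) (fun v w : H => ∫ s, (inner ℂ v (U s w) : ℂ) ∂μ)
      (fun v v' w => by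
        rw [← integral_add (TOP_int μ U hU v w) (TOP_int μ U hU v' w)]
        simp only [inner_add_left])
      (fun c v w => by
        simp only [inner_smul_left]
        rw [integral_const_mul, smul_eq_mul])
      (fun v w w' => by
        rw [← integral_add (TOP_int μ U hU v w) (TOP_int μ U hU v w')]
        simp only [map_add, inner_add_right])
      (fun c v w => by
        simp only [map_smul, inner_smul_right]
        rw [integral_const_mul, RingHom.id_apply, smul_eq_mul]))
    (μ.real Set.univ) (fun v w => by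
      have h1 : ‖∫ s, (inner ℂ v (U s w) : ℂ) ∂μ‖ ≤ (‖v‖ * ‖w‖) * μ.real Set.univ := by
        refine norm_integral_le_of_norm_le_const (Filter.Eventually.of_forall (fun s => ?_))
        refine (norm_inner_le_norm v (U s w)).trans ?_
        rw [(U s).norm_map]
      calc _ ≤ (‖v‖ * ‖w‖) * μ.real Set.univ := h1
        _ = μ.real Set.univ * ‖v‖ * ‖w‖ := by ring)

theorem TOP_B_apply (v w : H) : TOP_B μ U hU v w = ∫ s, (inner ℂ v (U s w) : ℂ) ∂μ := rfl

/-- the operator `S` with `⟪S v, w⟫ = ∫ ⟪v, U s w⟫` -/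
def TOP_S : H →L[ℂ] H := InnerProductSpace.continuousLinearMapOfBilin (TOP_B μ U hU)

theorem TOP_S_apply (v w : H) :
    (inner ℂ (TOP_S μ U hU v) w : ℂ) = ∫ s, (inner ℂ v (U s w) : ℂ) ∂μ := by
  unfold TOP_S
  rw [InnerProductSpace.continuousLinearMapOfBilin_apply, TOP_B_apply]

theorem TOP_S_comm (R : H ≃ₗᵢ[ℂ] H) (hR : ∀ s v, R (U s v) = U s (R v)) (v : H) :
    R (TOP_S μ U hU v) = TOP_S μ U hU (R v) := by
  refine ext_inner_right ℂ (fun w => ?_)
  obtain ⟨w', rfl⟩ := R.surjective w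
  rw [R.inner_map_map, TOP_S_apply, TOP_S_apply]
  refine integral_congr_ae (Filter.Eventually.of_forall (fun s => ?_))
  show (inner ℂ v (U s w') : ℂ) = inner ℂ (R v) (U s (R w'))
  rw [← hR s w', R.inner_map_map]

theorem TOP_S_comm' (R : H ≃ₗᵢ[ℂ] H) (hR : ∀ s v, R (U s v) = U s (R v)) (v : H) :
    R (ContinuousLinearMap.adjoint (TOP_S μ U hU) v) = ContinuousLinearMap.adjoint (TOP_S μ U hU) (R v) := by
  refine ext_inner_right ℂ (fun w => ?_)
  obtain ⟨w', rfl⟩ := R.surjective w
  rw [R.inner_map_map, ContinuousLinearMap.adjoint_inner_left, ContinuousLinearMap.adjoint_inner_left,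
    ← TOP_S_comm μ U hU R hR, R.inner_map_map]

end

theorem p_TOP : Stmt_TOP := by
  intro H Ω _ _ _ _ μ _ U hU
  have hsa : IsSelfAdjoint (((1 / 2 : ℝ) : ℂ) • (TOP_S μ U hU + ContinuousLinearMap.adjoint (TOP_S μ U hU))) := by
    rw [IsSelfAdjoint, star_smul, star_add, ContinuousLinearMap.star_eq_adjoint,
      ContinuousLinearMap.star_eq_adjoint, ContinuousLinearMap.adjoint_adjoint, add_comm]
    congr 1
    rw [Complex.star_def, Complex.conj_ofReal]
  refine ⟨((1 / 2 : ℝ) : ℂ) • (TOP_S μ U hU + ContinuousLinearMap.adjoint (TOP_S μ U hU)), hsa, ?_, ?_⟩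
  · intro v
    have hre : (inner ℂ v ((((1 / 2 : ℝ) : ℂ) • (TOP_S μ U hU +
        ContinuousLinearMap.adjoint (TOP_S μ U hU))) v) : ℂ).re = ∫ s, (inner ℂ v (U s v) : ℂ).re ∂μ := by
      have e1 : (inner ℂ v (TOP_S μ U hU v) : ℂ).re = (inner ℂ (TOP_S μ U hU v) v : ℂ).re :=
        inner_re_symm (𝕜 := ℂ) v (TOP_S μ U hU v)
      have e2 : (inner ℂ v (ContinuousLinearMap.adjoint (TOP_S μ U hU) v) : ℂ) =
          inner ℂ (TOP_S μ U hU v) v := ContinuousLinearMap.adjoint_inner_right _ _ _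
      have e3 : (inner ℂ (TOP_S μ U hU v) v : ℂ).re = ∫ s, (inner ℂ v (U s v) : ℂ).re ∂μ := by
        rw [TOP_S_apply]
        exact (integral_re (𝕜 := ℂ) (TOP_int μ U hU v v)).symm
      rw [_root_.smul_apply, _root_.add_apply, inner_smul_right,
        inner_add_right, Complex.re_ofReal_mul, Complex.add_re, e1, e2, e3]
      ring
    have hnorm : ∀ s, ‖U s v - v‖ ^ 2 = 2 * ‖v‖ ^ 2 - 2 * (inner ℂ v (U s v) : ℂ).re := by
      intro s
      have h1 := norm_sub_sq (𝕜 := ℂ) (U s v) v
      rw [(U s).norm_map] at h1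
      have h2 : RCLike.re (inner ℂ (U s v) v : ℂ) = (inner ℂ v (U s v) : ℂ).re :=
        inner_re_symm (𝕜 := ℂ) (U s v) v
      rw [h1, h2]
      ring
    have hint : Integrable (fun s => (inner ℂ v (U s v) : ℂ).re) μ := (TOP_int μ U hU v v).re
    have hint2 : Integrable (fun s => ‖U s v - v‖ ^ 2) μ := by
      simp only [hnorm]
      exact (integrable_const _).sub (hint.const_mul 2)
    rw [← ofReal_integral_eq_lintegral_ofReal hint2 (Filter.Eventually.of_forall (fun s => sq_nonneg _))]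
    congr 1
    rw [hre]
    simp only [hnorm]
    have e4 : ∫ s, 2 * (inner ℂ v (U s v) : ℂ).re ∂μ = 2 * ∫ s, (inner ℂ v (U s v) : ℂ).re ∂μ :=
      integral_const_mul _ _
    rw [integral_sub (integrable_const _) (hint.const_mul 2), e4, integral_const, smul_eq_mul]
    ring
  · intro R hR v
    rw [_root_.smul_apply, _root_.add_apply, _root_.smul_apply,
      _root_.add_apply, map_smul, map_add, TOP_S_comm μ U hU R hR, TOP_S_comm' μ U hU R hR]

end Pool.TFD
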