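import Pool.Agent.Work.MP_972ac7_gen.Interface

set_option autoImplicit false

open MeasureTheory Matrix
open scoped ENNReal ComplexOrder

noncomputable section

namespace Pool.TFD

theorem TRANS_norm {X V : Type} [MeasurableSpace X] (m : Measure X) [NormedAddCommGroup V]
    (g : Lp V 2 m) : ENNReal.ofReal (‖g‖ ^ 2) = ∫⁻ x, ‖g x‖ₑ ^ 2 ∂m := by
  rw [ENNReal.ofReal_pow (norm_nonneg _), ofReal_norm, Lp.enorm_def,
    eLpNorm_eq_lintegral_rpow_enorm_toReal (by norm_num) (by norm_num)]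
  rw [← ENNReal.rpow_natCast, ← ENNReal.rpow_mul]
  norm_num

theorem TRANS_fin {α : Type} [Countable α] [MeasurableSpace α] [MeasurableSingletonClass α]
    (P : Measure α) [IsFiniteMeasure P] (η : ℝ≥0∞) (hη : 0 < η) :
    ∃ Q : Finset α, P ((Q : Set α)ᶜ) < η := by
  have h1 : ∑' x : α, P {x} ≠ ∞ := by
    have h := Measure.tsum_indicator_apply_singleton P Set.univ MeasurableSet.univ
    simp only [Set.indicator_univ] at h
    rw [h]
    exact measure_ne_top _ _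
  obtain ⟨Q, hQ⟩ := ((tendsto_order.1 (ENNReal.tendsto_tsum_compl_atTop_zero h1)).2 η hη).exists
  refine ⟨Q, ?_⟩
  have h2 : P ((Q : Set α)ᶜ) = ∑' x : {x // x ∉ Q}, P {x.1} := by
    rw [← Measure.tsum_indicator_apply_singleton P ((Q : Set α)ᶜ) Q.measurableSet.compl]
    rw [← tsum_subtype]
    rfl
  rw [h2]
  exact hQ

theorem TRANS_meas {G Ω : Type} [Group G] [TopologicalSpace G] [IsTopologicalGroup G]
    [SecondCountableTopology G] [MeasurableSpace G] [BorelSpace G] [MeasurableSpace Ω]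
    (Γ : Subgroup G) (σ : G ⧸ Γ → G) (hσ : ∀ x, (σ x : G ⧸ Γ) = x) (t : Ω → G)
    (ht : Measurable t) (hs : Measurable fun p : G × (G ⧸ Γ) => p.1 • p.2)
    (hc : Measurable fun p : G × (G ⧸ Γ) => coc Γ σ hσ p.1 p.2) :
    Measurable fun p : Ω × (G ⧸ Γ) => coc Γ σ hσ (t p.1) ((t p.1)⁻¹ • p.2) := by
  have h1 : Measurable fun p : Ω × (G ⧸ Γ) => ((t p.1)⁻¹, p.2) :=
    ((ht.comp measurable_fst).inv).prodMk measurable_snd
  have h2 : Measurable fun p : Ω × (G ⧸ Γ) => (t p.1, (t p.1)⁻¹ • p.2) :=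
    (ht.comp measurable_fst).prodMk (hs.comp h1)
  exact hc.comp h2

/-- The key computation: a finite measure on a countable group. -/
theorem TRANS_key {Λ V : Type} [Group Λ] [Countable Λ] [MeasurableSpace Λ]
    [MeasurableSingletonClass Λ] [NormedAddCommGroup V] [InnerProductSpace ℂ V]
    (π : Λ →* (V ≃ₗᵢ[ℂ] V)) (P : Measure Λ) (Q : Finset Λ) (ε η M κ : ℝ) (hε : 0 < ε)
    (hη : 0 ≤ η) (hM : 0 ≤ M)
    (hQ : P ((Q : Set Λ)ᶜ) ≤ ENNReal.ofReal η) (h1 : (1 : Λ) ∈ Q)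
    (hP : P Set.univ ≤ ENNReal.ofReal M) (hκ : ε ^ 2 * M + 4 * η < κ) (v : V)
    (hv : ENNReal.ofReal (κ * ‖v‖ ^ 2) ≤ ∫⁻ γ, ‖π γ v - v‖ₑ ^ 2 ∂P) :
    ∃ q ∈ Q, ε * ‖v‖ ≤ ‖π q v - v‖ := by
  classical
  by_contra hcon
  push Not at hcon
  have hv0 : 0 < ‖v‖ := by
    have h := hcon 1 h1
    have h' := norm_nonneg (π 1 v - v)
    have h'' : 0 < ε * ‖v‖ := lt_of_le_of_lt h' h
    exact (pos_iff_pos_of_mul_pos h'').1 hε
  have hA : ∀ γ ∈ (Q : Set Λ), ‖π γ v - v‖ₑ ^ 2 ≤ ENNReal.ofReal (ε ^ 2 * ‖v‖ ^ 2) := by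
    intro γ hγ
    have h := hcon γ (by exact_mod_cast hγ)
    rw [← ofReal_norm, ← ENNReal.ofReal_pow (norm_nonneg _)]
    apply ENNReal.ofReal_le_ofReal
    rw [← mul_pow]
    exact pow_le_pow_left₀ (norm_nonneg _) h.le 2
  have hB : ∀ γ ∈ ((Q : Set Λ)ᶜ), ‖π γ v - v‖ₑ ^ 2 ≤ ENNReal.ofReal (4 * ‖v‖ ^ 2) := by
    intro γ _
    rw [← ofReal_norm, ← ENNReal.ofReal_pow (norm_nonneg _)]
    apply ENNReal.ofReal_le_ofReal
    have h : ‖π γ v - v‖ ≤ 2 * ‖v‖ := by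
      calc ‖π γ v - v‖ ≤ ‖π γ v‖ + ‖v‖ := norm_sub_le _ _
        _ = 2 * ‖v‖ := by rw [LinearIsometryEquiv.norm_map]; ring
    calc ‖π γ v - v‖ ^ 2 ≤ (2 * ‖v‖) ^ 2 := pow_le_pow_left₀ (norm_nonneg _) h 2
      _ = 4 * ‖v‖ ^ 2 := by ring
  have hI : ∫⁻ γ, ‖π γ v - v‖ₑ ^ 2 ∂P ≤
      ENNReal.ofReal (ε ^ 2 * ‖v‖ ^ 2) * ENNReal.ofReal M +
        ENNReal.ofReal (4 * ‖v‖ ^ 2) * ENNReal.ofReal η := by
    rw [← lintegral_add_compl _ Q.measurableSet]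
    apply add_le_add
    · calc ∫⁻ γ in (Q : Set Λ), ‖π γ v - v‖ₑ ^ 2 ∂P
          ≤ ∫⁻ γ in (Q : Set Λ), ENNReal.ofReal (ε ^ 2 * ‖v‖ ^ 2) ∂P :=
            setLIntegral_mono (measurable_const) hA
        _ = ENNReal.ofReal (ε ^ 2 * ‖v‖ ^ 2) * P (Q : Set Λ) := by
            rw [setLIntegral_const]
        _ ≤ _ := by
            gcongr
            exact le_trans (measure_mono (Set.subset_univ _)) hP
    · calc ∫⁻ γ in ((Q : Set Λ)ᶜ), ‖π γ v - v‖ₑ ^ 2 ∂P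
          ≤ ∫⁻ γ in ((Q : Set Λ)ᶜ), ENNReal.ofReal (4 * ‖v‖ ^ 2) ∂P :=
            setLIntegral_mono (measurable_const) hB
        _ = ENNReal.ofReal (4 * ‖v‖ ^ 2) * P ((Q : Set Λ)ᶜ) := by
            rw [setLIntegral_const]
        _ ≤ _ := by gcongr
  have hJ := le_trans hv hI
  rw [← ENNReal.ofReal_mul (by positivity), ← ENNReal.ofReal_mul (by positivity),
    ← ENNReal.ofReal_add (by positivity) (by positivity),
    ENNReal.ofReal_le_ofReal_iff (by positivity)] at hJ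
  have hv2 : 0 < ‖v‖ ^ 2 := by positivity
  have hK : (ε ^ 2 * M + 4 * η) * ‖v‖ ^ 2 < κ * ‖v‖ ^ 2 := mul_lt_mul_of_pos_right hκ hv2
  linarith

theorem p_TRANS (h1 : Stmt_COC) (h2 : Stmt_REP) : Stmt_TRANS := by
  intro G _ _ _ _ _ _ _ Γ _ m _ σ hσ hσm hm Ω _ μ _ t κ ht hκ hgap
  obtain ⟨-, hs, hc⟩ := h1 G Γ σ hσ hσm
  set c : Ω × (G ⧸ Γ) → Γ := fun p => coc Γ σ hσ (t p.1) ((t p.1)⁻¹ • p.2) with hcdef
  have hcm : Measurable c := TRANS_meas Γ σ hσ t ht hs hc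
  set P : Measure Γ := (μ.prod m).map c with hP
  have : IsFiniteMeasure P := by rw [hP]; infer_instance
  obtain ⟨Q0, hQ0⟩ := TRANS_fin P (ENNReal.ofReal (κ / 16)) (by positivity)
  set M : ℝ := (P Set.univ).toReal with hM
  have hM0 : 0 ≤ M := ENNReal.toReal_nonneg
  set ε : ℝ := Real.sqrt (κ / (4 * (M + 1))) with hε
  have hεp : 0 < ε := by rw [hε]; positivity
  have hε2 : ε ^ 2 = κ / (4 * (M + 1)) := by rw [hε, Real.sq_sqrt (by positivity)]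
  classical
  refine ⟨insert 1 Q0, ε, hεp, ?_⟩
  intro V _ _ _ π hinv v
  obtain ⟨U, hU⟩ := h2 G Γ m σ hσ hσm hm V π
  refine TRANS_key π P (insert 1 Q0) ε (κ / 16) M κ hεp (by positivity) hM0 ?_
    (Finset.mem_insert_self _ _) ?_ ?_ v ?_
  · refine le_trans (measure_mono ?_) hQ0.le
    intro x hx hx'
    apply hx
    simp only [Finset.coe_insert, Set.mem_insert_iff]
    exact Or.inr hx'
  · rw [hM, ENNReal.ofReal_toReal (measure_ne_top _ _)]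
  · rw [hε2]
    have h3 : κ / (4 * (M + 1)) * M ≤ κ / 4 := by
      rw [div_mul_eq_mul_div, div_le_div_iff₀ (by positivity) (by norm_num)]
      nlinarith
    linarith
  · set f : Lp V 2 m := Lp.const 2 m v with hf
    have hfn : ‖f‖ = ‖v‖ := by
      rw [hf, Lp.norm_const']
      · simp
      · norm_num
      · norm_num
    have h4 := hgap V π U hU hinv f
    rw [hfn] at h4
    refine le_trans h4 (le_of_eq ?_)
    have hmeas : Measurable fun γ : Γ => ‖π γ v - v‖ₑ ^ 2 := measurable_of_countable _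
    have h9 : ∫⁻ a : Ω × (G ⧸ Γ), ‖π (c a) v - v‖ₑ ^ 2 ∂(μ.prod m) =
        ∫⁻ s, ∫⁻ x, ‖π (c (s, x)) v - v‖ₑ ^ 2 ∂m ∂μ :=
      lintegral_prod _ (hmeas.comp hcm).aemeasurable
    rw [hP, lintegral_map hmeas hcm, h9]
    apply lintegral_congr
    intro s
    rw [TRANS_norm]
    apply lintegral_congr_ae
    have h5 := hU (t s) f
    have h6 := Lp.coeFn_sub (U (t s) f) f
    have h7 : ⇑f =ᵐ[m] fun _ => v := Lp.coeFn_const 2 m v
    have h8 : (fun x => f ((t s)⁻¹ • x)) =ᵐ[m] fun _ => v :=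
      (hm (t s)⁻¹).quasiMeasurePreserving.ae_eq_comp h7
    filter_upwards [h5, h6, h7, h8] with x h5 h6 h7 h8
    rw [h6]
    simp only [Pi.sub_apply]
    rw [h5, h7, h8]

end Pool.TFD
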