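import Pool.Agent.Work.MP_972ac7_gen.Interface

/-!
# MP_972ac7_al (general theorem): block AY (helper62)
-/

set_option autoImplicit false

open MeasureTheory Matrix
open scoped ENNReal ComplexOrder

noncomputable section

namespace Pool.TFD

theorem AY_hs {a b c d : Type} [Fintype a] [Fintype b] [Fintype c] [Fintype d]
    (A : Matrix a c ℂ) (B : Matrix a d ℂ) (C : Matrix b c ℂ) (D : Matrix b d ℂ) :
    hs (fromBlocks A B C D) = hs A + hs B + (hs C + hs D) := by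
  simp only [hs, Fintype.sum_sum_type, fromBlocks_apply₁₁, fromBlocks_apply₁₂, fromBlocks_apply₂₁,
    fromBlocks_apply₂₂, Finset.sum_add_distrib]
  ring

theorem AY_sub {a b c d : Type} (A A' : Matrix a c ℂ) (B B' : Matrix a d ℂ) (C C' : Matrix b c ℂ)
    (D D' : Matrix b d ℂ) :
    fromBlocks A B C D - fromBlocks A' B' C' D' =
      fromBlocks (A - A') (B - B') (C - C') (D - D') := by
  ext i j
  rcases i with i | i <;> rcases j with j | j <;> simp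

theorem AY_hs_nonneg {a b : Type} [Fintype a] [Fintype b] (A : Matrix a b ℂ) : 0 ≤ hs A :=
  Finset.sum_nonneg fun _ _ => Finset.sum_nonneg fun _ _ => by positivity

theorem AY_hs_zero {a b : Type} [Fintype a] [Fintype b] : hs (0 : Matrix a b ℂ) = 0 := by
  simp [hs]

theorem AY_hs_star {a b : Type} [Fintype a] [Fintype b] (A : Matrix a b ℂ) : hs Aᴴ = hs A := by
  unfold hs
  rw [Finset.sum_comm]
  simp only [conjTranspose_apply, norm_star]

theorem AY_psd {a b : Type} [Fintype a] [Fintype b] (A : Matrix a a ℂ) (B : Matrix b b ℂ)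
    (hA : A.PosSemidef) (hB : B.PosSemidef) :
    (fromBlocks A 0 0 B : Matrix (a ⊕ b) (a ⊕ b) ℂ).PosSemidef := by
  refine PosSemidef.of_dotProduct_mulVec_nonneg (IsHermitian.fromBlocks hA.1 (by simp) hB.1) ?_
  intro x
  have h1 := hA.dotProduct_mulVec_nonneg (x ∘ Sum.inl)
  have h2 := hB.dotProduct_mulVec_nonneg (x ∘ Sum.inr)
  have h3 : star x ⬝ᵥ ((fromBlocks A 0 0 B : Matrix (a ⊕ b) (a ⊕ b) ℂ) *ᵥ x) =
      star (x ∘ Sum.inl) ⬝ᵥ (A *ᵥ (x ∘ Sum.inl)) + star (x ∘ Sum.inr) ⬝ᵥ (B *ᵥ (x ∘ Sum.inr)) := by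
    rw [fromBlocks_mulVec]
    simp [dotProduct, Fintype.sum_sum_type]
  rw [h3]
  exact add_nonneg h1 h2

theorem p_AY (hSQ : Stmt_SQ) (hTRA : Stmt_TRA) : Stmt_AY := by
  intro L k A B
  have key : ∀ A : Matrix (Fin L) (Fin k) ℂ, ∃ P2 : Matrix (Fin k) (Fin k) ℂ,
      (fromBlocks (msq (A * Aᴴ)) 0 0 P2 : Matrix (Fin L ⊕ Fin k) (Fin L ⊕ Fin k) ℂ).PosSemidef ∧
      (fromBlocks (msq (A * Aᴴ)) 0 0 P2 : Matrix (Fin L ⊕ Fin k) (Fin L ⊕ Fin k) ℂ) *
        fromBlocks (msq (A * Aᴴ)) 0 0 P2 = fromBlocks 0 A Aᴴ 0 * fromBlocks 0 A Aᴴ 0 := by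
    intro A
    obtain ⟨h1, h2⟩ := hSQ (Fin L) k A
    obtain ⟨h3, h4⟩ := hSQ (Fin k) L Aᴴ
    rw [conjTranspose_conjTranspose] at h3 h4
    refine ⟨msq (Aᴴ * A), AY_psd _ _ h1 h3, ?_⟩
    rw [fromBlocks_multiply, fromBlocks_multiply]
    simp only [Matrix.mul_zero, Matrix.zero_mul, add_zero, zero_add, h2, h4]
  have hherm : ∀ A : Matrix (Fin L) (Fin k) ℂ,
      (fromBlocks 0 A Aᴴ 0 : Matrix (Fin L ⊕ Fin k) (Fin L ⊕ Fin k) ℂ).IsHermitian := by
    intro A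
    exact IsHermitian.fromBlocks isHermitian_zero rfl isHermitian_zero
  obtain ⟨P2, hP, hPX⟩ := key A
  obtain ⟨Q2, hQ, hQY⟩ := key B
  have h1 := hTRA (Fin L ⊕ Fin k) _ _ _ _ (hherm A) (hherm B) hP hQ hPX hQY
  rw [AY_sub, AY_sub, AY_hs, AY_hs] at h1
  simp only [sub_zero, AY_hs_zero, add_zero, zero_add] at h1
  have h2 : hs (Aᴴ - Bᴴ) = hs (A - B) := by rw [← conjTranspose_sub, AY_hs_star]
  rw [h2] at h1
  have h3 := AY_hs_nonneg (P2 - Q2)
  linarith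

end Pool.TFD
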