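import Pool.Agent.Work.MP_972ac7_gen.Interface

/-! # Block CK: a gap for a compact set gives a gap for a measure (helper58) -/

set_option autoImplicit false

open MeasureTheory Matrix
open scoped ENNReal ComplexOrder Pointwise

noncomputable section

namespace Pool.TFD

theorem CK_norm {H : Type} [NormedAddCommGroup H] [InnerProductSpace ℂ H]
    (T : H ≃ₗᵢ[ℂ] H) (v : H) :
    ‖T v - v‖ ^ 2 = 2 * ‖v‖ ^ 2 - 2 * (inner ℂ v (T v)).re := by
  have h := norm_sub_sq (𝕜 := ℂ) (T v) v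
  rw [h, T.norm_map]
  have h3 : RCLike.re (inner ℂ (T v) v) = (inner ℂ v (T v)).re := by
    rw [inner_re_symm]; rfl
  rw [h3]
  ring

theorem p_CK : Stmt_CK := by
  intro G _ _ _ _ _ _ _ _ K δ hK hδ
  obtain ⟨O, hO, hO1⟩ := exists_compact_mem_nhds (1 : G)
  let ν : Measure G := Measure.haar
  have hνO : ν O ≠ 0 := by
    have h1 : 0 < ν (interior O) :=
      isOpen_interior.measure_pos ν ⟨1, mem_interior_iff_mem_nhds.2 hO1⟩
    exact (h1.trans_le (measure_mono interior_subset)).ne'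
  have hνO' : ν O ≠ ∞ := hO.measure_lt_top.ne
  have hS : IsCompact (O ∪ K * O) := hO.union (hK.mul hO)
  refine ⟨ν.restrict (O ∪ K * O), ⟨by
    rw [Measure.restrict_apply_univ]; exact hS.measure_lt_top⟩, (ν O).toReal * δ ^ 2 / 8, ?_, ?_⟩
  · have : 0 < (ν O).toReal := ENNReal.toReal_pos hνO hνO'
    positivity
  intro H _ _ _ W hW v ⟨k, hkK, hk⟩
  by_contra hcon
  rw [not_le] at hcon
  set μ := ν.restrict (O ∪ K * O) with hμ
  set I := ∫⁻ s, ENNReal.ofReal (‖W s v - v‖ ^ 2) ∂μ with hI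
  have hc : 0 < (ν O).toReal := ENNReal.toReal_pos hνO hνO'
  have hv : 0 < ‖v‖ := by
    rcases (norm_nonneg v).lt_or_eq with h | h
    · exact h
    · exfalso
      rw [← h] at hcon
      simp at hcon
  have hmeas : Measurable fun s => ENNReal.ofReal (‖W s v - v‖ ^ 2) := by
    have : (fun s => ENNReal.ofReal (‖W s v - v‖ ^ 2)) =
        fun s => ENNReal.ofReal (2 * ‖v‖ ^ 2 - 2 * (inner ℂ v (W s v)).re) := by
      funext s
      rw [CK_norm]
    rw [this]
    have h1 : Measurable fun s => (inner ℂ v (W s v)).re := Complex.measurable_re.comp (hW v v)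
    exact (measurable_const.sub (h1.const_mul 2)).ennreal_ofReal
  set a : ℝ≥0∞ := ENNReal.ofReal ((δ * ‖v‖ / 2) ^ 2) with ha
  let B : Set G := {s | a ≤ ENNReal.ofReal (‖W s v - v‖ ^ 2)}
  have hBm : MeasurableSet B := measurableSet_le measurable_const hmeas
  have hmk : a * μ B ≤ I := mul_meas_ge_le_lintegral hmeas a
  have hgood : ∀ s, s ∉ B → ‖W s v - v‖ < δ * ‖v‖ / 2 := by
    intro s hs
    have h1 : ¬ a ≤ ENNReal.ofReal (‖W s v - v‖ ^ 2) := hs
    rw [not_le] at h1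
    have h2 : ‖W s v - v‖ ^ 2 < (δ * ‖v‖ / 2) ^ 2 := by
      have := (ENNReal.ofReal_lt_ofReal_iff (by positivity)).1 h1
      exact this
    exact lt_of_pow_lt_pow_left₀ 2 (by positivity) h2
  -- the good set
  have hsub : O ⊆ (B ∩ (O ∪ K * O)) ∪ (fun s => k * s) ⁻¹' (B ∩ (O ∪ K * O)) := by
    intro s hs
    by_cases h1 : s ∈ B
    · exact Or.inl ⟨h1, Or.inl hs⟩
    · right
      have hks : k * s ∈ O ∪ K * O := Or.inr (Set.mul_mem_mul hkK hs)
      refine ⟨?_, hks⟩
      by_contra h2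
      have e1 := hgood s h1
      have e2 := hgood (k * s) h2
      have e3 : ‖W k v - v‖ ≤ ‖W s v - v‖ + ‖W (k * s) v - v‖ := by
        have h3 : W k v - v = (W (k * s) v - v) - (W k (W s v - v)) := by
          rw [map_mul, map_sub]
          change _ = (W k (W s v)) - v - (W k (W s v) - W k v)
          abel
        calc ‖W k v - v‖ = ‖(W (k * s) v - v) - (W k (W s v - v))‖ := by rw [← h3]
          _ ≤ ‖W (k * s) v - v‖ + ‖W k (W s v - v)‖ := norm_sub_le _ _
          _ = ‖W s v - v‖ + ‖W (k * s) v - v‖ := by rw [LinearIsometryEquiv.norm_map]; ring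
      linarith
  have hBμ : ν (B ∩ (O ∪ K * O)) = μ B := by
    rw [hμ, Measure.restrict_apply hBm]
  have hle : ν O ≤ 2 * μ B := by
    calc ν O ≤ ν ((B ∩ (O ∪ K * O)) ∪ (fun s => k * s) ⁻¹' (B ∩ (O ∪ K * O))) := measure_mono hsub
      _ ≤ ν (B ∩ (O ∪ K * O)) + ν ((fun s => k * s) ⁻¹' (B ∩ (O ∪ K * O))) := measure_union_le _ _
      _ = 2 * μ B := by rw [measure_preimage_mul, hBμ, two_mul]
  have hfin : a * ν O ≤ 2 * I := by
    calc a * ν O ≤ a * (2 * μ B) := by gcongr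
      _ = 2 * (a * μ B) := by ring
      _ ≤ 2 * I := by gcongr
  have hlt : 2 * I < 2 * ENNReal.ofReal ((ν O).toReal * δ ^ 2 / 8 * ‖v‖ ^ 2) :=
    ENNReal.mul_lt_mul_right (by norm_num) (by norm_num) hcon
  have heq : 2 * ENNReal.ofReal ((ν O).toReal * δ ^ 2 / 8 * ‖v‖ ^ 2) = a * ν O := by
    rw [ha]
    conv_rhs => rw [← ENNReal.ofReal_toReal hνO']
    rw [← ENNReal.ofReal_mul (by positivity)]
    have h2 : (2 : ℝ≥0∞) = ENNReal.ofReal 2 := by norm_num
    rw [h2, ← ENNReal.ofReal_mul (by norm_num)]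
    congr 1
    ring
  rw [heq] at hlt
  exact absurd hfin (not_le.2 hlt)

end Pool.TFD
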