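import Pool.Agent.Work.MP_972ac7_gen.Interface

set_option autoImplicit false

open MeasureTheory Matrix
open scoped ENNReal ComplexOrder

noncomputable section

namespace Pool.TFD

theorem p_COC : Stmt_COC := by
  intro G _ _ _ _ _ _ Γ σ hσ hm
  have h1 : ∀ (g : G) (x : G ⧸ Γ), g • x = ((g * σ x : G) : G ⧸ Γ) := by
    intro g x
    conv_lhs => rw [← hσ x]
    rfl
  have h2 : Measurable fun p : G × (G ⧸ Γ) => p.1 * σ p.2 :=
    measurable_fst.mul (hm.comp measurable_snd)
  have h3 : Measurable fun p : G × (G ⧸ Γ) => p.1 • p.2 := by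
    have : (fun p : G × (G ⧸ Γ) => p.1 • p.2) = fun p => ((p.1 * σ p.2 : G) : G ⧸ Γ) := by
      funext p
      exact h1 p.1 p.2
    rw [this]
    exact QuotientGroup.measurable_coe.comp h2
  refine ⟨fun g h x => ?_, h3, ?_⟩
  · apply Subtype.ext
    simp only [coc, Subgroup.coe_mul]
    rw [← mul_smul]
    group
  · refine Measurable.subtype_mk ?_
    exact (hm.comp h3).inv.mul h2

end Pool.TFD
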