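import Pool.Agent.Work.MP_972ac7_gen.Interface

/-! # Block ERG (helper38) -/

set_option autoImplicit false

open MeasureTheory Matrix
open scoped ENNReal ComplexOrder

noncomputable section

namespace Pool.TFD

theorem p_ERG (hE : Stmt_ERGS) : Stmt_ERG := by
  intro GA GB _ _ _ _ _ _ _ _ _ _ _ _ _ _ _ _ Γ _ m _ hm hmeas hd φ hφ hinv
  have h1 : ∃ c, φ =ᵐ[m] Function.const _ c := by
    refine Filter.exists_eventuallyEq_const_of_forall_separating (l := ae m) (f := φ)
      (fun U : Set ℂ => MeasurableSet U) ?_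
    intro U hU
    have h2 := hE GA GB Γ m hm hmeas hd (φ ⁻¹' U) (hφ hU) (by
      intro a
      filter_upwards [hinv a] with x hx
      show φ (((a, 1) : GA × GB) • x) ∈ U ↔ φ x ∈ U
      rw [hx])
    rcases h2 with h3 | h3
    · right
      exact measure_eq_zero_iff_ae_notMem.mp h3
    · left
      have h4 := measure_eq_zero_iff_ae_notMem.mp h3
      filter_upwards [h4] with x hx
      by_contra hc
      exact hx hc
  obtain ⟨c, hc⟩ := h1
  exact ⟨c, hc⟩

end Pool.TFD
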