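import Pool.Agent.Work.MP_972ac7_gen.Interface

/-! # Block ERGS: ergodicity of the first factor (helper38) -/

set_option autoImplicit false

open MeasureTheory Matrix
open scoped ENNReal ComplexOrder

noncomputable section

namespace Pool.TFD

theorem p_ERGS (hN : Stmt_NULL) (hS : Stmt_STN) (hL : Stmt_SLICE) : Stmt_ERGS := by
  intro GA GB _ _ _ _ _ _ _ _ _ _ _ _ _ _ _ _ Γ _ m _ hm hmeas hd s hs hinv
  let νA : Measure GA := Measure.haar
  let νB : Measure GB := Measure.haar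
  let ν : Measure (GA × GB) := νA.prod νB
  have hνA : νA.IsHaarMeasure := inferInstanceAs (Measure.haar : Measure GA).IsHaarMeasure
  have hνB : νB.IsHaarMeasure := inferInstanceAs (Measure.haar : Measure GB).IsHaarMeasure
  have hν : ν.IsHaarMeasure := Measure.prod.instIsHaarMeasure νA νB
  have hnull := hN (GA × GB) Γ m ν hm hmeas
  let mk : GA × GB → (GA × GB) ⧸ Γ := fun g => (g : (GA × GB) ⧸ Γ)
  have hmk : Measurable mk := QuotientGroup.measurable_coe
  let t : Set (GA × GB) := mk ⁻¹' s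
  have ht : MeasurableSet t := hmk hs
  -- the slices
  have hsl : ∀ a : GA, ∀ᵐ p ∂(νA.prod νB), ((a * p.1, p.2) ∈ t ↔ p ∈ t) := by
    intro a
    have h1 : MeasurableSet {x | ¬ (((a, 1) : GA × GB) • x ∈ s ↔ x ∈ s)} := by
      have h2 : Measurable fun x : (GA × GB) ⧸ Γ => ((a, 1) : GA × GB) • x :=
        hmeas.comp (measurable_const.prodMk measurable_id)
      have h3 : MeasurableSet ((fun x : (GA × GB) ⧸ Γ => ((a, 1) : GA × GB) • x) ⁻¹' s) := h2 hs
      exact ((h3.iff hs)).compl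
    have h4 : m {x | ¬ (((a, 1) : GA × GB) • x ∈ s ↔ x ∈ s)} = 0 := ae_iff.mp (hinv a)
    have h5 := (hnull _ h1).mp h4
    rw [ae_iff]
    refine le_antisymm (le_trans (measure_mono ?_) (le_of_eq h5)) bot_le
    intro p hp hc
    apply hp
    have e1 : (a * p.1, p.2) = ((a, 1) : GA × GB) * p := by
      exact Prod.ext rfl (one_mul _).symm
    show mk (a * p.1, p.2) ∈ s ↔ mk p ∈ s
    rw [e1]
    exact hc
  obtain ⟨r, hr, hrt⟩ := hL GA GB νA νB t ht hsl
  -- right invariance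
  have hright : ∀ γ : Γ, ∀ᵐ b ∂νB, (b * (γ : GA × GB).2 ∈ r ↔ b ∈ r) := by
    intro γ
    have h1 : ∀ᵐ p ∂ν, (p * (γ : GA × GB) ∈ t ↔ (p * (γ : GA × GB)).2 ∈ r) :=
      (quasiMeasurePreserving_mul_right ν (γ : GA × GB)).ae hrt
    have h2 : ∀ᵐ p ∂(νA.prod νB), (p.2 * (γ : GA × GB).2 ∈ r ↔ p.2 ∈ r) := by
      filter_upwards [hrt, h1] with p hp1 hp2
      have h3 : p * (γ : GA × GB) ∈ t ↔ p ∈ t := by
        have h4 : mk (p * (γ : GA × GB)) = mk p := by
          apply Eq.symm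
          apply QuotientGroup.eq.2
          rw [inv_mul_cancel_left]
          exact γ.2
        show mk (p * (γ : GA × GB)) ∈ s ↔ mk p ∈ s
        rw [h4]
      rw [← hp1, ← h3, hp2]
      rfl
    have h5 := Measure.ae_ae_of_ae_prod h2
    obtain ⟨a, ha⟩ := h5.exists
    exact ha
  let E : Set GB := {b | ∀ γ : Γ, b * (γ : GA × GB).2 ∈ r}
  let F : Set GB := {b | ∀ γ : Γ, b * (γ : GA × GB).2 ∉ r}
  have hE : MeasurableSet E := by
    have : E = ⋂ γ : Γ, (fun b => b * (γ : GA × GB).2) ⁻¹' r := by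
      ext b
      simp [E]
    rw [this]
    exact MeasurableSet.iInter fun γ => (measurable_mul_const _) hr
  have hF : MeasurableSet F := by
    have : F = ⋂ γ : Γ, (fun b => b * (γ : GA × GB).2) ⁻¹' rᶜ := by
      ext b
      simp [F]
    rw [this]
    exact MeasurableSet.iInter fun γ => (measurable_mul_const _) hr.compl
  have hEF : ∀ᵐ b ∂νB, b ∈ E ∨ b ∈ F := by
    filter_upwards [ae_all_iff.mpr hright] with b hb
    by_cases h1 : b ∈ r
    · left
      intro γ
      exact (hb γ).mpr h1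
    · right
      intro γ h2
      exact h1 ((hb γ).mp h2)
  have hE1 : ∀ b ∈ E, b ∈ r := by
    intro b hb
    have := hb 1
    simpa using this
  have hF1 : ∀ b ∈ F, b ∉ r := by
    intro b hb
    have := hb 1
    simpa using this
  have key : νB E = 0 ∨ νB F = 0 := by
    by_contra hc
    push Not at hc
    obtain ⟨O, hO1, hO2, hO3⟩ := hS GB νB E F hE hF hc.1 hc.2
    obtain ⟨x, hx1, γ, hγ⟩ := hd.inter_open_nonempty O hO1 hO2
    obtain ⟨e, he, f, hf, hef⟩ := hO3 x hx1
    have h1 : f = e * (γ : GA × GB).2 := by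
      have h2 : (γ : GA × GB).2 = x := hγ
      rw [h2, ← hef, mul_inv_cancel_left]
    apply hF1 f hf
    rw [h1]
    exact he γ
  rcases key with h0 | h0
  · left
    rw [hnull s hs]
    have h1 : ∀ᵐ b ∂νB, b ∉ r := by
      have h2 : ∀ᵐ b ∂νB, b ∉ E := measure_eq_zero_iff_ae_notMem.mp h0
      filter_upwards [hEF, h2] with b hb1 hb2
      rcases hb1 with h3 | h3
      · exact absurd h3 hb2
      · exact hF1 b h3
    have h4 : ∀ᵐ p ∂(νA.prod νB), p.2 ∉ r :=
      (Measure.quasiMeasurePreserving_snd (μ := νA) (ν := νB)).ae h1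
    have h5 : ∀ᵐ p ∂(νA.prod νB), p ∉ t := by
      filter_upwards [h4, hrt] with p hp1 hp2
      rw [hp2]
      exact hp1
    exact measure_eq_zero_iff_ae_notMem.mpr h5
  · right
    rw [hnull sᶜ hs.compl]
    have h1 : ∀ᵐ b ∂νB, b ∈ r := by
      have h2 : ∀ᵐ b ∂νB, b ∉ F := measure_eq_zero_iff_ae_notMem.mp h0
      filter_upwards [hEF, h2] with b hb1 hb2
      rcases hb1 with h3 | h3
      · exact hE1 b h3
      · exact absurd h3 hb2
    have h4 : ∀ᵐ p ∂(νA.prod νB), p.2 ∈ r :=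
      (Measure.quasiMeasurePreserving_snd (μ := νA) (ν := νB)).ae h1
    have h5 : ∀ᵐ p ∂(νA.prod νB), p ∉ tᶜ := by
      filter_upwards [h4, hrt] with p hp1 hp2
      intro h6
      exact h6 (hp2.mpr hp1)
    exact measure_eq_zero_iff_ae_notMem.mpr h5

end Pool.TFD
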