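import Pool.Agent.Work.MP_972ac7_gen.Interface

/-! # Block EXE: the exceptional subspace is finite dimensional -/

set_option autoImplicit false

open MeasureTheory Matrix
open scoped ENNReal ComplexOrder

noncomputable section

namespace Pool.TFD

theorem p_EXE (h1 : Stmt_SPEC) (h2 : Stmt_TOP) (h3 : Stmt_MC) (h4 : Stmt_LAH) : Stmt_EXE := by
  intro G _ _ _ _ _ _ _ Γ _ m _ σ hσ hσm hinv V _ _ _ π U hU Ω _ μ _ t κ e ht hκ he heκ hgap
  have hmc := h3 G Γ m σ hσ hσm hinv V π U hU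
  have hmeas : ∀ v w : Lp V 2 m, Measurable fun s => (inner ℂ v ((fun s => U (t s)) s w) : ℂ) :=
    fun v w => (hmc v w).comp ht
  obtain ⟨T, hT, hT1, hT2⟩ := h2 (Lp V 2 m) Ω μ (fun s => U (t s)) hmeas
  have hpos : 0 < 1 - 2 * e / κ := by
    rw [sub_pos, div_lt_one hκ]
    exact heκ
  have hpos2 : 0 < (1 - 2 * e / κ) ^ 2 := by positivity
  obtain ⟨E, hE1, hE2, hE3⟩ := h1 (Lp V 2 m) T (μ.real Set.univ - e / 2)
    ⌊(Module.finrank ℂ V : ℝ) / (1 - 2 * e / κ) ^ 2⌋₊ hT (by
      intro L f hf hfc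
      have h5 : ∀ i, ∫⁻ s, ENNReal.ofReal (‖U (t s) (f i) - f i‖ ^ 2) ∂μ ≤ ENNReal.ofReal e := by
        intro i
        have h6 := hT1 (f i)
        rw [h6]
        apply ENNReal.ofReal_le_ofReal
        have h7 := hfc i
        rw [hf.1 i]
        linarith
      have h8 := h4 G Γ m σ hσ hσm hinv V π U hU Ω μ t κ e ht hκ he.le heκ.le hgap L f hf h5
      apply Nat.le_floor
      rw [le_div_iff₀ hpos2]
      exact h8)
  refine ⟨E, hE1, ?_, ?_⟩
  · intro g hg v hv
    have h9 : ∀ s (v : Lp V 2 m), U g (U (t s) v) = U (t s) (U g v) := by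
      intro s v
      have := congrArg (fun k => U k v) (hg s)
      simp only [map_mul] at this
      exact this
    have h10 := hT2 (U g) h9
    exact hE2 ((U g).toContinuousLinearEquiv : Lp V 2 m →L[ℂ] Lp V 2 m)
      (ContinuousLinearMap.ext fun v => h10 v) v hv
  · intro v hv
    have h11 := hE3 v hv
    rw [hT1 v]
    apply ENNReal.ofReal_le_ofReal
    linarith

end Pool.TFD
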