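import Pool.Agent.Work.MP_972ac7_gen.Interface

set_option autoImplicit false

open MeasureTheory Matrix
open scoped ENNReal ComplexOrder

noncomputable section

namespace Pool.TFD

theorem p_FIN (h1 : Stmt_SEC) (h2 : Stmt_COC) (h3 : Stmt_ERG) (h4 : Stmt_GAPC) (h5 : Stmt_GAPV)
    (h6 : Stmt_TRANS) (h7 : Stmt_TAU) : Stmt_FIN := by
  intro GA GB _ _ _ _ _ _ _ _ _ _ _ _ _ _ _ _ Γ m hdisc hprob hm hirr hA hB hgap
  obtain ⟨hcount, σ, hσm, hσ⟩ := h1 (GA × GB) Γ hdisc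
  obtain ⟨-, hact, -⟩ := h2 (GA × GB) Γ σ hσ hσm
  have herg : ErgA Γ m := h3 GA GB Γ m hm hact hirr
  obtain ⟨μ, hμ, κ, hκ, hX⟩ := h4 GA GB Γ m σ hσ hσm hm hgap
  have hTFD : PropTFD Γ := by
    refine h6 (GA × GB) Γ m σ hσ hσm hm GB μ (fun s => ((1, s) : GA × GB)) (κ / 4)
      (measurable_const.prodMk measurable_id) (by positivity) ?_
    intro V _ _ _ π U hU hinv f
    exact h5 GA GB Γ m σ hσ hσm hm herg hA hB μ κ hκ hX V π U hU hinv f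
  exact ⟨hTFD, h7 Γ hTFD⟩

end Pool.TFD
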