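import Pool.Agent.Work.MP_972ac7_gen.Interface

/-! Block GAPC: from the strong spectral gap to a gap for a finite measure (MP_972ac7_al, helper65). -/

set_option autoImplicit false

open MeasureTheory Matrix
open scoped ENNReal ComplexOrder

noncomputable section

namespace Pool.TFD

theorem GAPC_nrm {X : Type} [MeasurableSpace X] {m : Measure X} (f : Lp ℂ 2 m) (ψ : X → ℂ)
    (h : ⇑f =ᵐ[m] ψ) : ENNReal.ofReal (‖f‖ ^ 2) = ∫⁻ x, ‖ψ x‖ₑ ^ 2 ∂m := by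
  have h1 : ENNReal.ofReal ‖f‖ = eLpNorm ψ 2 m := by
    rw [Lp.norm_def, ENNReal.ofReal_toReal (Lp.eLpNorm_ne_top f), eLpNorm_congr_ae h]
  rw [ENNReal.ofReal_pow (norm_nonneg _), h1,
    eLpNorm_eq_lintegral_rpow_enorm_toReal (by norm_num) (by norm_num)]
  simp only [ENNReal.toReal_ofNat, ENNReal.rpow_ofNat, one_div]
  rw [← ENNReal.rpow_natCast, ← ENNReal.rpow_mul]
  norm_num

theorem GAPC_nrm' {X : Type} [MeasurableSpace X] {m : Measure X} (f : Lp ℂ 2 m) (ψ : X → ℂ)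
    (h : ⇑f =ᵐ[m] ψ) : ∫ x, ‖ψ x‖ ^ 2 ∂m = ‖f‖ ^ 2 := by
  have hae : AEStronglyMeasurable ψ m := (Lp.aestronglyMeasurable f).congr h
  rw [integral_eq_lintegral_of_nonneg_ae (Filter.Eventually.of_forall fun x => sq_nonneg _)
    ((hae.norm.pow 2))]
  have e : ∫⁻ x, ENNReal.ofReal (‖ψ x‖ ^ 2) ∂m = ∫⁻ x, ‖ψ x‖ₑ ^ 2 ∂m := by
    refine lintegral_congr fun x => ?_
    rw [ENNReal.ofReal_pow (norm_nonneg _), ofReal_norm]
  rw [e, ← GAPC_nrm f ψ h, ENNReal.toReal_ofReal (sq_nonneg _)]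

theorem p_GAPC (hCK : Stmt_CK) (_hCOC : Stmt_COC) (hREP : Stmt_REP) (hMC : Stmt_MC) : Stmt_GAPC := by
  intro GA GB _ _ _ _ _ _ _ _ _ _ _ _ _ _ _ _ Γ _ m _ σ hσ hσm hm hgap
  obtain ⟨K, hK, δ, hδ, hgap⟩ := hgap
  obtain ⟨μ, hμ, κ, hκ, hCK'⟩ := hCK GB K δ hK hδ
  refine ⟨μ, hμ, κ, hκ, ?_⟩
  obtain ⟨U, hU⟩ := hREP (GA × GB) Γ m σ hσ hσm hm ℂ (1 : Γ →* (ℂ ≃ₗᵢ[ℂ] ℂ))
  have hmeas := hMC (GA × GB) Γ m σ hσ hσm hm ℂ (1 : Γ →* (ℂ ≃ₗᵢ[ℂ] ℂ)) U hU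
  intro φ hφ
  set c : ℂ := ∫ y, φ y ∂m with hc
  have hψ : MemLp (fun x => φ x - c) 2 m := hφ.sub (memLp_const c)
  have hφi : Integrable φ m := hφ.integrable (by norm_num)
  have hψ0 : ∫ x, (φ x - c) ∂m = 0 := by
    rw [integral_sub hφi (integrable_const c), integral_const, ← hc]
    simp
  set v : Lp ℂ 2 m := hψ.toLp with hv
  have hvae : ⇑v =ᵐ[m] fun x => φ x - c := hψ.coeFn_toLp
  -- the difference
  have hdiff : ∀ s : GB, ⇑(U ((1, s) : GA × GB) v - v) =ᵐ[m]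
      fun x => φ (((1, s) : GA × GB)⁻¹ • x) - φ x := by
    intro s
    have h1 := (hm ((1, s) : GA × GB)⁻¹).quasiMeasurePreserving.ae hvae
    filter_upwards [Lp.coeFn_sub (U ((1, s) : GA × GB) v) v, hU ((1, s) : GA × GB) v, hvae, h1]
      with x h2 h3 h4 h5
    rw [h2, Pi.sub_apply, h3, h4, MonoidHom.one_apply, LinearIsometryEquiv.coe_one, id, h5]
    ring
  obtain ⟨k, hk, hkk⟩ := hgap (fun x => φ x - c) hψ hψ0
  have hkey := hCK' (Lp ℂ 2 m) (U.comp (MonoidHom.inr GA GB)) (fun v w => by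
    have h6 : Measurable fun s : GB => ((1, s) : GA × GB) := measurable_prodMk_left
    exact (hmeas v w).comp h6) v ⟨k, hk, by
      have e1 := GAPC_nrm' v _ hvae
      have e2 := GAPC_nrm' (U ((1, k) : GA × GB) v - v) _ (hdiff k)
      have e3 : ∫ x, ‖(φ (((1, k) : GA × GB)⁻¹ • x) - c) - (φ x - c)‖ ^ 2 ∂m =
          ∫ x, ‖φ (((1, k) : GA × GB)⁻¹ • x) - φ x‖ ^ 2 ∂m := by
        refine integral_congr_ae (Filter.Eventually.of_forall fun x => ?_)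
        show ‖(φ (((1, k) : GA × GB)⁻¹ • x) - c) - (φ x - c)‖ ^ 2 = _
        rw [sub_sub_sub_cancel_right]
      rw [e1, e3, e2] at hkk
      show δ * ‖v‖ ≤ ‖U ((1, k) : GA × GB) v - v‖
      refine le_of_sq_le_sq ?_ (norm_nonneg _)
      rw [mul_pow]
      exact hkk⟩
  rw [ENNReal.ofReal_mul hκ.le, GAPC_nrm v _ hvae] at hkey
  refine hkey.trans (le_of_eq ?_)
  refine lintegral_congr fun s => ?_
  exact GAPC_nrm (U ((1, s) : GA × GB) v - v) _ (hdiff s)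

end Pool.TFD
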