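import Pool.Agent.Work.MP_972ac7_gen.Interface

/-! # Block INV (helper96): the vectors fixed by the first factor -/

set_option autoImplicit false

open MeasureTheory Matrix
open scoped ENNReal ComplexOrder

namespace Pool.TFD

/-- a fixed vector is equivariant at almost every point -/
theorem INV_eqv {G : Type} [Group G] [MeasurableSpace G] {Γ : Subgroup G} {m : Measure (G ⧸ Γ)}
    {σ : G ⧸ Γ → G} {hσ : ∀ x, (σ x : G ⧸ Γ) = x}
    (hmp : ∀ g : G, MeasurePreserving (fun x => g • x) m m) {V : Type} [NormedAddCommGroup V]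
    [InnerProductSpace ℂ V] {π : Γ →* (V ≃ₗᵢ[ℂ] V)} {U : G →* (Lp V 2 m ≃ₗᵢ[ℂ] Lp V 2 m)}
    (hU : IsInd Γ m σ hσ V π U) {g : G} {f : Lp V 2 m} (hf : U g f = f) :
    ∀ᵐ x ∂m, f (g • x) = π (coc Γ σ hσ g x) (f x) := by
  have h1 := hU g f
  rw [hf] at h1
  have h2 := (hmp g).quasiMeasurePreserving.ae h1
  filter_upwards [h2] with x hx
  rw [hx, inv_smul_smul]

theorem p_INV : Stmt_INV := by
  intro GA GB _ _ _ _ _ _ _ _ _ _ _ _ _ _ _ _ Γ _ m _ σ hσ _ hmp herg V _ _ _ π U hU
  refine ⟨{ carrier := {f | ∀ a : GA, U ((a, 1) : GA × GB) f = f}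
            add_mem' := fun {f g} hf hg a => by rw [map_add, hf a, hg a]
            zero_mem' := fun a => map_zero _
            smul_mem' := fun c f hf a => by rw [map_smul, hf a] }, ?_, fun f => Iff.rfl⟩
  set E : Submodule ℂ (Lp V 2 m) :=
    { carrier := {f | ∀ a : GA, U ((a, 1) : GA × GB) f = f}
      add_mem' := fun {f g} hf hg a => by rw [map_add, hf a, hg a]
      zero_mem' := fun a => map_zero _
      smul_mem' := fun c f hf a => by rw [map_smul, hf a] } with hE
  have hmemE : ∀ f, f ∈ E ↔ ∀ a : GA, U ((a, 1) : GA × GB) f = f := fun f => Iff.rfl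
  -- pointwise inner products are constant
  have hinner : ∀ f g : Lp V 2 m, f ∈ E → g ∈ E →
      ∀ᵐ x ∂m, (inner ℂ (f x) (g x) : ℂ) = inner ℂ f g := by
    intro f g hf hg
    have hmeas : Measurable fun x => (inner ℂ (f x) (g x) : ℂ) :=
      ((Lp.stronglyMeasurable f).inner (Lp.stronglyMeasurable g)).measurable
    obtain ⟨c, hc⟩ := herg _ hmeas (by
      intro a
      filter_upwards [INV_eqv hmp hU ((hmemE f).1 hf a), INV_eqv hmp hU ((hmemE g).1 hg a)]
        with x h1 h2
      rw [h1, h2, LinearIsometryEquiv.inner_map_map])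
    have hc2 : (inner ℂ f g : ℂ) = c := by
      rw [L2.inner_def, integral_congr_ae hc, integral_const]
      simp
    rw [hc2]
    exact hc
  -- orthonormal families are small
  have hortho : ∀ (n : ℕ) (f : Fin n → Lp V 2 m), (∀ i, f i ∈ E) → Orthonormal ℂ f →
      n ≤ Module.finrank ℂ V := by
    intro n f hf ho
    have h1 : ∀ᵐ x ∂m, ∀ i j, (inner ℂ (f i x) (f j x) : ℂ) = inner ℂ (f i) (f j) := by
      rw [ae_all_iff]
      intro i
      rw [ae_all_iff]
      intro j
      exact hinner _ _ (hf i) (hf j)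
    obtain ⟨x, hx⟩ := h1.exists
    have h2 : Orthonormal ℂ fun i => f i x := by
      rw [orthonormal_iff_ite] at ho ⊢
      intro i j
      rw [hx i j]
      exact ho i j
    have h3 := h2.linearIndependent.fintype_card_le_finrank
    simpa using h3
  -- finite dimensional
  have hrank : Module.rank ℂ E ≤ (Module.finrank ℂ V : Cardinal) := by
    refine rank_le fun s hs => ?_
    set W : Submodule ℂ (Lp V 2 m) := Submodule.span ℂ (Set.range fun i : s => ((i : E) : Lp V 2 m))
      with hW
    have hli : LinearIndependent ℂ fun i : s => ((i : E) : Lp V 2 m) :=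
      hs.map' E.subtype (Submodule.ker_subtype E)
    have hfd : FiniteDimensional ℂ W := by
      rw [hW]
      exact FiniteDimensional.span_of_finite ℂ (Set.finite_range _)
    have hfr : Module.finrank ℂ W = s.card := by
      rw [hW, finrank_span_eq_card hli, Fintype.card_coe]
    have hWE : W ≤ E := by
      rw [hW, Submodule.span_le]
      rintro _ ⟨i, rfl⟩
      exact (i : E).2
    have h1 := hortho (Module.finrank ℂ W)
      (fun i => ((stdOrthonormalBasis ℂ W i : W) : Lp V 2 m)) (fun i => hWE (Subtype.mem _))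
      ((stdOrthonormalBasis ℂ W).orthonormal.comp_linearIsometry W.subtypeₗᵢ)
    rw [hfr] at h1
    exact h1
  exact Module.rank_lt_aleph0_iff.mp (lt_of_le_of_lt hrank Cardinal.natCast_lt_aleph0)

end Pool.TFD
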