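import Pool.Agent.Work.MP_972ac7_gen.B_LAC

/-! # Block LA: Lemma A (helper67) -/

set_option autoImplicit false

open MeasureTheory Matrix
open scoped ENNReal ComplexOrder

noncomputable section

namespace Pool.TFD

theorem LA_var {X : Type} [MeasurableSpace X] (m : Measure X) [IsProbabilityMeasure m]
    (f : X → ℂ) (hf : MemLp f 2 m) :
    Integrable (fun x => ‖f x - ∫ y, f y ∂m‖ ^ 2) m ∧
      ∫ x, ‖f x - ∫ y, f y ∂m‖ ^ 2 ∂m = ∫ x, ‖f x‖ ^ 2 ∂m - ‖∫ y, f y ∂m‖ ^ 2 := by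
  set c : ℂ := ∫ y, f y ∂m with hc
  have h1 : Integrable (fun x => ‖f x‖ ^ 2) m := (memLp_two_iff_integrable_sq_norm hf.1).1 hf
  have h2 : Integrable f m := hf.integrable one_le_two
  have h3 : Integrable (fun x => ((starRingEnd ℂ) c * f x).re) m := (h2.const_mul _).re
  have e : (fun x => ‖f x - c‖ ^ 2) =
      fun x => ‖f x‖ ^ 2 - 2 * ((starRingEnd ℂ) c * f x).re + ‖c‖ ^ 2 := by
    funext x
    rw [← Complex.normSq_eq_norm_sq, ← Complex.normSq_eq_norm_sq, ← Complex.normSq_eq_norm_sq,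
      Complex.normSq_sub]
    have : (f x * (starRingEnd ℂ) c).re = ((starRingEnd ℂ) c * f x).re := by rw [mul_comm]
    rw [this]
    ring
  have h4 : Integrable (fun x => ‖f x‖ ^ 2 - 2 * ((starRingEnd ℂ) c * f x).re) m :=
    h1.sub (h3.const_mul 2)
  constructor
  · rw [e]
    exact h4.add (integrable_const _)
  · rw [e, integral_add h4 (integrable_const _), integral_sub h1 (h3.const_mul 2),
      integral_const_mul, integral_const]
    have e1 : ∫ x, ((starRingEnd ℂ) c * f x).re ∂m = ‖c‖ ^ 2 := by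
      have h5 := integral_re (𝕜 := ℂ) (h2.const_mul ((starRingEnd ℂ) c))
      have h6 : ∫ x, ((starRingEnd ℂ) c * f x).re ∂m = (∫ x, (starRingEnd ℂ) c * f x ∂m).re := by
        simpa using h5
      rw [h6, integral_const_mul, ← hc, mul_comm, Complex.mul_conj, Complex.ofReal_re,
        Complex.normSq_eq_norm_sq]
    rw [e1]
    simp
    ring

theorem p_LA (hSQ : Stmt_SQ) (hLAG : Stmt_LAG) (hLAC : Stmt_LAC) : Stmt_LA := by
  intro X Ω _ _ m μ _ T κ e L k F Fs hκ he heκ hgap hF hFs hG hint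
  obtain ⟨hP, hdev⟩ := hLAG X Ω m μ T κ e L k F Fs hκ he hgap hF hFs hint
  have hC := hLAC X m L k F hF hP hG
  set P : X → Matrix (Fin L) (Fin L) ℂ := fun x => msq (F x * (F x)ᴴ) with hPdef
  set C : Matrix (Fin L) (Fin L) ℂ := Matrix.of fun i j => ∫ y, P y i j ∂m with hCdef
  have hherm : ∀ x, (P x).IsHermitian := fun x => (hSQ (Fin L) k (F x)).1.1
  have hsq : ∀ x, P x * P x = F x * (F x)ᴴ := fun x => (hSQ (Fin L) k (F x)).2
  have hPF : ∀ x, hs (P x) = hs (F x) := by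
    intro x
    rw [LAC_hs_herm (hherm x), hsq x]
    have h : trace (F x * (F x)ᴴ) = ((hs (F x) : ℝ) : ℂ) := LAC_trace_hs (F x)
    rw [h, Complex.ofReal_re]
  have hFi : ∀ i j, Integrable (fun x => (F x * (F x)ᴴ) i j) m := by
    intro i j
    have e : (fun x => (F x * (F x)ᴴ) i j) = fun x => ∑ l, F x i l * star (F x j l) := by
      funext x
      rw [mul_apply]
      rfl
    rw [e]
    refine integrable_finsetSum _ fun l _ => ?_
    exact (hF i l).integrable_mul (hF j l).star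
  have hhs : ∫ x, hs (F x) ∂m = L := by
    have e1 : ((∫ x, hs (F x) ∂m : ℝ) : ℂ) = ∑ i : Fin L, ∫ x, (F x * (F x)ᴴ) i i ∂m := by
      rw [← integral_complex_ofReal, ← integral_finsetSum _ fun i _ => hFi i i]
      refine integral_congr_ae (Filter.Eventually.of_forall fun x => ?_)
      exact (LAC_trace_hs (F x)).symm
    have e2 : ∑ i : Fin L, ∫ x, (F x * (F x)ᴴ) i i ∂m = (L : ℂ) := by
      simp [hG]
    rw [e2] at e1
    exact_mod_cast e1
  have hPint : ∀ i j, Integrable (fun x => ‖P x i j‖ ^ 2) m := fun i j =>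
    (memLp_two_iff_integrable_sq_norm (hP i j).1).1 (hP i j)
  have hPhs : ∑ i, ∑ j, ∫ x, ‖P x i j‖ ^ 2 ∂m = L := by
    rw [← hhs]
    have : ∀ x, hs (F x) = ∑ i, ∑ j, ‖P x i j‖ ^ 2 := fun x => (hPF x).symm
    simp only [this]
    rw [integral_finsetSum _ fun i _ => integrable_finsetSum _ fun j _ => hPint i j]
    refine Finset.sum_congr rfl fun i _ => ?_
    rw [integral_finsetSum _ fun j _ => hPint i j]
  have hdec : ∫ x, hs (P x - C) ∂m = L - hs C := by
    have e0 : ∀ x, hs (P x - C) = ∑ i, ∑ j, ‖P x i j - ∫ y, P y i j ∂m‖ ^ 2 := fun x => rfl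
    simp only [e0]
    rw [integral_finsetSum _ fun i _ => integrable_finsetSum _ fun j _ =>
      (LA_var m (fun x => P x i j) (hP i j)).1]
    have e1 : ∀ i, ∫ x, ∑ j, ‖P x i j - ∫ y, P y i j ∂m‖ ^ 2 ∂m =
        ∑ j, (∫ x, ‖P x i j‖ ^ 2 ∂m - ‖∫ y, P y i j ∂m‖ ^ 2) := by
      intro i
      rw [integral_finsetSum _ fun j _ => (LA_var m (fun x => P x i j) (hP i j)).1]
      exact Finset.sum_congr rfl fun j _ => (LA_var m (fun x => P x i j) (hP i j)).2
    simp only [e1, Finset.sum_sub_distrib]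
    rw [hPhs]
    rfl
  have hkey : (L : ℝ) * (1 - 2 * e / κ) ≤ Real.sqrt (k * L) := by
    have h1 : ∫ x, hs (P x - C) ∂m ≤ 2 * e / κ * L := hdev
    rw [hdec] at h1
    linarith
  have hnn : 0 ≤ 1 - 2 * e / κ := by
    rw [sub_nonneg, div_le_one hκ]
    exact heκ
  rcases Nat.eq_zero_or_pos L with h0 | h0
  · subst h0
    simp
  · have hL : (0 : ℝ) < L := by exact_mod_cast h0
    have h2 : ((L : ℝ) * (1 - 2 * e / κ)) ^ 2 ≤ k * L := by
      have h3 := pow_le_pow_left₀ (mul_nonneg hL.le hnn) hkey 2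
      rwa [Real.sq_sqrt (by positivity)] at h3
    have h4 : (L : ℝ) * ((L : ℝ) * (1 - 2 * e / κ) ^ 2) ≤ (L : ℝ) * (k : ℝ) := by
      have h5 : (L : ℝ) * ((L : ℝ) * (1 - 2 * e / κ) ^ 2) = ((L : ℝ) * (1 - 2 * e / κ)) ^ 2 := by
        ring
      rw [h5, mul_comm (L : ℝ) (k : ℝ)]
      exact h2
    exact le_of_mul_le_mul_left h4 hL

end Pool.TFD
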