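import Pool.Agent.Work.MP_972ac7_gen.Interface

/-! # Block LAC: the mean of `|F|` is small (helper67) -/

set_option autoImplicit false

open MeasureTheory Matrix
open scoped ENNReal ComplexOrder

noncomputable section

namespace Pool.TFD

/-- Quadratic forms and integrals of matrices. -/
theorem LAC_quad {X : Type} [MeasurableSpace X] (m : Measure X) {L : ℕ}
    (M : X → Matrix (Fin L) (Fin L) ℂ) (hM : ∀ i j, Integrable (fun x => M x i j) m)
    (v : Fin L → ℂ) :
    Integrable (fun x => star v ⬝ᵥ (M x *ᵥ v)) m ∧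
      ∫ x, star v ⬝ᵥ (M x *ᵥ v) ∂m =
        star v ⬝ᵥ ((Matrix.of fun i j => ∫ y, M y i j ∂m) *ᵥ v) := by
  have e : ∀ A : Matrix (Fin L) (Fin L) ℂ, star v ⬝ᵥ (A *ᵥ v) =
      ∑ i, ∑ j, star (v i) * (A i j * v j) := by
    intro A
    simp only [dotProduct, mulVec, Pi.star_apply, Finset.mul_sum]
  have h1 : ∀ i j, Integrable (fun x => star (v i) * (M x i j * v j)) m :=
    fun i j => ((hM i j).mul_const _).const_mul _
  constructor
  · simp only [e]
    exact integrable_finsetSum _ fun i _ => integrable_finsetSum _ fun j _ => h1 i j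
  · simp only [e]
    rw [integral_finsetSum _ fun i _ => integrable_finsetSum _ fun j _ => h1 i j]
    refine Finset.sum_congr rfl fun i _ => ?_
    rw [integral_finsetSum _ fun j _ => h1 i j]
    refine Finset.sum_congr rfl fun j _ => ?_
    rw [integral_const_mul, integral_mul_const]
    rfl

/-- The trace of a product of two positive semidefinite matrices. -/
theorem LAC_trace {n : Type} [Fintype n] [DecidableEq n] {A B : Matrix n n ℂ}
    (hA : A.PosSemidef) (hB : B.PosSemidef) : 0 ≤ (trace (A * B)).re := by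
  open scoped MatrixOrder in
  obtain ⟨a, rfl⟩ := CStarAlgebra.nonneg_iff_eq_star_mul_self.mp hA.nonneg
  have h1 : trace (star a * a * B) = trace (a * B * aᴴ) := by
    rw [star_eq_conjTranspose, Matrix.mul_assoc, trace_mul_comm]
  rw [h1]
  have h2 := (hB.mul_mul_conjTranspose_same a).trace_nonneg
  exact (Complex.le_def.1 h2).1

theorem LAC_hs_herm {n : Type} [Fintype n] {C : Matrix n n ℂ} (hC : C.IsHermitian) :
    hs C = (trace (C * C)).re := by
  unfold hs trace
  rw [Complex.re_sum]
  refine Finset.sum_congr rfl fun i _ => ?_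
  rw [diag_apply, mul_apply, Complex.re_sum]
  refine Finset.sum_congr rfl fun j _ => ?_
  have h3 : C i j = (starRingEnd ℂ) (C j i) := (hC.apply i j).symm
  rw [h3, mul_comm, Complex.mul_conj, Complex.normSq_eq_norm_sq, RCLike.norm_conj,
    Complex.ofReal_re]

theorem LAC_trace_hs {L k : ℕ} (F : Matrix (Fin L) (Fin k) ℂ) :
    ∑ i, (F * Fᴴ) i i = ((hs F : ℝ) : ℂ) := by
  unfold hs
  push_cast
  refine Finset.sum_congr rfl fun i _ => ?_
  rw [mul_apply]
  refine Finset.sum_congr rfl fun j _ => ?_
  rw [conjTranspose_apply, Complex.star_def, Complex.mul_conj, Complex.normSq_eq_norm_sq]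
  push_cast
  ring

theorem LAC_young {L : ℕ} (v w : Fin L → ℂ) :
    (star v ⬝ᵥ w).re ≤ ((star v ⬝ᵥ v).re + (star w ⬝ᵥ w).re) / 2 := by
  simp only [dotProduct, Complex.re_sum, Pi.star_apply, Complex.star_def, Complex.mul_re,
    Complex.conj_re, Complex.conj_im]
  rw [← Finset.sum_add_distrib, Finset.sum_div]
  refine Finset.sum_le_sum fun i _ => ?_
  nlinarith [sq_nonneg ((v i).re - (w i).re), sq_nonneg ((v i).im - (w i).im)]

theorem p_LAC (hSQ : Stmt_SQ) (hRKT : Stmt_RKT) : Stmt_LAC := by
  intro X _ m _ L k F hF hP hG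
  set P : X → Matrix (Fin L) (Fin L) ℂ := fun x => msq (F x * (F x)ᴴ) with hPdef
  have hpsd : ∀ x, (P x).PosSemidef := fun x => (hSQ (Fin L) k (F x)).1
  have hsq : ∀ x, P x * P x = F x * (F x)ᴴ := fun x => (hSQ (Fin L) k (F x)).2
  have hPi : ∀ i j, Integrable (fun x => P x i j) m := fun i j =>
    (hP i j).integrable one_le_two
  have hFi : ∀ i j, Integrable (fun x => (F x * (F x)ᴴ) i j) m := by
    intro i j
    have e : (fun x => (F x * (F x)ᴴ) i j) = fun x => ∑ l, F x i l * star (F x j l) := by
      funext x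
      rw [mul_apply]
      rfl
    rw [e]
    refine integrable_finsetSum _ fun l _ => ?_
    exact (hF i l).integrable_mul (hF j l).star
  set C : Matrix (Fin L) (Fin L) ℂ := Matrix.of fun i j => ∫ y, P y i j ∂m with hC
  have hCherm : C.IsHermitian := by
    ext i j
    rw [conjTranspose_apply, hC, of_apply, of_apply, Complex.star_def, ← integral_conj]
    refine integral_congr_ae (Filter.Eventually.of_forall fun x => ?_)
    exact (hpsd x).1.apply i j
  have hquad : ∀ v : Fin L → ℂ, star v ⬝ᵥ (C *ᵥ v) = ∫ x, star v ⬝ᵥ (P x *ᵥ v) ∂m :=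
    fun v => (LAC_quad m P hPi v).2.symm
  have hCpsd : C.PosSemidef := by
    refine .of_dotProduct_mulVec_nonneg hCherm fun v => ?_
    rw [hquad v]
    have e1 : (fun x => star v ⬝ᵥ (P x *ᵥ v)) =
        fun x => (((star v ⬝ᵥ (P x *ᵥ v)).re : ℝ) : ℂ) := by
      funext x
      have h := Complex.le_def.1 ((hpsd x).dotProduct_mulVec_nonneg v)
      apply Complex.ext
      · simp
      · simpa using h.2.symm
    rw [e1, integral_complex_ofReal]
    have : 0 ≤ ∫ x, (star v ⬝ᵥ (P x *ᵥ v)).re ∂m :=
      integral_nonneg fun x => (Complex.le_def.1 ((hpsd x).dotProduct_mulVec_nonneg v)).1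
    exact_mod_cast this
  have h1C : (1 - C).PosSemidef := by
    refine .of_dotProduct_mulVec_nonneg (isHermitian_one.sub hCherm) fun v => ?_
    have hre : (star v ⬝ᵥ (C *ᵥ v)).re ≤ (star v ⬝ᵥ v).re := by
      rw [hquad v]
      have i1 := (LAC_quad m P hPi v).1
      obtain ⟨i2, i3⟩ := LAC_quad m (fun x => F x * (F x)ᴴ) hFi v
      have e0 : (Matrix.of fun i j => ∫ y, (F y * (F y)ᴴ) i j ∂m) =
          (1 : Matrix (Fin L) (Fin L) ℂ) := by
        ext i j
        rw [of_apply, hG i j, one_apply]
      rw [e0, one_mulVec] at i3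
      have e1 : (∫ x, star v ⬝ᵥ (P x *ᵥ v) ∂m).re = ∫ x, (star v ⬝ᵥ (P x *ᵥ v)).re ∂m := by
        have := integral_re (𝕜 := ℂ) i1
        simpa using this.symm
      have e2 : (∫ x, star v ⬝ᵥ ((F x * (F x)ᴴ) *ᵥ v) ∂m).re =
          ∫ x, (star v ⬝ᵥ ((F x * (F x)ᴴ) *ᵥ v)).re ∂m := by
        have := integral_re (𝕜 := ℂ) i2
        simpa using this.symm
      rw [e1]
      calc ∫ x, (star v ⬝ᵥ (P x *ᵥ v)).re ∂m ≤
          ∫ x, ((star v ⬝ᵥ v).re + (star v ⬝ᵥ ((F x * (F x)ᴴ) *ᵥ v)).re) / 2 ∂m := by
            refine integral_mono i1.re ?_ fun x => ?_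
            · exact ((integrable_const _).add i2.re).div_const _
            · have h := LAC_young v (P x *ᵥ v)
              have e3 : star (P x *ᵥ v) ⬝ᵥ (P x *ᵥ v) = star v ⬝ᵥ ((F x * (F x)ᴴ) *ᵥ v) := by
                rw [← hsq x, ← mulVec_mulVec, star_mulVec, (hpsd x).1.eq,
                  dotProduct_mulVec (star v), dotProduct_mulVec]
              rw [e3] at h
              exact h
        _ = ((star v ⬝ᵥ v).re + (star v ⬝ᵥ v).re) / 2 := by
            have i2r : Integrable (fun x => (star v ⬝ᵥ ((F x * (F x)ᴴ) *ᵥ v)).re) m := i2.re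
            rw [integral_div, integral_add (integrable_const _) i2r, integral_const]
            have e4 : ∫ x, (star v ⬝ᵥ ((F x * (F x)ᴴ) *ᵥ v)).re ∂m = (star v ⬝ᵥ v).re := by
              rw [← e2, i3]
            rw [e4]
            simp
        _ = (star v ⬝ᵥ v).re := by ring
    have him : (star v ⬝ᵥ (C *ᵥ v)).im = 0 :=
      (Complex.le_def.1 (hCpsd.dotProduct_mulVec_nonneg v)).2.symm
    have him2 : (star v ⬝ᵥ v).im = 0 := by
      simp only [dotProduct, Complex.im_sum, Pi.star_apply, Complex.star_def, Complex.mul_im,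
        Complex.conj_re, Complex.conj_im]
      exact Finset.sum_eq_zero fun i _ => by ring
    rw [sub_mulVec, one_mulVec, dotProduct_sub, Complex.le_def]
    constructor
    · rw [Complex.sub_re, Complex.zero_re]
      linarith
    · rw [Complex.sub_im, Complex.zero_im, him, him2, sub_zero]
  have hmain : hs C ≤ (trace C).re := by
    rw [LAC_hs_herm hCherm]
    have h := LAC_trace hCpsd h1C
    rw [mul_sub, mul_one, trace_sub, Complex.sub_re] at h
    linarith
  have htr : (trace C).re = ∫ x, (trace (P x)).re ∂m := by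
    have e1 : trace C = ∫ x, trace (P x) ∂m := by
      change ∑ i, ∫ y, P y i i ∂m = ∫ x, ∑ i, P x i i ∂m
      rw [integral_finsetSum _ fun i _ => hPi i i]
    have i1 : Integrable (fun x => trace (P x)) m :=
      integrable_finsetSum _ fun i _ => hPi i i
    rw [e1]
    have := integral_re (𝕜 := ℂ) i1
    simpa using this.symm
  have hhsi : Integrable (fun x => hs (F x)) m := by
    unfold hs
    exact integrable_finsetSum _ fun i _ => integrable_finsetSum _ fun j _ =>
      (memLp_two_iff_integrable_sq_norm (hF i j).1).1 (hF i j)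
  have hhs : ∫ x, hs (F x) ∂m = L := by
    have e1 : ((∫ x, hs (F x) ∂m : ℝ) : ℂ) = ∑ i : Fin L, ∫ x, (F x * (F x)ᴴ) i i ∂m := by
      rw [← integral_complex_ofReal, ← integral_finsetSum _ fun i _ => hFi i i]
      refine integral_congr_ae (Filter.Eventually.of_forall fun x => ?_)
      exact (LAC_trace_hs (F x)).symm
    have e2 : ∑ i : Fin L, ∫ x, (F x * (F x)ᴴ) i i ∂m = (L : ℂ) := by
      simp [hG]
    rw [e2] at e1
    exact_mod_cast e1
  have hfin : ∫ x, (trace (P x)).re ∂m ≤ Real.sqrt (k * L) := by
    rcases Nat.eq_zero_or_pos L with h0 | h0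
    · subst h0
      have : ∀ x, (trace (P x)).re = 0 := by
        intro x
        simp [trace]
      simp [this]
    · have hL : (0 : ℝ) < L := by exact_mod_cast h0
      have hsL : 0 < Real.sqrt L := Real.sqrt_pos.2 hL
      have i1 : Integrable (fun x => (trace (P x)).re) m := by
        have : Integrable (fun x => trace (P x)) m :=
          integrable_finsetSum _ fun i _ => hPi i i
        exact this.re
      calc ∫ x, (trace (P x)).re ∂m ≤
          ∫ x, Real.sqrt k * ((hs (F x) / Real.sqrt L + Real.sqrt L) / 2) ∂m := by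
            refine integral_mono i1 ?_ fun x => ?_
            · exact (((hhsi.div_const _).add (integrable_const _)).div_const _).const_mul _
            · refine (hRKT L k (F x)).trans ?_
              refine mul_le_mul_of_nonneg_left ?_ (Real.sqrt_nonneg _)
              have hh : 0 ≤ hs (F x) := by
                unfold hs
                positivity
              have h1 : Real.sqrt (hs (F x)) ^ 2 = hs (F x) := Real.sq_sqrt hh
              have h2 : hs (F x) / Real.sqrt L * Real.sqrt L = hs (F x) := by
                field_simp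
              have h3 : 0 ≤ (Real.sqrt (hs (F x)) - Real.sqrt L) ^ 2 / Real.sqrt L := by positivity
              have h4 : (Real.sqrt (hs (F x)) - Real.sqrt L) ^ 2 / Real.sqrt L =
                  hs (F x) / Real.sqrt L - 2 * Real.sqrt (hs (F x)) + Real.sqrt L := by
                rw [sub_sq, h1]
                field_simp
              linarith
        _ = Real.sqrt k * ((L / Real.sqrt L + Real.sqrt L) / 2) := by
            rw [integral_const_mul, integral_div,
              integral_add (hhsi.div_const _) (integrable_const _), integral_div, hhs,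
              integral_const]
            simp
        _ = Real.sqrt (k * L) := by
            have : (L : ℝ) / Real.sqrt L = Real.sqrt L := Real.div_sqrt
            rw [this, Real.sqrt_mul (Nat.cast_nonneg k)]
            ring
  calc hs C ≤ (trace C).re := hmain
    _ = ∫ x, (trace (P x)).re ∂m := htr
    _ ≤ Real.sqrt (k * L) := hfin

end Pool.TFD
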