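import Pool.Agent.Work.MP_972ac7_gen.Interface

set_option autoImplicit false

open MeasureTheory Matrix
open scoped ENNReal ComplexOrder

noncomputable section

namespace Pool.TFD

section LAG

theorem LAG_hs_nonneg {a b : Type} [Fintype a] [Fintype b] (A : Matrix a b ℂ) : 0 ≤ hs A :=
  Finset.sum_nonneg fun i _ => Finset.sum_nonneg fun j _ => by positivity

theorem LAG_le_hs {a b : Type} [Fintype a] [Fintype b] (A : Matrix a b ℂ) (i : a) (j : b) :
    ‖A i j‖ ^ 2 ≤ hs A := by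
  have h1 : ‖A i j‖ ^ 2 ≤ ∑ j', ‖A i j'‖ ^ 2 :=
    Finset.single_le_sum (f := fun j' => ‖A i j'‖ ^ 2) (fun _ _ => by positivity)
      (Finset.mem_univ j)
  have h2 : ∑ j', ‖A i j'‖ ^ 2 ≤ hs A :=
    Finset.single_le_sum (f := fun i' => ∑ j', ‖A i' j'‖ ^ 2)
      (fun _ _ => Finset.sum_nonneg fun _ _ => by positivity) (Finset.mem_univ i)
  exact h1.trans h2

theorem LAG_sq {ι : Type} (S : Finset ι) (f : ι → ℝ) (hf : ∀ i, 0 ≤ f i) :
    ∑ i ∈ S, f i ^ 2 ≤ (∑ i ∈ S, f i) ^ 2 := by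
  classical
  induction S using Finset.induction_on with
  | empty => simp
  | insert a S ha ih =>
    rw [Finset.sum_insert ha, Finset.sum_insert ha]
    have h1 : 0 ≤ ∑ i ∈ S, f i := Finset.sum_nonneg fun i _ => hf i
    nlinarith [mul_nonneg (hf a) h1]

theorem LAG_trace {a b : Type} [Fintype a] [Fintype b] (A : Matrix a b ℂ) :
    (A * Aᴴ).trace = (hs A : ℂ) := by
  simp only [Matrix.trace, Matrix.diag_apply, Matrix.mul_apply, Matrix.conjTranspose_apply, hs]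
  push_cast
  refine Finset.sum_congr rfl fun i _ => Finset.sum_congr rfl fun j _ => ?_
  have := Complex.mul_conj' (A i j)
  simpa using this

theorem LAG_hs_msq (hSQ : Stmt_SQ) {L k : ℕ} (F : Matrix (Fin L) (Fin k) ℂ) :
    hs (msq (F * Fᴴ)) = hs F := by
  obtain ⟨h1, h2⟩ := hSQ (Fin L) k F
  have h3 : (msq (F * Fᴴ) * (msq (F * Fᴴ))ᴴ).trace = (F * Fᴴ).trace := by
    rw [h1.1.eq, h2]
  rw [LAG_trace, LAG_trace] at h3
  exact_mod_cast h3

theorem LAG_cont (hAY : Stmt_AY) (L k : ℕ) (i j : Fin L) :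
    Continuous fun A : Fin L → Fin k → ℂ =>
      msq ((Matrix.of A : Matrix (Fin L) (Fin k) ℂ) * (Matrix.of A : Matrix (Fin L) (Fin k) ℂ)ᴴ)
        i j := by
  rw [continuous_iff_continuousAt]
  intro A₀
  rw [ContinuousAt, tendsto_iff_norm_sub_tendsto_zero]
  have h1 : Filter.Tendsto (fun A : Fin L → Fin k → ℂ =>
      Real.sqrt (2 * ∑ a, ∑ b, ‖A a b - A₀ a b‖ ^ 2)) (nhds A₀) (nhds 0) := by
    have hc : Continuous fun A : Fin L → Fin k → ℂ =>
        Real.sqrt (2 * ∑ a, ∑ b, ‖A a b - A₀ a b‖ ^ 2) := by fun_prop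
    have := hc.tendsto A₀
    simpa using this
  refine squeeze_zero (fun A => norm_nonneg _) (fun A => ?_) h1
  apply Real.le_sqrt_of_sq_le
  have h2 := hAY L k (Matrix.of A) (Matrix.of A₀)
  refine le_trans ?_ h2
  exact LAG_le_hs (msq ((Matrix.of A : Matrix (Fin L) (Fin k) ℂ) * (Matrix.of A)ᴴ) -
    msq ((Matrix.of A₀ : Matrix (Fin L) (Fin k) ℂ) * (Matrix.of A₀)ᴴ)) i j

theorem LAG_sum_lintegral {X ι : Type} [MeasurableSpace X] (m : Measure X) (S : Finset ι)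
    (f : ι → X → ℝ≥0∞) : ∑ i ∈ S, ∫⁻ x, f i x ∂m ≤ ∫⁻ x, ∑ i ∈ S, f i x ∂m := by
  classical
  induction S using Finset.induction_on with
  | empty => simp
  | insert a S ha ih =>
    rw [Finset.sum_insert ha]
    calc ∫⁻ x, f a x ∂m + ∑ i ∈ S, ∫⁻ x, f i x ∂m
        ≤ ∫⁻ x, f a x ∂m + ∫⁻ x, ∑ i ∈ S, f i x ∂m := by gcongr
      _ ≤ ∫⁻ x, (f a x + ∑ i ∈ S, f i x) ∂m := le_lintegral_add _ _
      _ = ∫⁻ x, ∑ i ∈ insert a S, f i x ∂m := by
          refine lintegral_congr fun x => ?_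
          rw [Finset.sum_insert ha]

theorem LAG_ofReal_hs {a b : Type} [Fintype a] [Fintype b] (A : Matrix a b ℂ) :
    ENNReal.ofReal (hs A) = ∑ i, ∑ j, ‖A i j‖ₑ ^ 2 := by
  unfold hs
  rw [ENNReal.ofReal_sum_of_nonneg fun i _ => Finset.sum_nonneg fun j _ => by positivity]
  refine Finset.sum_congr rfl fun i _ => ?_
  rw [ENNReal.ofReal_sum_of_nonneg fun j _ => by positivity]
  refine Finset.sum_congr rfl fun j _ => ?_
  rw [ENNReal.ofReal_pow (norm_nonneg _), ofReal_norm_eq_enorm]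

end LAG

theorem p_LAG (hSQ : Stmt_SQ) (hAY : Stmt_AY) : Stmt_LAG := by
  intro X Ω _ _ m μ _ T κ e L k F Fs hκ he hgap hF hFs hen
  set P : X → Matrix (Fin L) (Fin L) ℂ := fun x => msq (F x * (F x)ᴴ) with hP
  have hPm : ∀ i j, AEStronglyMeasurable (fun x => P x i j) m := by
    intro i j
    have h1 : AEMeasurable (fun x => fun a b => F x a b) m :=
      aemeasurable_pi_lambda _ fun a => aemeasurable_pi_lambda _ fun b =>
        (hF a b).aestronglyMeasurable.aemeasurable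
    exact ((LAG_cont hAY L k i j).measurable.comp_aemeasurable h1).aestronglyMeasurable
  have hPL : ∀ i j, MemLp (fun x => P x i j) 2 m := by
    intro i j
    have h1 : MemLp (fun x => ∑ a, ∑ b, ‖F x a b‖) 2 m := by
      refine memLp_finset_sum _ fun a _ => memLp_finset_sum _ fun b _ => (hF a b).norm
    refine h1.mono (hPm i j) ?_
    filter_upwards with x
    have h2 : ‖P x i j‖ ^ 2 ≤ hs (F x) := by
      have := LAG_le_hs (P x) i j
      rwa [LAG_hs_msq hSQ] at this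
    have h3 : hs (F x) ≤ (∑ a, ∑ b, ‖F x a b‖) ^ 2 := by
      unfold hs
      calc ∑ a, ∑ b, ‖F x a b‖ ^ 2 ≤ ∑ a, (∑ b, ‖F x a b‖) ^ 2 :=
            Finset.sum_le_sum fun a _ => LAG_sq _ _ fun b => norm_nonneg _
        _ ≤ (∑ a, ∑ b, ‖F x a b‖) ^ 2 :=
            LAG_sq _ _ fun a => Finset.sum_nonneg fun b _ => norm_nonneg _
    have h4 : (0 : ℝ) ≤ ∑ a, ∑ b, ‖F x a b‖ :=
      Finset.sum_nonneg fun a _ => Finset.sum_nonneg fun b _ => norm_nonneg _
    rw [Real.norm_of_nonneg h4]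
    exact abs_le_of_sq_le_sq' (h2.trans h3) h4 |>.2
  refine ⟨hPL, ?_⟩
  set C : Matrix (Fin L) (Fin L) ℂ := Matrix.of fun i j => ∫ y, P y i j ∂m with hC
  -- the gap for all entries
  have h1 : ENNReal.ofReal κ * ∫⁻ x, ENNReal.ofReal (hs (P x - C)) ∂m ≤
      ENNReal.ofReal (2 * (e * L)) := by
    have h2 : ∫⁻ x, ENNReal.ofReal (hs (P x - C)) ∂m =
        ∑ i, ∑ j, ∫⁻ x, ‖P x i j - ∫ y, P y i j ∂m‖ₑ ^ 2 ∂m := by
      have h3 : ∀ x, ENNReal.ofReal (hs (P x - C)) =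
          ∑ i, ∑ j, ‖P x i j - ∫ y, P y i j ∂m‖ₑ ^ 2 := fun x => LAG_ofReal_hs _
      simp_rw [h3]
      have h4 : ∀ i j, AEMeasurable (fun x => ‖P x i j - ∫ y, P y i j ∂m‖ₑ ^ 2) m := fun i j =>
        (((hPm i j).sub aestronglyMeasurable_const).enorm).pow_const 2
      rw [lintegral_finset_sum' _ fun i _ => Finset.aemeasurable_fun_sum _ fun j _ => h4 i j]
      refine Finset.sum_congr rfl fun i _ => ?_
      rw [lintegral_finset_sum' _ fun j _ => h4 i j]
    rw [h2, Finset.mul_sum]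
    calc ∑ i, ENNReal.ofReal κ * ∑ j, ∫⁻ x, ‖P x i j - ∫ y, P y i j ∂m‖ₑ ^ 2 ∂m
        ≤ ∑ i, ∑ j, ∫⁻ s, ∫⁻ x, ‖P (T s x) i j - P x i j‖ₑ ^ 2 ∂m ∂μ := by
          refine Finset.sum_le_sum fun i _ => ?_
          rw [Finset.mul_sum]
          exact Finset.sum_le_sum fun j _ => hgap (fun x => P x i j) (hPL i j)
      _ ≤ ∑ i, ∫⁻ s, ∑ j, ∫⁻ x, ‖P (T s x) i j - P x i j‖ₑ ^ 2 ∂m ∂μ :=
          Finset.sum_le_sum fun i _ => LAG_sum_lintegral _ _ _
      _ ≤ ∫⁻ s, ∑ i, ∑ j, ∫⁻ x, ‖P (T s x) i j - P x i j‖ₑ ^ 2 ∂m ∂μ :=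
          LAG_sum_lintegral _ _ _
      _ ≤ ∫⁻ s, ∫⁻ x, ∑ i, ∑ j, ‖P (T s x) i j - P x i j‖ₑ ^ 2 ∂m ∂μ := by
          refine lintegral_mono fun s => ?_
          exact (Finset.sum_le_sum fun i _ => LAG_sum_lintegral _ _ _).trans
            (LAG_sum_lintegral _ _ _)
      _ ≤ ∫⁻ s, ∫⁻ x, 2 * ENNReal.ofReal (hs (Fs s x - F x)) ∂m ∂μ := by
          refine lintegral_mono fun s => ?_
          refine lintegral_mono_ae ?_
          filter_upwards [hFs s] with x hx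
          have h5 : ∑ i, ∑ j, ‖P (T s x) i j - P x i j‖ₑ ^ 2 =
              ENNReal.ofReal (hs (P (T s x) - P x)) := (LAG_ofReal_hs _).symm
          rw [h5]
          have h6 : hs (P (T s x) - P x) ≤ 2 * hs (Fs s x - F x) := by
            simp only [hP]
            rw [← hx]
            exact hAY L k (Fs s x) (F x)
          calc ENNReal.ofReal (hs (P (T s x) - P x)) ≤ ENNReal.ofReal (2 * hs (Fs s x - F x)) :=
                ENNReal.ofReal_le_ofReal h6
            _ = 2 * ENNReal.ofReal (hs (Fs s x - F x)) := by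
                rw [ENNReal.ofReal_mul (p := 2) (q := hs (Fs s x - F x)) (by norm_num),
                  ENNReal.ofReal_ofNat]
      _ = 2 * ∫⁻ s, ∫⁻ x, ENNReal.ofReal (hs (Fs s x - F x)) ∂m ∂μ := by
          rw [← lintegral_const_mul' _ _ ENNReal.ofNat_ne_top]
          refine lintegral_congr fun s => ?_
          rw [lintegral_const_mul' _ _ ENNReal.ofNat_ne_top]
      _ ≤ 2 * ENNReal.ofReal (e * L) := by gcongr
      _ = ENNReal.ofReal (2 * (e * L)) := by
          rw [ENNReal.ofReal_mul (p := 2) (q := e * L) (by norm_num), ENNReal.ofReal_ofNat]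
  have h7 : Integrable (fun x => hs (P x - C)) m := by
    unfold hs
    refine integrable_finset_sum _ fun i _ => integrable_finset_sum _ fun j _ => ?_
    have h8 : MemLp (fun x => P x i j - C i j) 2 m := (hPL i j).sub (memLp_const _)
    exact h8.integrable_norm_pow (by norm_num)
  rw [← ofReal_integral_eq_lintegral_ofReal h7
    (Filter.Eventually.of_forall fun x => LAG_hs_nonneg _), ← ENNReal.ofReal_mul hκ.le,
    ENNReal.ofReal_le_ofReal_iff (by positivity)] at h1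
  rw [div_mul_eq_mul_div, le_div_iff₀ hκ]
  linarith

end Pool.TFD
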