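import Pool.Agent.Work.MP_972ac7_gen.Interface

/-! # Block LAH (MP_972ac7_al, helper59): Lemma A for orthonormal families in `L²(G/Γ; V)` -/

set_option autoImplicit false

open MeasureTheory Matrix
open scoped ENNReal ComplexOrder

noncomputable section

namespace Pool.TFD

theorem LAH_gram {V : Type} [NormedAddCommGroup V] [InnerProductSpace ℂ V] {k : ℕ}
    (b : OrthonormalBasis (Fin k) ℂ V) {L : ℕ} (w : Fin L → V) (a c : Fin L) :
    ((Matrix.of fun i j => (inner ℂ (b j) (w i) : ℂ)) *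
      (Matrix.of fun i j => (inner ℂ (b j) (w i) : ℂ))ᴴ) a c = inner ℂ (w c) (w a) := by
  rw [Matrix.mul_apply, ← b.sum_inner_mul_inner (w c) (w a)]
  refine Finset.sum_congr rfl fun j _ => ?_
  rw [Matrix.conjTranspose_apply, Matrix.of_apply, Matrix.of_apply, mul_comm]
  congr 1
  exact inner_conj_symm _ _

theorem LAH_hs {V : Type} [NormedAddCommGroup V] [InnerProductSpace ℂ V] {k : ℕ}
    (b : OrthonormalBasis (Fin k) ℂ V) {L : ℕ} (w w' : Fin L → V) :
    hs ((Matrix.of fun i j => (inner ℂ (b j) (w i) : ℂ)) -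
      (Matrix.of fun i j => (inner ℂ (b j) (w' i) : ℂ))) = ∑ i, ‖w i - w' i‖ ^ 2 := by
  unfold hs
  refine Finset.sum_congr rfl fun i _ => ?_
  rw [← b.sum_sq_norm_inner_right (w i - w' i)]
  refine Finset.sum_congr rfl fun j _ => ?_
  rw [Matrix.sub_apply, Matrix.of_apply, Matrix.of_apply, inner_sub_right]

theorem LAH_norm {X V : Type} [MeasurableSpace X] (m : Measure X) [NormedAddCommGroup V]
    (g : Lp V 2 m) : ∫⁻ x, ENNReal.ofReal (‖g x‖ ^ 2) ∂m = ENNReal.ofReal (‖g‖ ^ 2) := by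
  have h1 : ENNReal.ofReal (‖g‖ ^ 2) = (eLpNorm g 2 m) ^ 2 := by
    rw [Lp.norm_def, ← ENNReal.toReal_pow, ENNReal.ofReal_toReal]
    exact ENNReal.pow_ne_top (Lp.eLpNorm_ne_top g)
  rw [h1, eLpNorm_eq_lintegral_rpow_enorm_toReal (by norm_num) (by norm_num)]
  have h2 : (2 : ℝ≥0∞).toReal = 2 := by norm_num
  rw [h2, ← ENNReal.rpow_natCast, ← ENNReal.rpow_mul]
  norm_num

theorem p_LAH (h1 : Stmt_LA) (_h2 : Stmt_COC) (h3 : Stmt_MC) : Stmt_LAH := by
  intro G _ _ _ _ _ _ _ Γ _ m _ σ hσ hσm hmp V _ _ _ π U hU Ω _ μ _ t κ e ht hκ he h2e hgap L f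
    hf hfe
  set b := stdOrthonormalBasis ℂ V with hb
  have hmeas : ∀ i, Measurable fun s => ENNReal.ofReal (‖U (t s) (f i) - f i‖ ^ 2) := by
    intro i
    have h4 := h3 G Γ m σ hσ hσm hmp V π U hU (f i) (f i)
    have h5 : (fun s => ENNReal.ofReal (‖U (t s) (f i) - f i‖ ^ 2)) = fun s =>
        ENNReal.ofReal (‖f i‖ ^ 2 - 2 * (inner ℂ (f i) (U (t s) (f i)) : ℂ).re + ‖f i‖ ^ 2) := by
      funext s
      congr 1
      rw [@norm_sub_sq ℂ, LinearIsometryEquiv.norm_map]
      congr 2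
      exact congrArg (fun r : ℝ => 2 * r) (inner_re_symm (𝕜 := ℂ) (U (t s) (f i)) (f i))
    rw [h5]
    refine ENNReal.measurable_ofReal.comp ?_
    have h6 : Measurable fun s => (inner ℂ (f i) (U (t s) (f i)) : ℂ).re :=
      Complex.measurable_re.comp (h4.comp ht)
    exact (measurable_const.sub (h6.const_mul 2)).add measurable_const
  refine h1 (G ⧸ Γ) Ω m μ (fun s x => (t s)⁻¹ • x) κ e L (Module.finrank ℂ V)
    (fun x => Matrix.of fun i j => (inner ℂ (b j) (f i x) : ℂ))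
    (fun s x => Matrix.of fun i j => (inner ℂ (b j) (U (t s) (f i) x) : ℂ))
    hκ he h2e hgap ?_ ?_ ?_ ?_
  · intro i j
    simp only [Matrix.of_apply]
    exact (Lp.memLp (f i)).const_inner (𝕜 := ℂ) (b j)
  · intro s
    have h4 : ∀ᵐ x ∂m, ∀ i, U (t s) (f i) x =
        π (coc Γ σ hσ (t s) ((t s)⁻¹ • x)) (f i ((t s)⁻¹ • x)) := by
      rw [ae_all_iff]
      intro i
      exact hU (t s) (f i)
    filter_upwards [h4] with x hx
    ext a c
    rw [LAH_gram b (fun i => U (t s) (f i) x), LAH_gram b (fun i => f i ((t s)⁻¹ • x)), hx a, hx c,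
      LinearIsometryEquiv.inner_map_map]
  · intro a c
    simp only [LAH_gram b (fun i => f i _)]
    have h4 := MeasureTheory.L2.inner_def (𝕜 := ℂ) (f c) (f a)
    rw [← h4, orthonormal_iff_ite.1 hf c a]
    simp only [eq_comm]
  · simp only [LAH_hs b (fun i => U (t _) (f i) _) (fun i => f i _)]
    have h4 : ∀ s, ∫⁻ x, ENNReal.ofReal (∑ i, ‖U (t s) (f i) x - f i x‖ ^ 2) ∂m
        = ∑ i, ENNReal.ofReal (‖U (t s) (f i) - f i‖ ^ 2) := by
      intro s
      have h5 : ∀ x, ENNReal.ofReal (∑ i, ‖U (t s) (f i) x - f i x‖ ^ 2)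
          = ∑ i, ENNReal.ofReal (‖U (t s) (f i) x - f i x‖ ^ 2) := fun x =>
        ENNReal.ofReal_sum_of_nonneg fun i _ => by positivity
      simp only [h5]
      rw [lintegral_finsetSum']
      · refine Finset.sum_congr rfl fun i _ => ?_
        rw [← LAH_norm m (U (t s) (f i) - f i)]
        refine lintegral_congr_ae ?_
        filter_upwards [Lp.coeFn_sub (U (t s) (f i)) (f i)] with x hx
        rw [hx]
        rfl
      · intro i _
        have h6 := ((Lp.aestronglyMeasurable (U (t s) (f i))).sub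
          (Lp.aestronglyMeasurable (f i))).norm.aemeasurable
        exact (h6.pow_const 2).ennreal_ofReal
    simp only [h4]
    rw [lintegral_finsetSum _ fun i _ => hmeas i]
    calc ∑ i, ∫⁻ s, ENNReal.ofReal (‖U (t s) (f i) - f i‖ ^ 2) ∂μ
        ≤ ∑ _i : Fin L, ENNReal.ofReal e := Finset.sum_le_sum fun i _ => hfe i
      _ = ENNReal.ofReal (e * L) := by
        rw [Finset.sum_const, Finset.card_univ, Fintype.card_fin, mul_comm,
          ENNReal.ofReal_mul (by positivity), ENNReal.ofReal_natCast, nsmul_eq_mul]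

end Pool.TFD
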