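import Pool.Agent.Work.MP_972ac7_gen.Interface

set_option autoImplicit false

open MeasureTheory Matrix
open scoped ENNReal ComplexOrder

noncomputable section

namespace Pool.TFD

theorem p_MC (hCOC : Stmt_COC) : Stmt_MC := by
  intro G _ _ _ _ _ _ _ Γ _ m _ σ hσ hσm hm V _ _ _ π U hU v w
  obtain ⟨-, h2, h3⟩ := hCOC G Γ σ hσ hσm
  borelize V
  have hv : Measurable (⇑v) := (Lp.stronglyMeasurable v).measurable
  have hw : Measurable (⇑w) := (Lp.stronglyMeasurable w).measurable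
  have h4 : Measurable fun p : G × (G ⧸ Γ) => p.1⁻¹ • p.2 :=
    h2.comp (measurable_fst.inv.prodMk measurable_snd)
  have h5 : Measurable fun p : G × (G ⧸ Γ) => coc Γ σ hσ p.1 (p.1⁻¹ • p.2) :=
    h3.comp (measurable_fst.prodMk h4)
  have h1 : Measurable fun p : Γ × V => π p.1 p.2 :=
    measurable_from_prod_countable_right fun γ => (π γ).continuous.measurable
  have h6 : Measurable fun p : G × (G ⧸ Γ) =>
      π (coc Γ σ hσ p.1 (p.1⁻¹ • p.2)) (w (p.1⁻¹ • p.2)) :=
    h1.comp (h5.prodMk (hw.comp h4))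
  have h7 : Measurable fun p : G × (G ⧸ Γ) =>
      (inner ℂ (v p.2) (π (coc Γ σ hσ p.1 (p.1⁻¹ • p.2)) (w (p.1⁻¹ • p.2))) : ℂ) :=
    (hv.comp measurable_snd).inner h6
  have h8 := (h7.stronglyMeasurable.integral_prod_right' (ν := m)).measurable
  have h9 : (fun g => (inner ℂ v (U g w) : ℂ)) = fun g => ∫ x,
      (inner ℂ (v x) (π (coc Γ σ hσ g (g⁻¹ • x)) (w (g⁻¹ • x))) : ℂ) ∂m := by
    funext g
    rw [L2.inner_def]
    refine integral_congr_ae ?_
    filter_upwards [hU g w] with x hx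
    rw [hx]
  rw [h9]
  exact h8

end Pool.TFD
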