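import Pool.Agent.Work.MP_972ac7_gen.Interface

/-! # Block NULL: null sets of the quotient (helper58) -/

set_option autoImplicit false

open MeasureTheory Matrix
open scoped ENNReal ComplexOrder Pointwise

noncomputable section

namespace Pool.TFD

theorem p_NULL : Stmt_NULL := by
  intro G _ _ _ _ _ _ _ _ Γ m _ ν _ hpres hmeas s hs
  have hA : MeasurableSet {p : G × (G ⧸ Γ) | p.1 • p.2 ∈ s} := hmeas hs
  have h1 : (ν.prod m) {p : G × (G ⧸ Γ) | p.1 • p.2 ∈ s} = m s * ν Set.univ := by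
    rw [Measure.prod_apply hA]
    have : ∀ g : G, m (Prod.mk g ⁻¹' {p : G × (G ⧸ Γ) | p.1 • p.2 ∈ s}) = m s := by
      intro g
      have := (hpres g).measure_preimage hs.nullMeasurableSet
      exact this
    simp only [this, lintegral_const]
  have h2 : (ν.prod m) {p : G × (G ⧸ Γ) | p.1 • p.2 ∈ s} =
      ∫⁻ x, ν {g : G | g • x ∈ s} ∂m := by
    rw [Measure.prod_apply_symm hA]
    rfl
  have h3 : ∀ x : G ⧸ Γ, ν {g : G | g • x ∈ s} = 0 ↔
      ν ((fun g : G => (g : G ⧸ Γ)) ⁻¹' s) = 0 := by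
    intro x
    obtain ⟨h, rfl⟩ := QuotientGroup.mk_surjective x
    have : {g : G | g • (QuotientGroup.mk h : G ⧸ Γ) ∈ s} =
        (fun g => g * h) ⁻¹' ((fun g : G => (g : G ⧸ Γ)) ⁻¹' s) := rfl
    rw [this]
    exact measure_mul_right_null ν h
  constructor
  · intro h
    rw [h, zero_mul] at h1
    rw [h1] at h2
    have h4 : ∀ᵐ x ∂m, ν {g : G | g • x ∈ s} = 0 := by
      have hm : Measurable fun x => ν {g : G | g • x ∈ s} := measurable_measure_prodMk_right hA
      exact (lintegral_eq_zero_iff hm).1 h2.symm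
    obtain ⟨x, hx⟩ := h4.exists
    exact (h3 x).1 hx
  · intro h
    have h5 : (ν.prod m) {p : G × (G ⧸ Γ) | p.1 • p.2 ∈ s} = 0 := by
      rw [h2]
      have : ∀ x : G ⧸ Γ, ν {g : G | g • x ∈ s} = 0 := fun x => (h3 x).2 h
      simp [this]
    rw [h5] at h1
    rcases mul_eq_zero.1 h1.symm with h6 | h6
    · exact h6
    · exact absurd h6 (NeZero.ne _)

end Pool.TFD
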