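import Pool.Agent.Work.MP_972ac7_gen.Interface

/-! # Block RKT: the trace of `|F|` (helper47) -/

set_option autoImplicit false

open MeasureTheory Matrix
open scoped ENNReal ComplexOrder

noncomputable section

namespace Pool.TFD

theorem RKT_trace_sq {n : Type} [Fintype n] [DecidableEq n] {P : Matrix n n ℂ}
    (hP : P.IsHermitian) : trace (P * P) = ∑ i, ((hP.eigenvalues i : ℂ)) ^ 2 := by
  have h1 := hP.spectral_theorem
  have h2 : P * P = Unitary.conjStarAlgAut ℂ _ hP.eigenvectorUnitary
      (diagonal (fun i => ((hP.eigenvalues i : ℂ)) ^ 2)) := by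
    conv_lhs => rw [h1, ← map_mul, diagonal_mul_diagonal]
    congr 2
    funext i
    simp [sq]
  rw [h2, Unitary.conjStarAlgAut_apply, trace_mul_comm, ← Matrix.mul_assoc]
  simp [trace_diagonal]

theorem RKT_hs {a b : Type} [Fintype a] [Fintype b] (F : Matrix a b ℂ) :
    (trace (F * Fᴴ)).re = hs F := by
  unfold hs trace
  rw [Complex.re_sum]
  refine Finset.sum_congr rfl fun i _ => ?_
  rw [diag_apply, mul_apply, Complex.re_sum]
  refine Finset.sum_congr rfl fun j _ => ?_
  rw [conjTranspose_apply]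
  have : F i j * star (F i j) = ((Complex.normSq (F i j) : ℝ) : ℂ) := Complex.mul_conj _
  rw [this, Complex.ofReal_re, Complex.normSq_eq_norm_sq]

theorem p_RKT (hSQ : Stmt_SQ) : Stmt_RKT := by
  intro L k F
  obtain ⟨hP, hPP⟩ := hSQ (Fin L) k F
  set P := msq (F * Fᴴ) with hPdef
  have hH := hP.isHermitian
  have hrank : P.rank ≤ k := by
    have h1 : (Pᴴ * P).rank = P.rank := rank_conjTranspose_mul_self P
    have h2 : Pᴴ * P = F * Fᴴ := by rw [hH.eq, hPP]
    rw [← h1, h2, rank_self_mul_conjTranspose]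
    calc F.rank ≤ Fintype.card (Fin k) := rank_le_card_width F
      _ = k := Fintype.card_fin k
  have hcard : (Finset.univ.filter fun i => hH.eigenvalues i ≠ 0).card ≤ k := by
    have := hH.rank_eq_card_non_zero_eigs
    rw [Fintype.card_subtype] at this
    omega
  have htr : (trace P).re = ∑ i, hH.eigenvalues i := by
    rw [hH.trace_eq_sum_eigenvalues, Complex.re_sum]
    exact Finset.sum_congr rfl fun i _ => Complex.ofReal_re _
  have htr2 : hs F = ∑ i, hH.eigenvalues i ^ 2 := by
    rw [← RKT_hs, ← hPP, RKT_trace_sq hH, Complex.re_sum]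
    refine Finset.sum_congr rfl fun i _ => ?_
    rw [← Complex.ofReal_pow, Complex.ofReal_re]
  rw [htr, htr2, ← Real.sqrt_mul (Nat.cast_nonneg k)]
  apply Real.le_sqrt_of_sq_le
  have h3 : ∑ i, hH.eigenvalues i =
      ∑ i ∈ Finset.univ.filter (fun i => hH.eigenvalues i ≠ 0), hH.eigenvalues i := by
    rw [Finset.sum_filter]
    refine Finset.sum_congr rfl fun i _ => ?_
    split_ifs with h
    · rfl
    · push Not at h
      exact h
  rw [h3]
  calc (∑ i ∈ Finset.univ.filter (fun i => hH.eigenvalues i ≠ 0), hH.eigenvalues i) ^ 2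
      ≤ ((Finset.univ.filter fun i => hH.eigenvalues i ≠ 0).card : ℝ) *
        ∑ i ∈ Finset.univ.filter (fun i => hH.eigenvalues i ≠ 0), hH.eigenvalues i ^ 2 :=
        sq_sum_le_card_mul_sum_sq
    _ ≤ (k : ℝ) * ∑ i, hH.eigenvalues i ^ 2 := by
        apply mul_le_mul (by exact_mod_cast hcard) _ (Finset.sum_nonneg fun i _ => sq_nonneg _)
          (Nat.cast_nonneg k)
        exact Finset.sum_le_sum_of_subset_of_nonneg (Finset.filter_subset _ _)
          fun i _ _ => sq_nonneg _

end Pool.TFD
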