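import Pool.Agent.Work.MP_972ac7_gen.Interface

/-! # Block SEC (MP_972ac7_al, helper59): a measurable section of `G → G/Γ` -/

set_option autoImplicit false

open MeasureTheory Matrix
open scoped ENNReal ComplexOrder

noncomputable section

namespace Pool.TFD

theorem p_SEC : Stmt_SEC := by
  intro G _ _ _ _ _ _ _ _ Γ hΓ
  haveI := hΓ
  have hc : Countable Γ := countable_of_Lindelof_of_discrete
  refine ⟨hc, ?_⟩
  classical
  obtain ⟨W, hWo, hW⟩ := isOpen_induced_iff.1 (isOpen_discrete ({1} : Set Γ))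
  have h1W : (1 : G) ∈ W := by
    have h : (1 : Γ) ∈ Subtype.val ⁻¹' W := by rw [hW]; rfl
    exact h
  have hWΓ : ∀ x ∈ W, x ∈ Γ → x = 1 := by
    intro x hx hxΓ
    have h : (⟨x, hxΓ⟩ : Γ) ∈ (Subtype.val ⁻¹' W : Set Γ) := hx
    rw [hW] at h
    exact congrArg Subtype.val (Set.mem_singleton_iff.1 h)
  obtain ⟨O, hOo, h1O, hO⟩ : ∃ O : Set G, IsOpen O ∧ (1 : G) ∈ O ∧
      ∀ x ∈ O, ∀ y ∈ O, x⁻¹ * y ∈ W := by
    have hcont : Continuous fun p : G × G => p.1⁻¹ * p.2 := by fun_prop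
    have hop : IsOpen ((fun p : G × G => p.1⁻¹ * p.2) ⁻¹' W) := hWo.preimage hcont
    obtain ⟨u, v, hu, hv, h1u, h1v, huv⟩ := isOpen_prod_iff.1 hop 1 1 (by
      simpa using h1W)
    exact ⟨u ∩ v, hu.inter hv, ⟨h1u, h1v⟩, fun x hx y hy => huv (Set.mk_mem_prod hx.1 hy.2)⟩
  set d : ℕ → G := TopologicalSpace.denseSeq G with hd
  have hcov : ∀ x : G, ∃ i, (d i)⁻¹ * x ∈ O := by
    intro x
    have hopen : IsOpen {y : G | y⁻¹ * x ∈ O} := hOo.preimage (by fun_prop)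
    obtain ⟨i, hi⟩ := (TopologicalSpace.denseRange_denseSeq G).exists_mem_open hopen
      ⟨x, by simpa using h1O⟩
    exact ⟨i, hi⟩
  let R : ℕ → G ⧸ Γ → Prop := fun i x => ∃ h : G, (d i)⁻¹ * h ∈ O ∧ (h : G ⧸ Γ) = x
  have hR : ∀ x, ∃ i, R i x := by
    intro x
    obtain ⟨g, rfl⟩ := QuotientGroup.mk_surjective x
    obtain ⟨i, hi⟩ := hcov g
    exact ⟨i, g, hi, rfl⟩
  have huniq : ∀ i (h h' : G), (d i)⁻¹ * h ∈ O → (d i)⁻¹ * h' ∈ O →
      (h : G ⧸ Γ) = (h' : G ⧸ Γ) → h = h' := by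
    intro i h h' hh hh' he
    have h1 := hO _ hh _ hh'
    have h2 : ((d i)⁻¹ * h)⁻¹ * ((d i)⁻¹ * h') = h⁻¹ * h' := by group
    rw [h2] at h1
    have h3 := hWΓ _ h1 (QuotientGroup.eq.1 he)
    have h4 : h * (h⁻¹ * h') = h * 1 := by rw [h3]
    rw [mul_one, mul_inv_cancel_left] at h4
    exact h4.symm
  let σ : G ⧸ Γ → G := fun x => (Nat.find_spec (hR x)).choose
  have hσ1 : ∀ x, (d (Nat.find (hR x)))⁻¹ * σ x ∈ O := fun x =>
    (Nat.find_spec (hR x)).choose_spec.1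
  have hσ2 : ∀ x, (σ x : G ⧸ Γ) = x := fun x => (Nat.find_spec (hR x)).choose_spec.2
  refine ⟨σ, ?_, hσ2⟩
  have hRm : ∀ i, MeasurableSet {g : G | R i (g : G ⧸ Γ)} := by
    intro i
    have h1 : {g : G | R i (g : G ⧸ Γ)} = ⋃ γ : Γ, {g : G | (d i)⁻¹ * (g * γ) ∈ O} := by
      ext g
      simp only [Set.mem_setOf_eq, Set.mem_iUnion]
      constructor
      · rintro ⟨h, hh, he⟩
        refine ⟨⟨g⁻¹ * h, QuotientGroup.eq.1 he.symm⟩, ?_⟩
        simpa using hh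
      · rintro ⟨γ, hγ⟩
        refine ⟨g * γ, hγ, ?_⟩
        rw [QuotientGroup.eq]
        simp
    rw [h1]
    refine (isOpen_iUnion fun γ => ?_).measurableSet
    exact hOo.preimage (by fun_prop)
  have hfind : ∀ i, MeasurableSet {g : G | Nat.find (hR (g : G ⧸ Γ)) = i} := by
    intro i
    have h1 : {g : G | Nat.find (hR (g : G ⧸ Γ)) = i} =
        {g : G | R i (g : G ⧸ Γ)} \ ⋃ j ∈ Finset.range i, {g : G | R j (g : G ⧸ Γ)} := by
      ext g
      simp only [Set.mem_setOf_eq, Set.mem_diff, Set.mem_iUnion, Nat.find_eq_iff, Finset.mem_range,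
        exists_prop, not_exists, not_and]
    rw [h1]
    exact (hRm i).diff (Finset.measurableSet_biUnion _ fun j _ => hRm j)
  have hmk : Measurable fun g : G => σ (g : G ⧸ Γ) := by
    intro S hS
    have h1 : (fun g : G => σ (g : G ⧸ Γ)) ⁻¹' S = ⋃ i : ℕ, ⋃ γ : Γ,
        ({g : G | Nat.find (hR (g : G ⧸ Γ)) = i} ∩ {g : G | (d i)⁻¹ * (g * γ) ∈ O}) ∩
          {g : G | g * γ ∈ S} := by
      ext g
      simp only [Set.mem_preimage, Set.mem_iUnion, Set.mem_inter_iff, Set.mem_setOf_eq]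
      constructor
      · intro hg
        refine ⟨_, ⟨g⁻¹ * σ (g : G ⧸ Γ), QuotientGroup.eq.1 (hσ2 _).symm⟩, ⟨rfl, ?_⟩, ?_⟩
        · simpa using hσ1 (g : G ⧸ Γ)
        · simpa using hg
      · rintro ⟨i, γ, ⟨hi, hγ⟩, hS'⟩
        have h2 : σ (g : G ⧸ Γ) = g * γ := by
          refine huniq i _ _ ?_ hγ ?_
          · rw [← hi]
            exact hσ1 _
          · rw [hσ2, QuotientGroup.eq]
            simp
        rw [h2]
        exact hS'
    rw [h1]
    refine MeasurableSet.iUnion fun i => MeasurableSet.iUnion fun γ => ?_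
    refine ((hfind i).inter ?_).inter ?_
    · exact (hOo.preimage (by fun_prop)).measurableSet
    · exact hS.preimage (by fun_prop)
  exact measurable_from_quotient.2 hmk

end Pool.TFD
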