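import Pool.Agent.Work.MP_972ac7_gen.Interface

/-! # Block SPEC: the spectral subspace above `c` (MP_972ac7_al) -/

set_option autoImplicit false

open MeasureTheory Matrix
open scoped ENNReal ComplexOrder

noncomputable section

namespace Pool.TFD

/-- a subspace in which orthonormal families are bounded is finite dimensional -/
theorem SPEC_fin {H : Type} [NormedAddCommGroup H] [InnerProductSpace ℂ H] (E : Submodule ℂ H)
    (K : ℕ) (h : ∀ (L : ℕ) (f : Fin L → H), Orthonormal ℂ f → (∀ i, f i ∈ E) → L ≤ K) :
    FiniteDimensional ℂ E := by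
  by_contra hcon
  set b := Module.Basis.ofVectorSpace ℂ E with hb
  have hinf : Infinite (Module.Basis.ofVectorSpaceIndex ℂ E) := by
    rw [← not_finite_iff_infinite]
    intro hfin
    exact hcon (Module.Finite.of_basis b)
  set e : ℕ ↪ Module.Basis.ofVectorSpaceIndex ℂ E := Infinite.natEmbedding _ with he
  set v : Fin (K + 1) → E := fun i => b (e i) with hv
  have hli : LinearIndependent ℂ v := by
    refine b.linearIndependent.comp (fun i : Fin (K + 1) => e i) ?_
    intro i j hij
    exact Fin.ext (e.injective hij)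
  have hon := InnerProductSpace.gramSchmidtNormed_orthonormal (𝕜 := ℂ) hli
  have hon' := hon.comp_linearIsometry E.subtypeₗᵢ
  have h1 := h (K + 1) _ hon' (fun i => (InnerProductSpace.gramSchmidtNormed ℂ v i).2)
  omega

theorem p_SPEC : Stmt_SPEC := by
  intro H _ _ _ T c K hT hK
  set A : H →L[ℂ] H := T - (c : ℂ) • (1 : H →L[ℂ] H) with hA
  have hAsa : IsSelfAdjoint A := by
    refine hT.sub ?_
    rw [IsSelfAdjoint, star_smul, star_one]
    simp
  have hAapp : ∀ v : H, A v = T v - (c : ℂ) • v := by
    intro v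
    rw [hA]
    simp
  have hin : ∀ v : H, (inner ℂ v (A v)).re = (inner ℂ v (T v)).re - c * ‖v‖ ^ 2 := by
    intro v
    rw [hAapp, inner_sub_right, inner_smul_right, Complex.sub_re, inner_self_eq_norm_sq_to_K]
    congr 1
    norm_cast
    rw [Complex.re_ofReal_mul]
    rfl
  set P : H →L[ℂ] H := A⁺ with hP
  set N : H →L[ℂ] H := A⁻ with hN
  have hPN : P - N = A := CFC.posPart_sub_negPart A hAsa
  have hNP : N * P = 0 := CFC.negPart_mul_posPart A
  have hPpos : P.IsPositive := (ContinuousLinearMap.nonneg_iff_isPositive P).1 (CFC.posPart_nonneg A)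
  have hNpos : N.IsPositive := (ContinuousLinearMap.nonneg_iff_isPositive N).1 (CFC.negPart_nonneg A)
  have hsplit : ∀ v : H, (inner ℂ v (A v)).re = (inner ℂ v (P v)).re - (inner ℂ v (N v)).re := by
    intro v
    rw [← hPN]
    show (inner ℂ v (P v - N v)).re = _
    rw [inner_sub_right, Complex.sub_re]
  have hE : ∀ v ∈ LinearMap.range (P : H →ₗ[ℂ] H), c * ‖v‖ ^ 2 ≤ (inner ℂ v (T v)).re := by
    rintro v ⟨w, rfl⟩
    have h1 := hsplit (P w)
    have h2 : N (P w) = 0 := by
      have := congrArg (fun S : H →L[ℂ] H => S w) hNP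
      exact this
    rw [h2, inner_zero_right, Complex.zero_re, sub_zero] at h1
    have h3 : 0 ≤ (inner ℂ (P w) (P (P w))).re := hPpos.re_inner_nonneg_right (P w)
    have h4 := hin (P w)
    show c * ‖P w‖ ^ 2 ≤ (inner ℂ (P w) (T (P w))).re
    linarith
  refine ⟨LinearMap.range (P : H →ₗ[ℂ] H), ?_, ?_, ?_⟩
  · refine SPEC_fin _ K ?_
    intro L f hf hfE
    refine hK L f hf ?_
    intro i
    have h1 := hE (f i) (hfE i)
    rw [hf.1 i] at h1
    linarith
  · intro U hU v hv
    obtain ⟨w, rfl⟩ := hv
    have hcomm : Commute A U := by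
      have h1 : T * U = U * T := hU.symm
      show A * U = U * A
      rw [hA, sub_mul, mul_sub, h1]
      simp
    have h2 : Commute P U := by
      rw [hP, CFC.posPart_def]
      exact hcomm.cfcₙ_real _
    refine ⟨U w, ?_⟩
    have h3 : P * U = U * P := h2
    have h4 := congrArg (fun S : H →L[ℂ] H => S w) h3
    exact h4
  · intro v hv
    have hPv : P v = 0 := by
      have h1 : ∀ x : H, inner ℂ x (P v) = (0 : ℂ) := by
        intro x
        have h2 : inner ℂ (P x) v = (0 : ℂ) := hv (P x) ⟨x, rfl⟩
        have h3 := hPpos.isSymmetric x v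
        rw [← h2]
        exact h3.symm
      have := h1 (P v)
      exact inner_self_eq_zero.1 this
    have h1 := hsplit v
    rw [hPv, inner_zero_right, Complex.zero_re, zero_sub] at h1
    have h2 : 0 ≤ (inner ℂ v (N v)).re := hNpos.re_inner_nonneg_right v
    have h3 := hin v
    linarith

end Pool.TFD
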