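import Pool.Agent.Work.MP_972ac7_gen.Interface

/-! # Block SQ: the positive semidefinite square root exists (helper47) -/

set_option autoImplicit false

open MeasureTheory Matrix
open scoped ENNReal ComplexOrder

noncomputable section

namespace Pool.TFD

open scoped MatrixOrder in
theorem SQ_exists {n : Type} [Fintype n] [DecidableEq n] {M : Matrix n n ℂ} (hM : M.PosSemidef) :
    ∃ P : Matrix n n ℂ, P.PosSemidef ∧ P * P = M := by
  refine ⟨CFC.sqrt M, (CFC.sqrt_nonneg M).posSemidef, ?_⟩
  exact CFC.sqrt_mul_sqrt_self M hM.nonneg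

theorem SQ_msq {n : Type} [Fintype n] [DecidableEq n] {M : Matrix n n ℂ} (hM : M.PosSemidef) :
    (msq M).PosSemidef ∧ msq M * msq M = M := by
  have h := SQ_exists hM
  unfold msq
  rw [dif_pos h]
  exact h.choose_spec

theorem p_SQ : Stmt_SQ := by
  intro n _ _ k F
  exact SQ_msq (posSemidef_self_mul_conjTranspose F)

end Pool.TFD
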