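import Pool.Agent.Work.MP_972ac7_gen.Interface

/-! # Block STN: Steinhaus for two sets (helper58) -/

set_option autoImplicit false

open MeasureTheory Matrix
open scoped ENNReal ComplexOrder Pointwise Topology

noncomputable section

namespace Pool.TFD

theorem p_STN : Stmt_STN := by
  intro G _ _ _ _ _ _ _ _ ν _ E F hE hF hE0 hF0
  -- a translate with large intersection
  have hex : ∃ h : G, ν {x | x ∈ F ∧ x * h⁻¹ ∈ E} ≠ 0 := by
    by_contra hcon
    push Not at hcon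
    have hA : MeasurableSet {p : G × G | p.2 ∈ F ∧ p.2 * p.1⁻¹ ∈ E} :=
      (measurable_snd hF).inter ((measurable_snd.mul measurable_fst.inv) hE)
    have h1 : (ν.prod ν) {p : G × G | p.2 ∈ F ∧ p.2 * p.1⁻¹ ∈ E} = 0 := by
      rw [Measure.prod_apply hA]
      have : ∀ h : G, ν (Prod.mk h ⁻¹' {p : G × G | p.2 ∈ F ∧ p.2 * p.1⁻¹ ∈ E}) = 0 :=
        fun h => hcon h
      rw [lintegral_congr this, lintegral_zero]
    rw [Measure.prod_apply_symm hA] at h1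
    have hm : Measurable fun x : G => ν ((fun h => (h, x)) ⁻¹'
        {p : G × G | p.2 ∈ F ∧ p.2 * p.1⁻¹ ∈ E}) := measurable_measure_prodMk_right hA
    have h2 := (lintegral_eq_zero_iff hm).1 h1
    have h3 : ∃ x ∈ F, ν ((fun h => (h, x)) ⁻¹' {p : G × G | p.2 ∈ F ∧ p.2 * p.1⁻¹ ∈ E}) = 0 := by
      by_contra hne
      push Not at hne
      apply hF0
      refine measure_mono_null ?_ h2
      intro x hx
      exact hne x hx
    obtain ⟨x, hxF, hx⟩ := h3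
    have h4 : (fun h => (h, x)) ⁻¹' {p : G × G | p.2 ∈ F ∧ p.2 * p.1⁻¹ ∈ E} =
        ((fun y => x * y) ⁻¹' E)⁻¹ := by
      ext h
      simp [hxF]
    rw [h4, measure_inv_null, measure_preimage_mul] at hx
    exact hE0 hx
  obtain ⟨h0, hh0⟩ := hex
  set W : Set G := {x | x ∈ F ∧ x * h0⁻¹ ∈ E} with hW
  have hWm : MeasurableSet W := hF.inter ((measurable_id.mul_const _) hE)
  have hWi : 0 < ν W⁻¹ := by
    rw [pos_iff_ne_zero]
    intro h
    exact hh0 ((measure_inv_null ν).1 h)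
  have hn : W⁻¹ / W⁻¹ ∈ 𝓝 (1 : G) :=
    Measure.div_mem_nhds_one_of_haar_pos ν W⁻¹ hWm.inv hWi
  refine ⟨(fun y => h0 * y) '' interior (W⁻¹ / W⁻¹), ?_, ?_, ?_⟩
  · exact (Homeomorph.mulLeft h0).isOpenMap _ isOpen_interior
  · exact ⟨_, ⟨1, mem_interior_iff_mem_nhds.2 hn, rfl⟩⟩
  · rintro h ⟨y, hy, rfl⟩
    obtain ⟨a, ha, b, hb, hab⟩ := Set.mem_div.1 (interior_subset hy)
    have ha' : a⁻¹ ∈ W := ha
    have hb' : b⁻¹ ∈ W := hb
    refine ⟨a⁻¹ * h0⁻¹, ha'.2, b⁻¹, hb'.1, ?_⟩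
    change (a⁻¹ * h0⁻¹)⁻¹ * b⁻¹ = h0 * y
    rw [← hab, div_eq_mul_inv]
    group

end Pool.TFD
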