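import Pool.Agent.Work.MP_972ac7_gen.Interface

/-! # Block TAU: property (T;FD) implies property tau (helper68) -/

set_option autoImplicit false

open MeasureTheory Matrix
open scoped ENNReal ComplexOrder

noncomputable section

namespace Pool.TFD

section tau

variable {Λ : Type} [Group Λ] (N : Subgroup Λ) [N.Normal] [Fintype (Λ ⧸ N)]

/-- The functions with sum zero. -/
def TAU_W : Submodule ℂ (EuclideanSpace ℂ (Λ ⧸ N)) where
  carrier := {f | ∑ x, f x = 0}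
  add_mem' := by
    intro f g hf hg
    simp only [Set.mem_ofPred_eq] at hf hg ⊢
    simp [Finset.sum_add_distrib, hf, hg]
  zero_mem' := by simp
  smul_mem' := by
    intro c f hf
    simp only [Set.mem_ofPred_eq] at hf ⊢
    simp [← Finset.mul_sum, hf]

/-- Translation. -/
def TAU_R (q : Λ) : EuclideanSpace ℂ (Λ ⧸ N) ≃ₗᵢ[ℂ] EuclideanSpace ℂ (Λ ⧸ N) :=
  LinearIsometryEquiv.piLpCongrLeft 2 ℂ ℂ (MulAction.toPerm q : Equiv.Perm (Λ ⧸ N))

theorem TAU_R_apply (q : Λ) (f : EuclideanSpace ℂ (Λ ⧸ N)) (x : Λ ⧸ N) :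
    TAU_R N q f x = f (q⁻¹ • x) := rfl

theorem TAU_R_mem (q : Λ) (f : EuclideanSpace ℂ (Λ ⧸ N)) (hf : f ∈ TAU_W N) :
    TAU_R N q f ∈ TAU_W N := by
  change ∑ x, TAU_R N q f x = 0
  simp only [TAU_R_apply]
  rw [← hf]
  exact Equiv.sum_comp (MulAction.toPerm q⁻¹ : Equiv.Perm (Λ ⧸ N)) (fun x => f x)

/-- Translation on the functions with sum zero. -/
def TAU_pi (q : Λ) : TAU_W N ≃ₗᵢ[ℂ] TAU_W N where
  toFun f := ⟨TAU_R N q f, TAU_R_mem N q f f.2⟩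
  invFun f := ⟨TAU_R N q⁻¹ f, TAU_R_mem N q⁻¹ f f.2⟩
  map_add' f g := by
    apply Subtype.ext
    simp
  map_smul' c f := by
    apply Subtype.ext
    simp
  left_inv f := by
    apply Subtype.ext
    ext x
    simp [TAU_R_apply]
  right_inv f := by
    apply Subtype.ext
    ext x
    simp [TAU_R_apply]
  norm_map' f := (TAU_R N q).norm_map f

theorem TAU_pi_apply (q : Λ) (f : TAU_W N) (x : Λ ⧸ N) :
    (TAU_pi N q f : EuclideanSpace ℂ (Λ ⧸ N)) x = (f : EuclideanSpace ℂ (Λ ⧸ N)) (q⁻¹ • x) := rfl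

/-- The representation. -/
def TAU_hom : Λ →* (TAU_W N ≃ₗᵢ[ℂ] TAU_W N) where
  toFun := TAU_pi N
  map_one' := by
    ext f x
    rw [TAU_pi_apply]
    simp
  map_mul' a b := by
    ext f x
    rw [TAU_pi_apply]
    change _ = (TAU_pi N a (TAU_pi N b f) : EuclideanSpace ℂ (Λ ⧸ N)) x
    rw [TAU_pi_apply, TAU_pi_apply, _root_.mul_inv_rev, mul_smul]

end tau

theorem p_TAU : Stmt_TAU := by
  intro Λ _ ⟨Q, ε, hε, H⟩
  refine ⟨Q, ε, hε, ?_⟩
  intro N _ _ v hv0 hv1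
  set w : TAU_W N := ⟨WithLp.toLp 2 v, hv0⟩ with hw
  have hinv : ∀ f : TAU_W N, (∀ γ, TAU_hom N γ f = f) → f = 0 := by
    intro f hf
    have h1 : ∀ x : Λ ⧸ N, (f : EuclideanSpace ℂ (Λ ⧸ N)) x =
        (f : EuclideanSpace ℂ (Λ ⧸ N)) ((1 : Λ) : Λ ⧸ N) := by
      intro x
      obtain ⟨γ, rfl⟩ := QuotientGroup.mk_surjective x
      have h2 := congrArg (fun g : TAU_W N => (g : EuclideanSpace ℂ (Λ ⧸ N)) (γ : Λ ⧸ N)) (hf γ)
      change (TAU_pi N γ f : EuclideanSpace ℂ (Λ ⧸ N)) (γ : Λ ⧸ N) = _ at h2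
      have h3 : γ⁻¹ • (γ : Λ ⧸ N) = ((1 : Λ) : Λ ⧸ N) := by
        change ((γ⁻¹ * γ : Λ) : Λ ⧸ N) = _
        rw [inv_mul_cancel]
      rw [TAU_pi_apply, h3] at h2
      exact h2.symm
    have h3 : ∑ x, (f : EuclideanSpace ℂ (Λ ⧸ N)) x = 0 := f.2
    simp only [h1, Finset.sum_const, Finset.card_univ, nsmul_eq_mul] at h3
    rcases mul_eq_zero.mp h3 with h4 | h4
    · exfalso
      have h5 : Fintype.card (Λ ⧸ N) = 0 := by exact_mod_cast h4
      rw [Fintype.card_eq_zero_iff] at h5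
      exact h5.false ((1 : Λ) : Λ ⧸ N)
    · apply Subtype.ext
      ext x
      rw [h1 x, h4]
      rfl
  obtain ⟨q, hq, hle⟩ := H (TAU_W N) (TAU_hom N) hinv w
  refine ⟨q, hq, ?_⟩
  have hn : ‖w‖ = 1 := by
    have h1 : ‖w‖ ^ 2 = 1 := by
      change ‖(w : EuclideanSpace ℂ (Λ ⧸ N))‖ ^ 2 = 1
      rw [EuclideanSpace.norm_sq_eq]
      exact hv1
    have h2 : 0 ≤ ‖w‖ := norm_nonneg w
    nlinarith
  rw [hn, mul_one] at hle
  have h3 : ‖TAU_hom N q w - w‖ ^ 2 = ∑ x, ‖v (q⁻¹ • x) - v x‖ ^ 2 := by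
    change ‖(TAU_hom N q w - w : TAU_W N).1‖ ^ 2 = _
    rw [EuclideanSpace.norm_sq_eq]
    rfl
  rw [← h3]
  exact pow_le_pow_left₀ hε.le hle 2

end Pool.TFD
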