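import Pool.Agent.Work.MP_972ac7_gen.Interface

/-!
# MP_972ac7_al (general theorem): block TRA (helper62)
-/

set_option autoImplicit false

open MeasureTheory Matrix
open scoped ENNReal ComplexOrder MatrixOrder Matrix.Norms.L2Operator

noncomputable section

namespace Pool.TFD

theorem TRA_hs {n : Type} [Fintype n] (A : Matrix n n ℂ) (hA : A.IsHermitian) :
    hs A = (trace (A * A)).re := by
  unfold hs
  rw [trace]
  simp only [diag_apply, mul_apply]
  rw [Complex.re_sum]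
  refine Finset.sum_congr rfl fun i _ => ?_
  rw [Complex.re_sum]
  refine Finset.sum_congr rfl fun j _ => ?_
  have h1 : A j i = (starRingEnd ℂ) (A i j) := by
    have := congrFun (congrFun hA.eq j) i
    rw [conjTranspose_apply] at this
    exact this.symm
  rw [h1, Complex.mul_conj, Complex.ofReal_re, Complex.normSq_eq_norm_sq]

theorem TRA_psd {n : Type} [Fintype n] [DecidableEq n] (X P : Matrix n n ℂ)
    (hX : X.IsHermitian) (hP : P.PosSemidef) (h : P * P = X * X) : (P + X).PosSemidef := by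
  have hH : (P + X).IsHermitian := hP.1.add hX
  rw [hH.posSemidef_iff_eigenvalues_nonneg]
  intro i
  by_contra hneg
  have ht : hH.eigenvalues i < 0 := not_le.1 hneg
  obtain ⟨t, htdef⟩ : ∃ t : ℝ, t = hH.eigenvalues i := ⟨_, rfl⟩
  obtain ⟨v, hvdef⟩ : ∃ v : n → ℂ, v = ⇑(hH.eigenvectorBasis i) := ⟨_, rfl⟩
  have hv : (P + X) *ᵥ v = (t : ℂ) • v := by
    have := hH.mulVec_eigenvectorBasis i
    rw [← hvdef, ← htdef] at this
    rw [this]
    ext j
    simp
  have hXv : X *ᵥ v = (t : ℂ) • v - P *ᵥ v := by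
    rw [add_mulVec] at hv
    rw [← hv]
    simp
  have hq : 0 ≤ (star v ⬝ᵥ (P *ᵥ v)).re := (Complex.le_def.1 (hP.dotProduct_mulVec_nonneg v)).1
  have hself : ∀ Y : Matrix n n ℂ, Y.IsHermitian →
      star (Y *ᵥ v) ⬝ᵥ (Y *ᵥ v) = star v ⬝ᵥ ((Y * Y) *ᵥ v) := by
    intro Y hY
    rw [star_mulVec, hY.eq, ← mulVec_mulVec, dotProduct_mulVec (star v)]
  have h1 : star (X *ᵥ v) ⬝ᵥ (X *ᵥ v) = star (P *ᵥ v) ⬝ᵥ (P *ᵥ v) := by
    rw [hself X hX, hself P hP.1, h]
  have h2 : star (P *ᵥ v) ⬝ᵥ v = star v ⬝ᵥ (P *ᵥ v) := by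
    rw [star_mulVec, hP.1.eq, dotProduct_mulVec]
  rw [hXv] at h1
  simp only [star_sub, star_smul, sub_dotProduct, dotProduct_sub, smul_dotProduct,
    dotProduct_smul, smul_eq_mul, h2] at h1
  have h3 : (t : ℂ) * ((t : ℂ) * (star v ⬝ᵥ v)) = 2 * ((t : ℂ) * (star v ⬝ᵥ (P *ᵥ v))) := by
    have h4 : (star (t : ℂ)) = (t : ℂ) := Complex.conj_ofReal t
    rw [h4] at h1
    linear_combination h1
  have h5 := congrArg Complex.re h3
  have h6 : ((t : ℂ) * ((t : ℂ) * (star v ⬝ᵥ v))).re = t * (t * (star v ⬝ᵥ v).re) := by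
    rw [Complex.re_ofReal_mul, Complex.re_ofReal_mul]
  have h7 : (2 * ((t : ℂ) * (star v ⬝ᵥ (P *ᵥ v)))).re = 2 * (t * (star v ⬝ᵥ (P *ᵥ v)).re) := by
    have : (2 : ℂ) = ((2 : ℝ) : ℂ) := by norm_num
    rw [this, Complex.re_ofReal_mul, Complex.re_ofReal_mul]
  rw [h6, h7] at h5
  have ht' : t < 0 := by rw [htdef]; exact ht
  have h8 : (star v ⬝ᵥ v).re = 1 := by
    have h9 : ‖hH.eigenvectorBasis i‖ = 1 := hH.eigenvectorBasis.orthonormal.1 i
    rw [EuclideanSpace.norm_eq, Real.sqrt_eq_one] at h9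
    rw [dotProduct, Complex.re_sum, ← h9]
    refine Finset.sum_congr rfl fun j _ => ?_
    rw [Pi.star_apply, hvdef]
    have : (star (hH.eigenvectorBasis i j) : ℂ) * hH.eigenvectorBasis i j =
        ((‖hH.eigenvectorBasis i j‖ ^ 2 : ℝ) : ℂ) := by
      rw [mul_comm]
      exact_mod_cast Complex.mul_conj' (hH.eigenvectorBasis i j)
    rw [this, Complex.ofReal_re]
  rw [h8] at h5
  nlinarith [mul_nonneg (neg_nonneg.2 ht'.le) hq, mul_pos_of_neg_of_neg ht' ht']

theorem TRA_tr {n : Type} [Fintype n] [DecidableEq n] (A B : Matrix n n ℂ)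
    (hA : A.PosSemidef) (hB : B.PosSemidef) : 0 ≤ (trace (A * B)).re := by
  obtain ⟨D, rfl⟩ := CStarAlgebra.nonneg_iff_eq_star_mul_self.mp hB.nonneg
  have h1 := (hA.mul_mul_conjTranspose_same D).trace_nonneg
  have h2 : trace (A * (star D * D)) = trace (D * A * Dᴴ) := by
    rw [star_eq_conjTranspose, ← Matrix.mul_assoc, trace_mul_comm, ← Matrix.mul_assoc]
  rw [h2]
  exact (Complex.le_def.1 h1).1

theorem p_TRA : Stmt_TRA := by
  intro n _ _ X Y P Q hX hY hP hQ hPX hQY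
  have h1 : 0 ≤ (trace ((P + X) * (Q + -Y))).re := by
    refine TRA_tr _ _ (TRA_psd X P hX hP hPX) (TRA_psd (-Y) Q hY.neg hQ ?_)
    rw [hQY, neg_mul_neg]
  have h2 : 0 ≤ (trace ((P + -X) * (Q + Y))).re := by
    refine TRA_tr _ _ (TRA_psd (-X) P hX.neg hP ?_) (TRA_psd Y Q hY hQ hQY)
    rw [hPX, neg_mul_neg]
  rw [TRA_hs _ (hP.1.sub hQ.1), TRA_hs _ (hX.sub hY)]
  have h3 : trace ((P - Q) * (P - Q)) = trace (P * P) + trace (Q * Q) - 2 * trace (P * Q) := by
    rw [Matrix.sub_mul, Matrix.mul_sub, Matrix.mul_sub, trace_sub, trace_sub, trace_sub,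
      trace_mul_comm Q P]
    ring
  have h4 : trace ((X - Y) * (X - Y)) = trace (X * X) + trace (Y * Y) - 2 * trace (X * Y) := by
    rw [Matrix.sub_mul, Matrix.mul_sub, Matrix.mul_sub, trace_sub, trace_sub, trace_sub,
      trace_mul_comm Y X]
    ring
  have h5 : trace ((P + X) * (Q + -Y)) + trace ((P + -X) * (Q + Y)) =
      2 * trace (P * Q) - 2 * trace (X * Y) := by
    simp only [Matrix.add_mul, Matrix.mul_add, trace_add, Matrix.neg_mul, Matrix.mul_neg, trace_neg]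
    ring
  have h6 := congrArg Complex.re h5
  rw [h3, h4, hPX, hQY]
  simp only [Complex.add_re, Complex.sub_re] at h6 ⊢
  linarith

end Pool.TFD
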