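import Pool.Agent.Work.MP_972ac7_gen.Interface

/-! # Block TRIV: finite dimensional invariant subspaces are fixed pointwise -/

set_option autoImplicit false

open MeasureTheory Matrix
open scoped ENNReal ComplexOrder

noncomputable section

namespace Pool.TFD

theorem TRIV_expand {H : Type} [NormedAddCommGroup H] [InnerProductSpace ℂ H]
    {E : Submodule ℂ H} {d : ℕ} (b : OrthonormalBasis (Fin d) ℂ E) (x : H) (hx : x ∈ E) :
    ∑ k, (inner ℂ (b k : H) x : ℂ) • (b k : H) = x := by
  have h := congrArg (fun y : E => (y : H)) (b.sum_repr' ⟨x, hx⟩)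
  simpa [Submodule.coe_inner] using h

theorem p_TRIV (h1 : Stmt_AC) : Stmt_TRIV := by
  intro G _ _ _ _ _ _ _ _ hG H _ _ _ W hW E hE hinv g v hv
  let b := stdOrthonormalBasis ℂ E
  let M : G → Matrix (Fin (Module.finrank ℂ E)) (Fin (Module.finrank ℂ E)) ℂ :=
    fun g => Matrix.of fun i j => (inner ℂ (b i : H) (W g (b j : H)) : ℂ)
  have hM1 : M 1 = 1 := by
    ext i j
    have : (inner ℂ (b i : H) (b j : H) : ℂ) = if i = j then 1 else 0 := by
      rw [← Submodule.coe_inner]
      exact orthonormal_iff_ite.1 b.orthonormal i j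
    simp only [M, Matrix.of_apply, map_one, Matrix.one_apply]
    exact this
  have hMm : ∀ g h : G, M (g * h) = M g * M h := by
    intro g h
    ext i j
    rw [Matrix.mul_apply]
    simp only [M, Matrix.of_apply]
    rw [map_mul]
    have h2 : W h (b j : H) = ∑ k, (inner ℂ (b k : H) (W h (b j : H)) : ℂ) • (b k : H) :=
      (TRIV_expand b _ (hinv h _ (b j).2)).symm
    change (inner ℂ (b i : H) (W g (W h (b j : H))) : ℂ) = _
    conv_lhs => rw [h2]
    rw [map_sum, inner_sum]
    apply Finset.sum_congr rfl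
    intro k _
    rw [map_smul, inner_smul_right, mul_comm]
  have hMs : ∀ g : G, (M g)ᴴ = M g⁻¹ := by
    intro g
    ext i j
    rw [Matrix.conjTranspose_apply]
    simp only [M, Matrix.of_apply]
    have h3 : (inner ℂ (W g (b i : H)) (b j : H) : ℂ) = inner ℂ (b i : H) (W g⁻¹ (b j : H)) := by
      have h4 := (W g).inner_map_map (b i : H) (W g⁻¹ (b j : H))
      rw [← h4]
      congr 1
      rw [map_inv]
      exact (LinearIsometryEquiv.apply_symm_apply _ _).symm
    rw [← h3]
    exact inner_conj_symm _ _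
  have hMu : ∀ g : G, M g ∈ unitaryGroup (Fin (Module.finrank ℂ E)) ℂ := by
    intro g
    rw [Matrix.mem_unitaryGroup_iff]
    change M g * (M g)ᴴ = 1
    rw [hMs, ← hMm, mul_inv_cancel, hM1]
  let ρ : G →* unitaryGroup (Fin (Module.finrank ℂ E)) ℂ :=
    { toFun := fun g => ⟨M g, hMu g⟩
      map_one' := Subtype.ext hM1
      map_mul' := fun g h => Subtype.ext (hMm g h) }
  have hρc : Continuous ρ := h1 G _ ρ (fun i j => hW _ _)
  have hρ1 : M g = 1 := congrArg Subtype.val (hG _ ρ hρc g)
  have hb : ∀ j, W g (b j : H) = (b j : H) := by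
    intro j
    rw [← TRIV_expand b _ (hinv g _ (b j).2)]
    have h5 : ∀ k, (inner ℂ (b k : H) (W g (b j : H)) : ℂ) = if k = j then 1 else 0 := by
      intro k
      have := congrFun (congrFun hρ1 k) j
      simpa only [M, Matrix.of_apply, Matrix.one_apply] using this
    simp [h5]
  conv_lhs => rw [← TRIV_expand b v hv]
  rw [map_sum]
  conv_rhs => rw [← TRIV_expand b v hv]
  apply Finset.sum_congr rfl
  intro k _
  rw [map_smul, hb]

end Pool.TFD
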