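import Pool.Agent.Work.MP_972ac7_gen.B_AC
import Pool.Agent.Work.MP_972ac7_gen.B_AY
import Pool.Agent.Work.MP_972ac7_gen.B_CK
import Pool.Agent.Work.MP_972ac7_gen.B_COC
import Pool.Agent.Work.MP_972ac7_gen.B_ERG
import Pool.Agent.Work.MP_972ac7_gen.B_ERGS
import Pool.Agent.Work.MP_972ac7_gen.B_EXE
import Pool.Agent.Work.MP_972ac7_gen.B_FIN
import Pool.Agent.Work.MP_972ac7_gen.B_FIX
import Pool.Agent.Work.MP_972ac7_gen.B_GAPC
import Pool.Agent.Work.MP_972ac7_gen.B_GAPV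
import Pool.Agent.Work.MP_972ac7_gen.B_INV
import Pool.Agent.Work.MP_972ac7_gen.B_LA
import Pool.Agent.Work.MP_972ac7_gen.B_LAC
import Pool.Agent.Work.MP_972ac7_gen.B_LAG
import Pool.Agent.Work.MP_972ac7_gen.B_LAH
import Pool.Agent.Work.MP_972ac7_gen.B_MC
import Pool.Agent.Work.MP_972ac7_gen.B_NULL
import Pool.Agent.Work.MP_972ac7_gen.B_REP
import Pool.Agent.Work.MP_972ac7_gen.B_RKT
import Pool.Agent.Work.MP_972ac7_gen.B_SEC
import Pool.Agent.Work.MP_972ac7_gen.B_SLICE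
import Pool.Agent.Work.MP_972ac7_gen.B_SPEC
import Pool.Agent.Work.MP_972ac7_gen.B_SQ
import Pool.Agent.Work.MP_972ac7_gen.B_STN
import Pool.Agent.Work.MP_972ac7_gen.B_TAU
import Pool.Agent.Work.MP_972ac7_gen.B_TOP
import Pool.Agent.Work.MP_972ac7_gen.B_TRA
import Pool.Agent.Work.MP_972ac7_gen.B_TRANS
import Pool.Agent.Work.MP_972ac7_gen.B_TRIV
import Pool.Agent.Work.MP_972ac7_gen.Comm

/-! # Assembly of the general theorem (MP_972ac7_al) -/

set_option autoImplicit false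

open MeasureTheory Matrix

namespace Pool.TFD

theorem all_LA : Stmt_LA :=
  p_LA p_SQ (p_LAG p_SQ (p_AY p_SQ p_TRA)) (p_LAC p_SQ (p_RKT p_SQ))

theorem all_MC : Stmt_MC := p_MC p_COC

theorem all_REP : Stmt_REP := p_REP p_COC

theorem all_LAH : Stmt_LAH := p_LAH all_LA p_COC all_MC

theorem all_EXE : Stmt_EXE := p_EXE p_SPEC p_TOP all_MC all_LAH

theorem all_FIX : Stmt_FIX := p_FIX p_COC p_NULL

theorem all_TRIV : Stmt_TRIV := p_TRIV p_AC

theorem all_ERG : Stmt_ERG := p_ERG (p_ERGS p_NULL p_STN p_SLICE)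

theorem all_GAPC : Stmt_GAPC := p_GAPC p_CK p_COC all_REP all_MC

theorem all_GAPV : Stmt_GAPV := p_GAPV all_EXE all_TRIV all_MC p_INV all_FIX

theorem all_TRANS : Stmt_TRANS := p_TRANS p_COC all_REP

theorem all_RESULT : Stmt_RESULT := p_FIN p_SEC p_COC all_ERG all_GAPC all_GAPV all_TRANS p_TAU

end Pool.TFD
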