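import Mathlib

/-! # Property (T;FD) and property tau from one strong spectral gap (MP_972ac7_al, note 2900) -/

set_option autoImplicit false

open MeasureTheory Matrix
open scoped ENNReal ComplexOrder

noncomputable section

namespace Pool.TFD

/-- Every continuous finite dimensional unitary representation of `G` is trivial. -/
def NoFD (G : Type) [Group G] [TopologicalSpace G] : Prop :=
  ∀ (d : ℕ) (ρ : G →* unitaryGroup (Fin d) ℂ), Continuous ρ → ∀ g, ρ g = 1

/-- Property (T;FD): there are a finite set `Q` and `ε > 0` such that in every finite dimensional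
unitary representation without nonzero invariant vectors every vector is moved by `ε` times its norm
by some element of `Q`. -/
def PropTFD (Λ : Type) [Group Λ] : Prop :=
  ∃ (Q : Finset Λ) (ε : ℝ), 0 < ε ∧
    ∀ (V : Type) [NormedAddCommGroup V] [InnerProductSpace ℂ V] [FiniteDimensional ℂ V]
      (π : Λ →* (V ≃ₗᵢ[ℂ] V)), (∀ v : V, (∀ γ, π γ v = v) → v = 0) →
      ∀ v : V, ∃ q ∈ Q, ε * ‖v‖ ≤ ‖π q v - v‖

/-- Property tau (with respect to all normal subgroups `N` of finite index): the vectors of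
`L²₀(Λ/N)` of norm one are moved by `ε` by some element of `Q`. -/
def PropTau (Λ : Type) [Group Λ] : Prop :=
  ∃ (Q : Finset Λ) (ε : ℝ), 0 < ε ∧
    ∀ (N : Subgroup Λ) [N.Normal] [Fintype (Λ ⧸ N)] (v : Λ ⧸ N → ℂ),
      ∑ x, v x = 0 → ∑ x, ‖v x‖ ^ 2 = 1 →
      ∃ q ∈ Q, ε ^ 2 ≤ ∑ x, ‖v (q⁻¹ • x) - v x‖ ^ 2

/-- The second factor has a spectral gap on `L²₀(G/Γ)`, `G = GA × GB` (strong spectral gap): a
compact set `K` of the second factor and `δ > 0` such that every `φ` in `L²(G/Γ)` with integral zero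
is moved by `δ` times its norm by some `k` in `K`. -/
def StrongGap {GA GB : Type} [Group GA] [Group GB] [TopologicalSpace GB] [MeasurableSpace GA]
    [MeasurableSpace GB] (Γ : Subgroup (GA × GB)) (m : Measure ((GA × GB) ⧸ Γ)) : Prop :=
  ∃ K : Set GB, IsCompact K ∧ ∃ δ : ℝ, 0 < δ ∧ ∀ φ : (GA × GB) ⧸ Γ → ℂ, MemLp φ 2 m →
    ∫ x, φ x ∂m = 0 → ∃ k ∈ K,
      δ ^ 2 * ∫ x, ‖φ x‖ ^ 2 ∂m ≤ ∫ x, ‖φ (((1, k) : GA × GB)⁻¹ • x) - φ x‖ ^ 2 ∂m

/-- The final statement: an irreducible lattice in a product of two locally compact groups without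
finite dimensional unitary representations has property (T;FD) and property tau, as soon as one of
the factors has a spectral gap on `L²₀(G/Γ)`. -/
def Stmt_RESULT : Prop :=
  ∀ (GA GB : Type)
    [Group GA] [TopologicalSpace GA] [IsTopologicalGroup GA] [LocallyCompactSpace GA]
    [SecondCountableTopology GA] [T2Space GA] [MeasurableSpace GA] [BorelSpace GA]
    [Group GB] [TopologicalSpace GB] [IsTopologicalGroup GB] [LocallyCompactSpace GB]
    [SecondCountableTopology GB] [T2Space GB] [MeasurableSpace GB] [BorelSpace GB]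
    (Γ : Subgroup (GA × GB)) (m : Measure ((GA × GB) ⧸ Γ)),
    DiscreteTopology Γ → IsProbabilityMeasure m → (∀ g : GA × GB, MeasurePreserving (fun x => g • x) m m) →
    Dense (Set.range fun γ : Γ => (γ : GA × GB).2) → NoFD GA → NoFD GB → StrongGap Γ m →
    PropTFD Γ ∧ PropTau Γ

/-! ## Auxiliary definitions -/

/-- Squared Hilbert-Schmidt norm. -/
def hs {a b : Type} [Fintype a] [Fintype b] (A : Matrix a b ℂ) : ℝ := ∑ i, ∑ j, ‖A i j‖ ^ 2

open Classical in
/-- A positive semidefinite square root (of a positive semidefinite matrix). -/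
def msq {n : Type} [Fintype n] (M : Matrix n n ℂ) : Matrix n n ℂ :=
  if h : ∃ P : Matrix n n ℂ, P.PosSemidef ∧ P * P = M then h.choose else 0

/-- The maps `T s`, `s ∈ Ω` (with the measure `μ`), have the gap `κ` on `L²₀(X)`. -/
def GapX {X Ω : Type} [MeasurableSpace X] [MeasurableSpace Ω] (m : Measure X) (μ : Measure Ω)
    (T : Ω → X → X) (κ : ℝ) : Prop :=
  ∀ φ : X → ℂ, MemLp φ 2 m →
    ENNReal.ofReal κ * ∫⁻ x, ‖φ x - ∫ y, φ y ∂m‖ₑ ^ 2 ∂m ≤
      ∫⁻ s, ∫⁻ x, ‖φ (T s x) - φ x‖ₑ ^ 2 ∂m ∂μ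

section coc

variable {G : Type} [Group G] (Γ : Subgroup G)

/-- The cocycle of a section `σ` of `G → G ⧸ Γ`: `g σ(x) = σ(g x) c(g, x)`. -/
def coc (σ : G ⧸ Γ → G) (hσ : ∀ x, (σ x : G ⧸ Γ) = x) (g : G) (x : G ⧸ Γ) : Γ :=
  ⟨(σ (g • x))⁻¹ * (g * σ x), by
    have h : ((σ (g • x) : G) : G ⧸ Γ) = ((g * σ x : G) : G ⧸ Γ) := by
      rw [hσ]
      conv_lhs => rw [← hσ x]
      rfl
    exact QuotientGroup.eq.1 h⟩

/-- `U` is the unitary representation of `G` on `L²(G/Γ; V)` induced from the unitary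
representation `π` of `Γ`, in the trivialization given by the section `σ`. -/
def IsInd [MeasurableSpace G] (m : Measure (G ⧸ Γ)) (σ : G ⧸ Γ → G)
    (hσ : ∀ x, (σ x : G ⧸ Γ) = x) (V : Type) [NormedAddCommGroup V] [InnerProductSpace ℂ V]
    (π : Γ →* (V ≃ₗᵢ[ℂ] V)) (U : G →* (Lp V 2 m ≃ₗᵢ[ℂ] Lp V 2 m)) : Prop :=
  ∀ (g : G) (f : Lp V 2 m),
    ⇑(U g f) =ᵐ[m] fun x => π (coc Γ σ hσ g (g⁻¹ • x)) (f (g⁻¹ • x))

end coc

end Pool.TFD
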