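import Pool.Agent.Work.MP_972ac7_gen.Interface

/-! # Block AC (MP_972ac7_al, helper59): measurable homomorphisms into `U(d)` are continuous -/

set_option autoImplicit false

open MeasureTheory Matrix
open scoped ENNReal ComplexOrder Topology Pointwise

noncomputable section

namespace Pool.TFD

theorem p_AC : Stmt_AC := by
  intro G _ _ _ _ _ _ _ _ d ρ hρ
  let U := unitaryGroup (Fin d) ℂ
  have i1 : SecondCountableTopology (Matrix (Fin d) (Fin d) ℂ) :=
    inferInstanceAs (SecondCountableTopology (Fin d → Fin d → ℂ))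
  have i2 : SecondCountableTopology U := TopologicalSpace.Subtype.secondCountableTopology _
  have i3 : TopologicalSpace.SeparableSpace U := inferInstance
  -- preimages of open sets are measurable
  have hmeas : ∀ O : Set U, IsOpen O → MeasurableSet (ρ ⁻¹' O) := by
    intro O hO
    obtain ⟨O', hO'o, hO'⟩ := isOpen_induced_iff.1 hO
    have h1 : Measurable (fun g : G => (fun i j => (ρ g : Matrix (Fin d) (Fin d) ℂ) i j :
        Fin d → Fin d → ℂ)) :=
      measurable_pi_iff.2 fun i => measurable_pi_iff.2 fun j => hρ i j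
    let O'' : Set (Fin d → Fin d → ℂ) := {f | (f : Matrix (Fin d) (Fin d) ℂ) ∈ O'}
    have h2 : IsOpen O'' := hO'o
    have h3 := h1 h2.measurableSet
    have h4 : ρ ⁻¹' O = (fun g : G => (fun i j => (ρ g : Matrix (Fin d) (Fin d) ℂ) i j :
        Fin d → Fin d → ℂ)) ⁻¹' O'' := by
      rw [← hO']
      rfl
    rw [h4]
    exact h3
  refine continuous_of_continuousAt_one ρ ?_
  rw [ContinuousAt, map_one]
  intro W hW
  obtain ⟨V, hV, hVW⟩ := exists_nhds_split_inv hW
  obtain ⟨V', hV'V, hV'o, h1V'⟩ := mem_nhds_iff.1 hV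
  -- countably many translates cover
  have hcov : ∀ x : U, ∃ n, x / TopologicalSpace.denseSeq U n ∈ V' := by
    intro x
    have hop : IsOpen {y : U | x / y ∈ V'} := hV'o.preimage (continuous_const.div' continuous_id)
    have hne : ({y : U | x / y ∈ V'}).Nonempty := ⟨x, by
      show x / x ∈ V'
      rw [div_self']
      exact h1V'⟩
    obtain ⟨n, hn⟩ := (TopologicalSpace.denseRange_denseSeq U).exists_mem_open hop hne
    exact ⟨n, hn⟩
  let E : ℕ → Set G := fun n => ρ ⁻¹' {x : U | x / TopologicalSpace.denseSeq U n ∈ V'}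
  have hE : ∀ n, MeasurableSet (E n) := fun n =>
    hmeas _ (hV'o.preimage (continuous_id.div' continuous_const))
  have hU : (⋃ n, E n) = Set.univ := by
    refine Set.eq_univ_of_forall fun g => ?_
    obtain ⟨n, hn⟩ := hcov (ρ g)
    exact Set.mem_iUnion.2 ⟨n, hn⟩
  let ν : Measure G := Measure.haar
  obtain ⟨n, hn⟩ : ∃ n, 0 < ν (E n) := by
    by_contra hcon
    have h0 : ν (⋃ n, E n) = 0 := measure_iUnion_null fun n => by
      by_contra hne
      exact hcon ⟨n, pos_iff_ne_zero.2 hne⟩
    rw [hU] at h0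
    exact (isOpen_univ.measure_pos ν Set.univ_nonempty).ne' h0
  have hdiv : E n / E n ∈ 𝓝 (1 : G) := Measure.div_mem_nhds_one_of_haar_pos ν (E n) (hE n) hn
  rw [Filter.mem_map]
  refine Filter.mem_of_superset hdiv ?_
  rintro _ ⟨a, ha, b, hb, rfl⟩
  have h5 := hVW _ (hV'V ha) _ (hV'V hb)
  show ρ (a / b) ∈ W
  rw [map_div]
  simpa using h5

end Pool.TFD
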