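import Pool.Agent.Work.MP_972ac7_gen.Interface

/-! # Block GAPV: the gap of the induced representation (helper67) -/

set_option autoImplicit false

open MeasureTheory Matrix
open scoped ENNReal ComplexOrder

noncomputable section

namespace Pool.TFD

theorem p_GAPV (hEXE : Stmt_EXE) (hTRIV : Stmt_TRIV) (hMC : Stmt_MC) (hINV : Stmt_INV)
    (hFIX : Stmt_FIX) : Stmt_GAPV := by
  intro GA GB _ _ _ _ _ _ _ _ _ _ _ _ _ _ _ _ Γ _ m _ σ hσ hσm hmp herg hA hB μ _ κ hκ hgap
    V _ _ _ π U hU hfix f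
  obtain ⟨E, hEfd, hEinv, hEgap⟩ := hEXE (GA × GB) Γ m σ hσ hσm hmp V π U hU GB μ
    (fun s => ((1, s) : GA × GB)) κ (κ / 4) (by fun_prop) hκ (by positivity) (by linarith) hgap
  obtain ⟨EA, hEAfd, hEA⟩ := hINV GA GB Γ m σ hσ hσm hmp herg V π U hU
  have hmeas := hMC (GA × GB) Γ m σ hσ hσm hmp V π U hU
  have hmul : ∀ (g h : GA × GB) (v : Lp V 2 m), U (g * h) v = U g (U h v) := by
    intro g h v
    rw [map_mul]
    rfl
  -- the space `E` is fixed by the first factor
  have h1 : ∀ v ∈ E, ∀ a : GA, U ((a, 1) : GA × GB) v = v := by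
    intro v hv a
    refine hTRIV GA hA (Lp V 2 m) (U.comp (MonoidHom.inl GA GB)) ?_ E hEfd ?_ a v hv
    · intro v w
      exact (hmeas v w).comp (by fun_prop : Measurable fun a : GA => ((a, 1) : GA × GB))
    · intro g v hv
      refine hEinv ((g, 1) : GA × GB) ?_ v hv
      intro s
      simp
  -- the fixed space of the first factor is fixed by the second factor
  have h2 : ∀ v ∈ EA, ∀ b : GB, U ((1, b) : GA × GB) v = v := by
    intro v hv b
    refine hTRIV GB hB (Lp V 2 m) (U.comp (MonoidHom.inr GA GB)) ?_ EA hEAfd ?_ b v hv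
    · intro v w
      exact (hmeas v w).comp (by fun_prop : Measurable fun b : GB => ((1, b) : GA × GB))
    · intro g v hv
      rw [hEA] at hv ⊢
      intro a
      change U ((a, 1) : GA × GB) (U ((1, g) : GA × GB) v) = U ((1, g) : GA × GB) v
      rw [← hmul]
      have e : ((a, 1) : GA × GB) * (1, g) = (1, g) * (a, 1) := by simp
      rw [e, hmul, hv a]
  have h3 : ∀ v ∈ E, v = 0 := by
    intro v hv
    refine hFIX (GA × GB) Γ m σ hσ hσm hmp V π U hU hfix v ?_
    rintro ⟨a, b⟩
    have hvA : v ∈ EA := (hEA v).2 (h1 v hv)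
    have e : ((a, b) : GA × GB) = (a, 1) * (1, b) := by simp
    rw [e, hmul, h2 v hvA b, h1 v hv a]
  refine hEgap f ?_
  intro w hw
  rw [h3 w hw, inner_zero_left]

end Pool.TFD
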