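import Pool.Agent.Work.MP_972ac7_gen.Interface

/-! # Block SLICE (helper38) -/

set_option autoImplicit false

open MeasureTheory Matrix
open scoped ENNReal ComplexOrder

noncomputable section

namespace Pool.TFD

theorem p_SLICE : Stmt_SLICE := by
  intro GA GB _ _ _ _ _ _ _ _ _ νA νB _ _ t ht h
  have hmeas : MeasurableSet {z : GA × (GA × GB) | ((z.1 * z.2.1, z.2.2) ∈ t ↔ z.2 ∈ t)} := by
    have h1 : Measurable fun z : GA × (GA × GB) => (z.1 * z.2.1, z.2.2) :=
      (measurable_fst.mul (measurable_fst.comp measurable_snd)).prodMk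
        (measurable_snd.comp measurable_snd)
    have h2 : MeasurableSet ((fun z : GA × (GA × GB) => (z.1 * z.2.1, z.2.2)) ⁻¹' t) := h1 ht
    have h3 : MeasurableSet ((fun z : GA × (GA × GB) => z.2) ⁻¹' t) := measurable_snd ht
    exact h2.iff h3
  have h1 : ∀ᵐ p ∂(νA.prod νB), ∀ᵐ a ∂νA, ((a * p.1, p.2) ∈ t ↔ p ∈ t) :=
    (Measure.ae_ae_comm (μ := νA) (ν := νA.prod νB)
      (p := fun (a : GA) (p : GA × GB) => ((a * p.1, p.2) ∈ t ↔ p ∈ t)) hmeas).mp
      (Filter.Eventually.of_forall h)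
  have h2 : ∀ᵐ p ∂(νA.prod νB), ∀ᵐ a ∂νA, ((a, p.2) ∈ t ↔ p ∈ t) := by
    filter_upwards [h1] with p hp
    have h3 := (quasiMeasurePreserving_mul_right νA p.1⁻¹).ae hp
    filter_upwards [h3] with a ha
    rw [inv_mul_cancel_right] at ha
    exact ha
  refine ⟨{b | νA ((fun a => (a, b)) ⁻¹' t) ≠ 0}, ?_, ?_⟩
  · have h3 : Measurable fun b : GB => νA ((fun a => (a, b)) ⁻¹' t) :=
      measurable_measure_prodMk_right ht
    exact (h3 (measurableSet_singleton 0)).compl
  · filter_upwards [h2] with p hp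
    constructor
    · intro hpt h0
      have h3 : ∀ᵐ a ∂νA, a ∉ ((fun a => (a, p.2)) ⁻¹' t) :=
        measure_eq_zero_iff_ae_notMem.mp h0
      obtain ⟨a, ha1, ha2⟩ := (hp.and h3).exists
      exact ha2 (ha1.mpr hpt)
    · intro hr
      by_contra hc
      apply hr
      apply measure_eq_zero_iff_ae_notMem.mpr
      filter_upwards [hp] with a ha
      intro h4
      exact hc (ha.mp h4)

end Pool.TFD
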