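import Pool.Agent.Work.MP_972ac7_gen.Defs

/-! # Statements of the blocks (MP_972ac7_al, general theorem), helper64

Files `B_X.lean` (import this file), namespace `Pool.TFD`, `theorem p_X (h1 : Stmt_Y) ... : Stmt_X`.
Proofs: note of the blueprint (docstrings below contain the complete proofs). -/

set_option autoImplicit false

open MeasureTheory Matrix
open scoped ENNReal ComplexOrder

noncomputable section

namespace Pool.TFD

/-! ## Matrices -/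

/-- SQ. The square root exists (spectral theorem; `CFC.sqrt` or diagonalization). -/
def Stmt_SQ : Prop := ∀ (n : Type) [Fintype n] [DecidableEq n] (k : ℕ) (F : Matrix n (Fin k) ℂ),
  (msq (F * Fᴴ)).PosSemidef ∧ msq (F * Fᴴ) * msq (F * Fᴴ) = F * Fᴴ

/-- TRA. `‖ |X| - |Y| ‖₂ ≤ ‖X - Y‖₂` for hermitian `X`, `Y`, `P = |X|`, `Q = |Y|`. Proof: `P ± X`
and `Q ± Y` are positive semidefinite (diagonalize `X`, uniqueness of the square root), so
`0 ≤ tr ((P-X)(Q+Y)) + tr ((P+X)(Q-Y)) = 2 tr (PQ) - 2 tr (XY)`, and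
`hs P = tr P² = tr X² = hs X`. -/
def Stmt_TRA : Prop := ∀ (n : Type) [Fintype n] [DecidableEq n] (X Y P Q : Matrix n n ℂ),
  X.IsHermitian → Y.IsHermitian → P.PosSemidef → Q.PosSemidef → P * P = X * X → Q * Q = Y * Y →
  hs (P - Q) ≤ hs (X - Y)

/-- AY (uses SQ, TRA), Araki-Yamagami. `X = fromBlocks 0 A Aᴴ 0` is hermitian,
`X * X = fromBlocks (A * Aᴴ) 0 0 (Aᴴ * A)`, `P = fromBlocks (msq (A * Aᴴ)) 0 0 (msq (Aᴴ * A))`. -/
def Stmt_AY : Prop := ∀ (L k : ℕ) (A B : Matrix (Fin L) (Fin k) ℂ),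
  hs (msq (A * Aᴴ) - msq (B * Bᴴ)) ≤ 2 * hs (A - B)

/-- RKT (uses SQ). `P = msq (F Fᴴ)` is psd of rank `≤ k` and `hs P = hs F`: the sum of at most `k`
nonzero eigenvalues, Cauchy-Schwarz. -/
def Stmt_RKT : Prop := ∀ (L k : ℕ) (F : Matrix (Fin L) (Fin k) ℂ),
  (trace (msq (F * Fᴴ))).re ≤ Real.sqrt k * Real.sqrt (hs F)

/-! ## Lemma A -/

/-- LAG (uses SQ, AY). `F ↦ msq (F Fᴴ)` is Lipschitz by AY, so continuous, and
`hs (msq (F Fᴴ)) = hs F`: hence MemLp. `P x = msq (F x * (F x)ᴴ)`, `P (T s x) = msq (Fs Fsᴴ)`.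
The gap for every entry:
`κ ∑ᵢⱼ ∫ |P i j - C i j|² ≤ ∑ᵢⱼ ∫⁻ₛ ∫⁻ₓ |P i j (T s x) - P i j x|² ≤ ∫⁻ₛ ∫⁻ₓ hs (P (T s x) - P x)
≤ 2 ∫⁻ₛ ∫⁻ₓ hs (Fs s x - F x) ≤ 2 e L` (sums of lintegrals: only superadditivity is needed). -/
def Stmt_LAG : Prop := ∀ (X Ω : Type) [MeasurableSpace X] [MeasurableSpace Ω] (m : Measure X)
  (μ : Measure Ω) [IsProbabilityMeasure m] (T : Ω → X → X) (κ e : ℝ) (L k : ℕ)
  (F : X → Matrix (Fin L) (Fin k) ℂ) (Fs : Ω → X → Matrix (Fin L) (Fin k) ℂ),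
  0 < κ → 0 ≤ e → GapX m μ T κ → (∀ i j, MemLp (fun x => F x i j) 2 m) →
  (∀ s, ∀ᵐ x ∂m, Fs s x * (Fs s x)ᴴ = F (T s x) * (F (T s x))ᴴ) →
  (∫⁻ s, ∫⁻ x, ENNReal.ofReal (hs (Fs s x - F x)) ∂m ∂μ ≤ ENNReal.ofReal (e * L)) →
  (∀ i j, MemLp (fun x => msq (F x * (F x)ᴴ) i j) 2 m) ∧
  ∫ x, hs (msq (F x * (F x)ᴴ) - Matrix.of fun i j => ∫ y, msq (F y * (F y)ᴴ) i j ∂m) ∂m ≤
    2 * e / κ * L

/-- LAC (uses SQ, RKT). `C = ∫ P` is psd; `‖C v‖² ≤ ∫ ‖P v‖² = v* (∫ F Fᴴ) v = ‖v‖²`, so `1 - C` is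
psd. `hs C = tr (C C) = ∫ tr (P C) ≤ ∫ tr P ≤ ∫ √k √(hs F) ≤ √k √(∫ hs F) = √(k L)`. -/
def Stmt_LAC : Prop := ∀ (X : Type) [MeasurableSpace X] (m : Measure X) [IsProbabilityMeasure m]
  (L k : ℕ) (F : X → Matrix (Fin L) (Fin k) ℂ), (∀ i j, MemLp (fun x => F x i j) 2 m) →
  (∀ i j, MemLp (fun x => msq (F x * (F x)ᴴ) i j) 2 m) →
  (∀ a b, ∫ x, (F x * (F x)ᴴ) a b ∂m = if a = b then 1 else 0) →
  hs (Matrix.of fun i j => ∫ y, msq (F y * (F y)ᴴ) i j ∂m) ≤ Real.sqrt (k * L)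

/-- LA (uses SQ, LAG, LAC), Lemma A. `∫ hs P = ∫ hs F = L`, `hs C = ∫ hs P - ∫ hs (P - C)`. -/
def Stmt_LA : Prop := ∀ (X Ω : Type) [MeasurableSpace X] [MeasurableSpace Ω] (m : Measure X)
  (μ : Measure Ω) [IsProbabilityMeasure m] (T : Ω → X → X) (κ e : ℝ) (L k : ℕ)
  (F : X → Matrix (Fin L) (Fin k) ℂ) (Fs : Ω → X → Matrix (Fin L) (Fin k) ℂ),
  0 < κ → 0 ≤ e → 2 * e ≤ κ → GapX m μ T κ → (∀ i j, MemLp (fun x => F x i j) 2 m) →
  (∀ s, ∀ᵐ x ∂m, Fs s x * (Fs s x)ᴴ = F (T s x) * (F (T s x))ᴴ) →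
  (∀ a b, ∫ x, (F x * (F x)ᴴ) a b ∂m = if a = b then 1 else 0) →
  (∫⁻ s, ∫⁻ x, ENNReal.ofReal (hs (Fs s x - F x)) ∂m ∂μ ≤ ENNReal.ofReal (e * L)) →
  (L : ℝ) * (1 - 2 * e / κ) ^ 2 ≤ k

/-! ## Hilbert spaces -/

/-- SPEC. `E` = range of `(T - c)⁺` (`CFC.posPart`). `v ∈ E` has `⟨v, (T-c) v⟩ = ⟨v, (T-c)⁺ v⟩ ≥ 0`
because `(T-c)⁻ (T-c)⁺ = 0`; so orthonormal families in `E` have at most `K` elements. Operators
commuting with `T` commute with `(T-c)⁺` (`IsSelfAdjoint.commute_cfc`). `v ⊥ E` gives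
`(T-c)⁺ v = 0`, `⟨v, (T-c) v⟩ = -⟨v, (T-c)⁻ v⟩ ≤ 0`. -/
def Stmt_SPEC : Prop := ∀ (H : Type) [NormedAddCommGroup H] [InnerProductSpace ℂ H]
  [CompleteSpace H] (T : H →L[ℂ] H) (c : ℝ) (K : ℕ), IsSelfAdjoint T →
  (∀ (L : ℕ) (f : Fin L → H), Orthonormal ℂ f →
    (∀ i, c ≤ (inner ℂ (f i) (T (f i))).re) → L ≤ K) →
  ∃ E : Submodule ℂ H, FiniteDimensional ℂ E ∧
    (∀ U : H →L[ℂ] H, U ∘L T = T ∘L U → ∀ v ∈ E, U v ∈ E) ∧
    ∀ v : H, (∀ w ∈ E, inner ℂ w v = 0) → (inner ℂ v (T v)).re ≤ c * ‖v‖ ^ 2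

/-- TOP. `⟨v, T w⟩ = ∫ (⟨v, U s w⟩ + ⟨U s v, w⟩) / 2 dμ(s)` (bounded sesquilinear form). -/
def Stmt_TOP : Prop := ∀ (H Ω : Type) [NormedAddCommGroup H] [InnerProductSpace ℂ H]
  [CompleteSpace H] [MeasurableSpace Ω] (μ : Measure Ω) [IsFiniteMeasure μ]
  (U : Ω → (H ≃ₗᵢ[ℂ] H)), (∀ v w : H, Measurable fun s => (inner ℂ v (U s w) : ℂ)) →
  ∃ T : H →L[ℂ] H, IsSelfAdjoint T ∧
    (∀ v : H, ∫⁻ s, ENNReal.ofReal (‖U s v - v‖ ^ 2) ∂μ =
      ENNReal.ofReal (2 * (μ.real Set.univ * ‖v‖ ^ 2 - (inner ℂ v (T v)).re))) ∧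
    ∀ R : H ≃ₗᵢ[ℂ] H, (∀ s v, R (U s v) = U s (R v)) → ∀ v, R (T v) = T (R v)

/-- AC. Measurable homomorphisms into `U(d)` are continuous: for a neighbourhood `W` of `1` take an
open `W'` with `W' W'⁻¹ ⊆ W`, countably many translates of `W'` cover `U(d)`, one preimage `E` has
positive Haar measure, `E / E` is a neighbourhood of `1` (`div_mem_nhds_one_of_haar_pos`). -/
def Stmt_AC : Prop := ∀ (G : Type) [Group G] [TopologicalSpace G] [IsTopologicalGroup G]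
  [LocallyCompactSpace G] [SecondCountableTopology G] [T2Space G] [MeasurableSpace G]
  [BorelSpace G] (d : ℕ) (ρ : G →* unitaryGroup (Fin d) ℂ),
  (∀ i j, Measurable fun g => (ρ g : Matrix (Fin d) (Fin d) ℂ) i j) → Continuous ρ

/-- TRIV (uses AC). Orthonormal basis of `E`, matrix of `W g` on `E`. -/
def Stmt_TRIV : Prop := ∀ (G : Type) [Group G] [TopologicalSpace G] [IsTopologicalGroup G]
  [LocallyCompactSpace G] [SecondCountableTopology G] [T2Space G] [MeasurableSpace G]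
  [BorelSpace G], NoFD G → ∀ (H : Type) [NormedAddCommGroup H] [InnerProductSpace ℂ H]
  [CompleteSpace H] (W : G →* (H ≃ₗᵢ[ℂ] H)),
  (∀ v w : H, Measurable fun g => (inner ℂ v (W g w) : ℂ)) →
  ∀ E : Submodule ℂ H, FiniteDimensional ℂ E → (∀ g, ∀ v ∈ E, W g v ∈ E) →
  ∀ g, ∀ v ∈ E, W g v = v

/-- CK. A gap for a compact set gives a gap for a measure. `ν` Haar measure, `O` compact
neighbourhood of `1`, `μ = ν` restricted to the compact set `O ∪ K O`, `κ < ν(O) δ² / 8`. If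
`∫ ‖W s v - v‖² dμ < κ ‖v‖²` then `‖W s v - v‖ < δ ‖v‖ / 2` outside a set of measure `< ν(O) / 2`;
so for every `k` in `K` there is `s` in `O` such that `s` and `k s` are good, and
`‖W k v - v‖ ≤ ‖W k v - W (k s) v‖ + ‖W (k s) v - v‖ < δ ‖v‖`. -/
def Stmt_CK : Prop := ∀ (G : Type) [Group G] [TopologicalSpace G] [IsTopologicalGroup G]
  [LocallyCompactSpace G] [SecondCountableTopology G] [T2Space G] [MeasurableSpace G]
  [BorelSpace G] (K : Set G) (δ : ℝ), IsCompact K → 0 < δ →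
  ∃ μ : Measure G, IsFiniteMeasure μ ∧ ∃ κ : ℝ, 0 < κ ∧
    ∀ (H : Type) [NormedAddCommGroup H] [InnerProductSpace ℂ H] [CompleteSpace H]
      (W : G →* (H ≃ₗᵢ[ℂ] H)), (∀ v w : H, Measurable fun g => (inner ℂ v (W g w) : ℂ)) →
      ∀ v : H, (∃ k ∈ K, δ * ‖v‖ ≤ ‖W k v - v‖) →
        ENNReal.ofReal (κ * ‖v‖ ^ 2) ≤ ∫⁻ s, ENNReal.ofReal (‖W s v - v‖ ^ 2) ∂μ

/-! ## The space `G / Γ` -/

/-- SEC. `Γ` is countable, `G → G/Γ` has a measurable section. An open `O ∋ 1` with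
`O⁻¹ O ∩ Γ = 1`, countably many translates `g_i O` cover `G`; `x` in the first `mk (g_i O)`
containing it has a unique representative in `g_i O`. The σ-algebra of `G ⧸ Γ` is the quotient one:
check measurability of `g ↦ σ (mk g)`: on `g_i O γ⁻¹` (minus the earlier ones) it is `g ↦ g γ`. -/
def Stmt_SEC : Prop := ∀ (G : Type) [Group G] [TopologicalSpace G] [IsTopologicalGroup G]
  [LocallyCompactSpace G] [SecondCountableTopology G] [T2Space G] [MeasurableSpace G]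
  [BorelSpace G] (Γ : Subgroup G), DiscreteTopology Γ →
  Countable Γ ∧ ∃ σ : G ⧸ Γ → G, Measurable σ ∧ ∀ x, (σ x : G ⧸ Γ) = x

/-- COC. The cocycle identity; `g • x = mk (g * σ x)` is jointly measurable, so the cocycle is. -/
def Stmt_COC : Prop := ∀ (G : Type) [Group G] [TopologicalSpace G] [IsTopologicalGroup G]
  [SecondCountableTopology G] [MeasurableSpace G] [BorelSpace G] (Γ : Subgroup G)
  (σ : G ⧸ Γ → G) (hσ : ∀ x, (σ x : G ⧸ Γ) = x), Measurable σ →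
  (∀ g h x, coc Γ σ hσ (g * h) x = coc Γ σ hσ g (h • x) * coc Γ σ hσ h x) ∧
  (Measurable fun p : G × (G ⧸ Γ) => p.1 • p.2) ∧
  Measurable fun p : G × (G ⧸ Γ) => coc Γ σ hσ p.1 p.2

/-- NULL. `m(s) = ∫_G ∫_{G/Γ} 1_s(g x) dm(x) w(g) dν(g)` (`w > 0` with integral 1), Fubini; for fixed
`x = h Γ` the set of the `g` with `g x ∈ s` is a right translate of `mk⁻¹ s`. -/
def Stmt_NULL : Prop := ∀ (G : Type) [Group G] [TopologicalSpace G] [IsTopologicalGroup G]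
  [LocallyCompactSpace G] [SecondCountableTopology G] [T2Space G] [MeasurableSpace G]
  [BorelSpace G] (Γ : Subgroup G) (m : Measure (G ⧸ Γ)) [IsProbabilityMeasure m]
  (ν : Measure G) [ν.IsHaarMeasure], (∀ g : G, MeasurePreserving (fun x => g • x) m m) →
  (Measurable fun p : G × (G ⧸ Γ) => p.1 • p.2) →
  ∀ s : Set (G ⧸ Γ), MeasurableSet s → (m s = 0 ↔ ν ((fun g : G => (g : G ⧸ Γ)) ⁻¹' s) = 0)

/-- REP (uses COC). The induced representation. `f ∘ (g⁻¹ • ·)` is `Lp.compMeasurePreserving`,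
then the pointwise isometry `π (coc ..)`, which takes countably many values. -/
def Stmt_REP : Prop := ∀ (G : Type) [Group G] [TopologicalSpace G] [IsTopologicalGroup G]
  [SecondCountableTopology G] [MeasurableSpace G] [BorelSpace G] [T2Space G] (Γ : Subgroup G)
  [Countable Γ]
  (m : Measure (G ⧸ Γ)) [IsProbabilityMeasure m] (σ : G ⧸ Γ → G)
  (hσ : ∀ x, (σ x : G ⧸ Γ) = x), Measurable σ →
  (∀ g : G, MeasurePreserving (fun x => g • x) m m) → ∀ (V : Type) [NormedAddCommGroup V]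
  [InnerProductSpace ℂ V] [FiniteDimensional ℂ V] (π : Γ →* (V ≃ₗᵢ[ℂ] V)),
  ∃ U : G →* (Lp V 2 m ≃ₗᵢ[ℂ] Lp V 2 m), IsInd Γ m σ hσ V π U

/-- MC (uses COC). Matrix coefficients are measurable (Fubini). -/
def Stmt_MC : Prop := ∀ (G : Type) [Group G] [TopologicalSpace G] [IsTopologicalGroup G]
  [SecondCountableTopology G] [MeasurableSpace G] [BorelSpace G] [T2Space G] (Γ : Subgroup G)
  [Countable Γ]
  (m : Measure (G ⧸ Γ)) [IsProbabilityMeasure m] (σ : G ⧸ Γ → G)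
  (hσ : ∀ x, (σ x : G ⧸ Γ) = x), Measurable σ →
  (∀ g : G, MeasurePreserving (fun x => g • x) m m) → ∀ (V : Type) [NormedAddCommGroup V]
  [InnerProductSpace ℂ V] [FiniteDimensional ℂ V] (π : Γ →* (V ≃ₗᵢ[ℂ] V))
  (U : G →* (Lp V 2 m ≃ₗᵢ[ℂ] Lp V 2 m)), IsInd Γ m σ hσ V π U →
  ∀ v w : Lp V 2 m, Measurable fun g => (inner ℂ v (U g w) : ℂ)

/-- LAH (uses LA, COC, MC). Lemma A for orthonormal families in `L²(G/Γ; V)`. Orthonormal basis
`b` of `V`, `F x i j = ⟪b j, f i x⟫`, `Fs s x i j = ⟪b j, (U (t s) (f i)) x⟫`: the Gram matrices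
`F x * (F x)ᴴ = (⟪f b x, f a x⟫)` are invariant because `π` is unitary. -/
def Stmt_LAH : Prop := ∀ (G : Type) [Group G] [TopologicalSpace G] [IsTopologicalGroup G]
  [SecondCountableTopology G] [MeasurableSpace G] [BorelSpace G] [T2Space G] (Γ : Subgroup G)
  [Countable Γ]
  (m : Measure (G ⧸ Γ)) [IsProbabilityMeasure m] (σ : G ⧸ Γ → G)
  (hσ : ∀ x, (σ x : G ⧸ Γ) = x), Measurable σ →
  (∀ g : G, MeasurePreserving (fun x => g • x) m m) → ∀ (V : Type) [NormedAddCommGroup V]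
  [InnerProductSpace ℂ V] [FiniteDimensional ℂ V] (π : Γ →* (V ≃ₗᵢ[ℂ] V))
  (U : G →* (Lp V 2 m ≃ₗᵢ[ℂ] Lp V 2 m)), IsInd Γ m σ hσ V π U →
  ∀ (Ω : Type) [MeasurableSpace Ω] (μ : Measure Ω) [IsFiniteMeasure μ] (t : Ω → G) (κ e : ℝ),
  Measurable t → 0 < κ → 0 ≤ e → 2 * e ≤ κ → GapX m μ (fun s x => (t s)⁻¹ • x) κ →
  ∀ (L : ℕ) (f : Fin L → Lp V 2 m), Orthonormal ℂ f →
  (∀ i, ∫⁻ s, ENNReal.ofReal (‖U (t s) (f i) - f i‖ ^ 2) ∂μ ≤ ENNReal.ofReal e) →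
  (L : ℝ) * (1 - 2 * e / κ) ^ 2 ≤ Module.finrank ℂ V

/-- EXE (uses SPEC, TOP, MC, LAH). `T` from TOP for `s ↦ U (t s)`, `c = μ(Ω) - e/2` in SPEC. -/
def Stmt_EXE : Prop := ∀ (G : Type) [Group G] [TopologicalSpace G] [IsTopologicalGroup G]
  [SecondCountableTopology G] [MeasurableSpace G] [BorelSpace G] [T2Space G] (Γ : Subgroup G)
  [Countable Γ]
  (m : Measure (G ⧸ Γ)) [IsProbabilityMeasure m] (σ : G ⧸ Γ → G)
  (hσ : ∀ x, (σ x : G ⧸ Γ) = x), Measurable σ →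
  (∀ g : G, MeasurePreserving (fun x => g • x) m m) → ∀ (V : Type) [NormedAddCommGroup V]
  [InnerProductSpace ℂ V] [FiniteDimensional ℂ V] (π : Γ →* (V ≃ₗᵢ[ℂ] V))
  (U : G →* (Lp V 2 m ≃ₗᵢ[ℂ] Lp V 2 m)), IsInd Γ m σ hσ V π U →
  ∀ (Ω : Type) [MeasurableSpace Ω] (μ : Measure Ω) [IsFiniteMeasure μ] (t : Ω → G) (κ e : ℝ),
  Measurable t → 0 < κ → 0 < e → 2 * e < κ → GapX m μ (fun s x => (t s)⁻¹ • x) κ →
  ∃ E : Submodule ℂ (Lp V 2 m), FiniteDimensional ℂ E ∧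
    (∀ g : G, (∀ s, g * t s = t s * g) → ∀ v ∈ E, U g v ∈ E) ∧
    ∀ v, (∀ w ∈ E, inner ℂ w v = 0) →
      ENNReal.ofReal (e * ‖v‖ ^ 2) ≤ ∫⁻ s, ENNReal.ofReal (‖U (t s) v - v‖ ^ 2) ∂μ

/-- FIX (uses COC, NULL). A `G`-fixed vector comes from a `Γ`-fixed vector of `V`:
`F h = π (σ (h Γ)⁻¹ h)⁻¹ f (h Γ)` satisfies `F (h γ) = π γ⁻¹ F h` for all `h` and `F (g h) = F h` for
almost all `h` (every `g`), so by Fubini `F = v₀` almost everywhere, `π γ v₀ = v₀`. -/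
def Stmt_FIX : Prop := ∀ (G : Type) [Group G] [TopologicalSpace G] [IsTopologicalGroup G]
  [LocallyCompactSpace G] [SecondCountableTopology G] [T2Space G] [MeasurableSpace G]
  [BorelSpace G] (Γ : Subgroup G) [Countable Γ]
  (m : Measure (G ⧸ Γ)) [IsProbabilityMeasure m] (σ : G ⧸ Γ → G)
  (hσ : ∀ x, (σ x : G ⧸ Γ) = x), Measurable σ →
  (∀ g : G, MeasurePreserving (fun x => g • x) m m) → ∀ (V : Type) [NormedAddCommGroup V]
  [InnerProductSpace ℂ V] [FiniteDimensional ℂ V] (π : Γ →* (V ≃ₗᵢ[ℂ] V))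
  (U : G →* (Lp V 2 m ≃ₗᵢ[ℂ] Lp V 2 m)), IsInd Γ m σ hσ V π U →
  (∀ v : V, (∀ γ, π γ v = v) → v = 0) → ∀ f : Lp V 2 m, (∀ g, U g f = f) → f = 0

/-- TRANS (uses COC, REP). From a uniform gap of the induced representations to (T;FD): the constant
section `v`; `∫ₛ ∫ₓ ‖π (c(t s, (t s)⁻¹ x)) v - v‖² ≥ κ ‖v‖²`; the cocycle takes values in a finite
set `Q` outside a set of measure `η = κ/16`; `ε² (μ(Ω) + 1) = κ/4`. -/
def Stmt_TRANS : Prop := ∀ (G : Type) [Group G] [TopologicalSpace G] [IsTopologicalGroup G]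
  [SecondCountableTopology G] [MeasurableSpace G] [BorelSpace G] [T2Space G] (Γ : Subgroup G)
  [Countable Γ]
  (m : Measure (G ⧸ Γ)) [IsProbabilityMeasure m] (σ : G ⧸ Γ → G)
  (hσ : ∀ x, (σ x : G ⧸ Γ) = x), Measurable σ →
  (∀ g : G, MeasurePreserving (fun x => g • x) m m) →
  ∀ (Ω : Type) [MeasurableSpace Ω] (μ : Measure Ω) [IsFiniteMeasure μ] (t : Ω → G) (κ : ℝ),
  Measurable t → 0 < κ →
  (∀ (V : Type) [NormedAddCommGroup V] [InnerProductSpace ℂ V] [FiniteDimensional ℂ V]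
    (π : Γ →* (V ≃ₗᵢ[ℂ] V)) (U : G →* (Lp V 2 m ≃ₗᵢ[ℂ] Lp V 2 m)), IsInd Γ m σ hσ V π U →
    (∀ v : V, (∀ γ, π γ v = v) → v = 0) → ∀ f : Lp V 2 m,
      ENNReal.ofReal (κ * ‖f‖ ^ 2) ≤ ∫⁻ s, ENNReal.ofReal (‖U (t s) f - f‖ ^ 2) ∂μ) →
  PropTFD Γ

/-! ## Products -/

/-- STN. Steinhaus for two sets: `ν(E h ∩ F) > 0` for some `h` (Fubini), `W = E h ∩ F`,
`W⁻¹ W` is a neighbourhood of `1` (`div_mem_nhds_one_of_haar_pos` for `W⁻¹`), and
`e⁻¹ f = h (e h)⁻¹ f`. -/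
def Stmt_STN : Prop := ∀ (G : Type) [Group G] [TopologicalSpace G] [IsTopologicalGroup G]
  [LocallyCompactSpace G] [SecondCountableTopology G] [T2Space G] [MeasurableSpace G]
  [BorelSpace G] (ν : Measure G) [ν.IsHaarMeasure] (E F : Set G), MeasurableSet E →
  MeasurableSet F → ν E ≠ 0 → ν F ≠ 0 →
  ∃ O : Set G, IsOpen O ∧ O.Nonempty ∧ ∀ h ∈ O, ∃ e ∈ E, ∃ f ∈ F, e⁻¹ * f = h

/-- SLICE. A set which is invariant (almost everywhere, for every `a`) under the left translations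
by the first factor is `univ ×ˢ r` up to a null set (Fubini twice). -/
def Stmt_SLICE : Prop := ∀ (GA GB : Type)
  [Group GA] [TopologicalSpace GA] [IsTopologicalGroup GA] [LocallyCompactSpace GA]
  [SecondCountableTopology GA] [T2Space GA] [MeasurableSpace GA] [BorelSpace GA]
  [MeasurableSpace GB] (νA : Measure GA) (νB : Measure GB) [νA.IsHaarMeasure] [SigmaFinite νB]
  (t : Set (GA × GB)), MeasurableSet t →
  (∀ a : GA, ∀ᵐ p ∂(νA.prod νB), ((a * p.1, p.2) ∈ t ↔ p ∈ t)) →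
  ∃ r : Set GB, MeasurableSet r ∧ ∀ᵐ p ∂(νA.prod νB), (p ∈ t ↔ p.2 ∈ r)

/-- ERGS (uses NULL, STN, SLICE). The first factor acts ergodically on `G/Γ` if the projection of
`Γ` to the second factor is dense. `t = mk⁻¹ s = univ ×ˢ r` up to null sets, `r γ_B = r` up to null
sets, `E = {b | ∀ γ, b γ_B ∈ r}`, `F = {b | ∀ γ, b γ_B ∉ r}` are invariant and `E ∪ F` is conull;
STN and density: one of them is null. -/
def Stmt_ERGS : Prop := ∀ (GA GB : Type)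
  [Group GA] [TopologicalSpace GA] [IsTopologicalGroup GA] [LocallyCompactSpace GA]
  [SecondCountableTopology GA] [T2Space GA] [MeasurableSpace GA] [BorelSpace GA]
  [Group GB] [TopologicalSpace GB] [IsTopologicalGroup GB] [LocallyCompactSpace GB]
  [SecondCountableTopology GB] [T2Space GB] [MeasurableSpace GB] [BorelSpace GB]
  (Γ : Subgroup (GA × GB)) [Countable Γ] (m : Measure ((GA × GB) ⧸ Γ)) [IsProbabilityMeasure m],
  (∀ g : GA × GB, MeasurePreserving (fun x => g • x) m m) →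
  (Measurable fun p : (GA × GB) × ((GA × GB) ⧸ Γ) => p.1 • p.2) →
  Dense (Set.range fun γ : Γ => (γ : GA × GB).2) →
  ∀ s : Set ((GA × GB) ⧸ Γ), MeasurableSet s →
    (∀ a : GA, ∀ᵐ x ∂m, (((a, 1) : GA × GB) • x ∈ s ↔ x ∈ s)) → m s = 0 ∨ m sᶜ = 0

/-- The first factor acts ergodically on `G/Γ`. -/
def ErgA {GA GB : Type} [Group GA] [Group GB] [MeasurableSpace GA] [MeasurableSpace GB]
    (Γ : Subgroup (GA × GB)) (m : Measure ((GA × GB) ⧸ Γ)) : Prop :=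
  ∀ φ : (GA × GB) ⧸ Γ → ℂ, Measurable φ →
    (∀ a : GA, ∀ᵐ x ∂m, φ (((a, 1) : GA × GB) • x) = φ x) → ∃ c, ∀ᵐ x ∂m, φ x = c

/-- ERG (uses ERGS). `Filter.exists_eventuallyEq_const_of_forall_separating`. -/
def Stmt_ERG : Prop := ∀ (GA GB : Type)
  [Group GA] [TopologicalSpace GA] [IsTopologicalGroup GA] [LocallyCompactSpace GA]
  [SecondCountableTopology GA] [T2Space GA] [MeasurableSpace GA] [BorelSpace GA]
  [Group GB] [TopologicalSpace GB] [IsTopologicalGroup GB] [LocallyCompactSpace GB]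
  [SecondCountableTopology GB] [T2Space GB] [MeasurableSpace GB] [BorelSpace GB]
  (Γ : Subgroup (GA × GB)) [Countable Γ] (m : Measure ((GA × GB) ⧸ Γ)) [IsProbabilityMeasure m],
  (∀ g : GA × GB, MeasurePreserving (fun x => g • x) m m) →
  (Measurable fun p : (GA × GB) × ((GA × GB) ⧸ Γ) => p.1 • p.2) →
  Dense (Set.range fun γ : Γ => (γ : GA × GB).2) → ErgA Γ m

/-- INV. The vectors fixed by the first factor form a finite dimensional space: their pointwise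
inner products are invariant under the first factor, hence constant, so an orthonormal family of
fixed vectors is orthonormal at almost every point and has at most `dim V` members. -/
def Stmt_INV : Prop := ∀ (GA GB : Type)
  [Group GA] [TopologicalSpace GA] [IsTopologicalGroup GA] [LocallyCompactSpace GA]
  [SecondCountableTopology GA] [T2Space GA] [MeasurableSpace GA] [BorelSpace GA]
  [Group GB] [TopologicalSpace GB] [IsTopologicalGroup GB] [LocallyCompactSpace GB]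
  [SecondCountableTopology GB] [T2Space GB] [MeasurableSpace GB] [BorelSpace GB]
  (Γ : Subgroup (GA × GB)) [Countable Γ] (m : Measure ((GA × GB) ⧸ Γ)) [IsProbabilityMeasure m]
  (σ : (GA × GB) ⧸ Γ → GA × GB) (hσ : ∀ x, (σ x : (GA × GB) ⧸ Γ) = x), Measurable σ →
  (∀ g : GA × GB, MeasurePreserving (fun x => g • x) m m) → ErgA Γ m →
  ∀ (V : Type) [NormedAddCommGroup V] [InnerProductSpace ℂ V] [FiniteDimensional ℂ V]
    (π : Γ →* (V ≃ₗᵢ[ℂ] V)) (U : (GA × GB) →* (Lp V 2 m ≃ₗᵢ[ℂ] Lp V 2 m)),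
  IsInd Γ m σ hσ V π U →
  ∃ E : Submodule ℂ (Lp V 2 m), FiniteDimensional ℂ E ∧
    ∀ f, f ∈ E ↔ ∀ a : GA, U ((a, 1) : GA × GB) f = f

/-- GAPC (uses CK, COC, REP, MC). The strong spectral gap gives `GapX` for a finite measure: CK for
the representation `W b = U (1, b)` of the second factor on `L²(G/Γ)`, `U` from REP with
`V = ℂ`, `π = 1`; `v = φ - ∫ φ`. -/
def Stmt_GAPC : Prop := ∀ (GA GB : Type)
  [Group GA] [TopologicalSpace GA] [IsTopologicalGroup GA] [LocallyCompactSpace GA]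
  [SecondCountableTopology GA] [T2Space GA] [MeasurableSpace GA] [BorelSpace GA]
  [Group GB] [TopologicalSpace GB] [IsTopologicalGroup GB] [LocallyCompactSpace GB]
  [SecondCountableTopology GB] [T2Space GB] [MeasurableSpace GB] [BorelSpace GB]
  (Γ : Subgroup (GA × GB)) [Countable Γ] (m : Measure ((GA × GB) ⧸ Γ)) [IsProbabilityMeasure m]
  (σ : (GA × GB) ⧸ Γ → GA × GB), (∀ x, (σ x : (GA × GB) ⧸ Γ) = x) → Measurable σ →
  (∀ g : GA × GB, MeasurePreserving (fun x => g • x) m m) → StrongGap Γ m →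
  ∃ μ : Measure GB, IsFiniteMeasure μ ∧ ∃ κ : ℝ, 0 < κ ∧
    GapX m μ (fun s x => (((1, s) : GA × GB))⁻¹ • x) κ

/-- GAPV (uses EXE, TRIV, MC, INV, FIX). For `2 e < κ` take `E` from EXE: invariant under
`U (a, 1)`, so fixed (TRIV), so contained in the space of INV, which is invariant under `U (1, b)`,
so fixed by everything (TRIV), so `E = 0` (FIX). -/
def Stmt_GAPV : Prop := ∀ (GA GB : Type)
  [Group GA] [TopologicalSpace GA] [IsTopologicalGroup GA] [LocallyCompactSpace GA]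
  [SecondCountableTopology GA] [T2Space GA] [MeasurableSpace GA] [BorelSpace GA]
  [Group GB] [TopologicalSpace GB] [IsTopologicalGroup GB] [LocallyCompactSpace GB]
  [SecondCountableTopology GB] [T2Space GB] [MeasurableSpace GB] [BorelSpace GB]
  (Γ : Subgroup (GA × GB)) [Countable Γ] (m : Measure ((GA × GB) ⧸ Γ)) [IsProbabilityMeasure m]
  (σ : (GA × GB) ⧸ Γ → GA × GB) (hσ : ∀ x, (σ x : (GA × GB) ⧸ Γ) = x), Measurable σ →
  (∀ g : GA × GB, MeasurePreserving (fun x => g • x) m m) → ErgA Γ m → NoFD GA → NoFD GB →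
  ∀ (μ : Measure GB) [IsFiniteMeasure μ] (κ : ℝ), 0 < κ →
  GapX m μ (fun s x => (((1, s) : GA × GB))⁻¹ • x) κ →
  ∀ (V : Type) [NormedAddCommGroup V] [InnerProductSpace ℂ V] [FiniteDimensional ℂ V]
    (π : Γ →* (V ≃ₗᵢ[ℂ] V)) (U : (GA × GB) →* (Lp V 2 m ≃ₗᵢ[ℂ] Lp V 2 m)),
  IsInd Γ m σ hσ V π U → (∀ v : V, (∀ γ, π γ v = v) → v = 0) → ∀ f : Lp V 2 m,
    ENNReal.ofReal (κ / 4 * ‖f‖ ^ 2) ≤
      ∫⁻ s, ENNReal.ofReal (‖U ((1, s) : GA × GB) f - f‖ ^ 2) ∂μ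

/-- TAU. Property (T;FD) implies property tau: `V = ` functions on `Λ ⧸ N` with sum zero (a submodule
of `EuclideanSpace ℂ (Λ ⧸ N)`), `π q v x = v (q⁻¹ • x)`. -/
def Stmt_TAU : Prop := ∀ (Λ : Type) [Group Λ], PropTFD Λ → PropTau Λ

/-- FIN (uses SEC, COC, ERG, GAPC, GAPV, TRANS, TAU). Assembly. -/
def Stmt_FIN : Prop := Stmt_RESULT

end Pool.TFD
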